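import Mathlib

/-!
# Certificates for reachability in a graph whose vertices have owners
-/

namespace Pool.Agent.L0h32.HA

/-- `n` steps of a relation. -/
def StepN {α : Type*} (r : α → α → Prop) : ℕ → α → α → Prop
  | 0, a, b => a = b
  | n + 1, a, b => ∃ c, StepN r n a c ∧ r c b

lemma StepN.add {α : Type*} {r : α → α → Prop} {m n : ℕ} {a b c : α}
    (h : StepN r m a b) (h' : StepN r n b c) : StepN r (m + n) a c := by
  induction n generalizing c with
  | zero => simp only [StepN] at h'; subst h'; exact h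
  | succ n ih =>
    obtain ⟨d, hd, hr⟩ := h'
    exact ⟨d, ih hd, hr⟩

/-- A walk of length `n` as a function. -/
lemma StepN.exists_fun {α : Type*} {r : α → α → Prop} {n : ℕ} {a b : α}
    (h : StepN r n a b) : ∃ g : ℕ → α, g 0 = a ∧ g n = b ∧ ∀ i < n, r (g i) (g (i + 1)) := by
  induction n generalizing b with
  | zero => exact ⟨fun _ => a, rfl, h, fun i hi => absurd hi (by omega)⟩
  | succ n ih =>
    obtain ⟨c, hc, hr⟩ := h
    obtain ⟨g, g0, gn, hg⟩ := ih hc
    refine ⟨fun i => if i ≤ n then g i else b, by simp [g0], by simp, ?_⟩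
    intro i hi
    by_cases h1 : i < n
    · simp only [show i ≤ n by omega, show i + 1 ≤ n by omega, if_true]
      exact hg i h1
    · have : i = n := by omega
      subst this
      simp [gn, hr]

lemma StepN.of_fun {α : Type*} {r : α → α → Prop} {n : ℕ} {g : ℕ → α}
    (hg : ∀ i < n, r (g i) (g (i + 1))) {i j : ℕ} (hij : i ≤ j) (hj : j ≤ n) :
    StepN r (j - i) (g i) (g j) := by
  obtain ⟨d, rfl⟩ := Nat.exists_eq_add_of_le hij
  simp only [Nat.add_sub_cancel_left]
  induction d with
  | zero => exact rfl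
  | succ d ih =>
    exact ⟨g (i + d), ih (by omega) (by omega), hg _ (by omega)⟩

/-- A shortest closed walk through `a` of positive length visits no vertex twice. -/
lemma exists_simple_closed {α : Type*} {r : α → α → Prop} {n : ℕ} {a : α} (hn : 1 ≤ n)
    (h : StepN r n a a) : ∃ (k : ℕ) (g : ℕ → α), 1 ≤ k ∧ k ≤ n ∧ g 0 = a ∧ g k = a ∧
      (∀ i < k, r (g i) (g (i + 1))) ∧ (∀ i < k, ∀ j < k, g i = g j → i = j) := by
  classical
  have hex : ∃ k, 1 ≤ k ∧ StepN r k a a := ⟨n, hn, h⟩
  obtain ⟨hk1, hk⟩ := Nat.find_spec hex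
  obtain ⟨g, g0, gk, hg⟩ := hk.exists_fun
  refine ⟨Nat.find hex, g, hk1, Nat.find_min' hex ⟨hn, h⟩, g0, gk, hg, ?_⟩
  have key : ∀ i j, i < j → j < Nat.find hex → g i ≠ g j := by
    intro i j hij hj he
    have w1 := StepN.of_fun hg (Nat.zero_le i) (by omega : i ≤ Nat.find hex)
    have w2 := StepN.of_fun hg hj.le le_rfl
    rw [g0, he] at w1
    rw [gk] at w2
    have w3 := w1.add w2
    exact Nat.find_min hex (m := i - 0 + (Nat.find hex - j)) (by omega) ⟨by omega, w3⟩
  intro i hi j hj he
  rcases lt_trichotomy i j with h | h | h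
  · exact absurd he (key i j h hj)
  · exact h
  · exact absurd he.symm (key j i h hi)

section Graph

variable {V : Type} (o : V → Fin 3) (E : V → V → Prop) (F : Set V) (v0 : V) (lf : Fin 3)

/-- A path inside the part owned by `i`. -/
def Seg (i : Fin 3) (v u : V) : Prop :=
  o v = i ∧ Relation.ReflTransGen (fun a b => E a b ∧ o a = i ∧ o b = i) v u

/-- The vertex of a node (`none` is the start). -/
def vtx : Option (V × Fin 3) → V
  | none => v0
  | some e => e.1

/-- The label of a node (`none` is also the accepting end). -/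
def lab : Option (V × Fin 3) → Fin 3
  | none => lf
  | some e => e.2

/-- From `v` one gets, inside the part owned by `i`, to the node. -/
def PathOK (i : Fin 3) (v : V) : Option (V × Fin 3) → Prop
  | none => ∃ u, Seg o E i v u ∧ u ∈ F
  | some e => ∃ u, Seg o E i v u ∧ E u e.1 ∧ o e.1 ≠ i

/-- The edges of the boundary graph. -/
def Bd (d d' : Option (V × Fin 3)) : Prop :=
  lab lf d' = o (vtx v0 d) ∧ PathOK o E F (o (vtx v0 d)) (vtx v0 d) d'

/-- What player `i` checks for the certificate `D`. -/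
def Psi (D : Finset (Option (V × Fin 3))) (i : Fin 3) : Prop :=
  ∃ f : Option (V × Fin 3) → Option (V × Fin 3),
    (∀ d ∈ D, o (vtx v0 d) = i → f d ∈ D ∧ lab lf (f d) = i ∧
      PathOK o E F i (vtx v0 d) (f d)) ∧
    (∀ d ∈ D, ∀ d' ∈ D, o (vtx v0 d) = i → o (vtx v0 d') = i → f d = f d' → d = d')

variable {o E F v0 lf}

lemma Seg.right_owner {i : Fin 3} {v u : V} (h : Seg o E i v u) : o u = i := by
  obtain ⟨h1, h2⟩ := h
  cases h2 with
  | refl => exact h1
  | tail _ h => exact h.2.2

lemma Seg.toReach {i : Fin 3} {v u : V} (h : Seg o E i v u) : Relation.ReflTransGen E v u := by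
  obtain ⟨_, h2⟩ := h
  induction h2 with
  | refl => exact Relation.ReflTransGen.refl
  | tail _ h ih => exact ih.tail h.1

/-- **Soundness.** If all three players accept the certificate, then an element of `F` is
reachable from `v0`. -/
theorem cert_sound (D : Finset (Option (V × Fin 3))) (hD : none ∈ D)
    (h : ∀ i, Psi o E F v0 lf D i) : ∃ u ∈ F, Relation.ReflTransGen E v0 u := by
  classical
  choose f hf hinj using h
  let g : Option (V × Fin 3) → Option (V × Fin 3) := fun d => f (o (vtx v0 d)) d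
  have hg : ∀ d ∈ D, g d ∈ D := fun d hd => (hf _ d hd rfl).1
  have hl : ∀ d ∈ D, lab lf (g d) = o (vtx v0 d) := fun d hd => (hf _ d hd rfl).2.1
  have hp : ∀ d ∈ D, PathOK o E F (o (vtx v0 d)) (vtx v0 d) (g d) :=
    fun d hd => (hf _ d hd rfl).2.2
  have gi : ∀ d ∈ D, ∀ d' ∈ D, g d = g d' → d = d' := by
    intro d hd d' hd' he
    have ho : o (vtx v0 d) = o (vtx v0 d') := by rw [← hl d hd, ← hl d' hd', he]
    refine hinj (o (vtx v0 d')) d hd d' hd' ho rfl ?_
    have : g d = f (o (vtx v0 d')) d := by simp only [g, ho]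
    rw [← this, he]
  let G : D → D := fun d => ⟨g d.1, hg d.1 d.2⟩
  have hG : Function.Injective G := by
    intro a b hab
    apply Subtype.ext
    exact gi _ a.2 _ b.2 (congrArg Subtype.val hab)
  have hper := hG.mem_periodicPts ⟨none, hD⟩
  obtain ⟨n, hn, hfix⟩ := hper
  -- the first return
  have hex : ∃ n, 0 < n ∧ G^[n] ⟨none, hD⟩ = ⟨none, hD⟩ := ⟨n, hn, hfix⟩
  obtain ⟨hk0, hk⟩ := Nat.find_spec hex
  have hmin : ∀ m, 0 < m → m < Nat.find hex → G^[m] ⟨none, hD⟩ ≠ ⟨none, hD⟩ :=
    fun m h1 h2 h3 => Nat.find_min hex h2 ⟨h1, h3⟩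
  set k := Nat.find hex with hkdef
  have hreach : ∀ m, m < k → Relation.ReflTransGen E v0 (vtx v0 (G^[m] ⟨none, hD⟩).1) := by
    intro m
    induction m with
    | zero => intro _; exact Relation.ReflTransGen.refl
    | succ m ih =>
      intro hm
      have h1 := ih (by omega)
      rw [Function.iterate_succ_apply']
      have h2 := hp (G^[m] ⟨none, hD⟩).1 (G^[m] ⟨none, hD⟩).2
      have h3 : (G (G^[m] ⟨none, hD⟩)).1 = g (G^[m] ⟨none, hD⟩).1 := rfl
      have h4 : (G (G^[m] ⟨none, hD⟩)).1 ≠ none := by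
        intro h4
        apply hmin (m + 1) (by omega) hm
        rw [Function.iterate_succ_apply']
        exact Subtype.ext h4
      rw [h3] at h4 ⊢
      obtain ⟨e, he⟩ := Option.ne_none_iff_exists'.1 h4
      rw [he] at h2 ⊢
      obtain ⟨u, hu, hE, _⟩ := h2
      exact (h1.trans hu.toReach).tail hE
  have hlast := hreach (k - 1) (by omega)
  have h2 := hp (G^[k - 1] ⟨none, hD⟩).1 (G^[k - 1] ⟨none, hD⟩).2
  have h5 : G (G^[k - 1] ⟨none, hD⟩) = ⟨none, hD⟩ := by
    rw [← Function.iterate_succ_apply' G (k - 1) ⟨none, hD⟩, show (k - 1).succ = k by omega]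
    exact hk
  have h6 : g (G^[k - 1] ⟨none, hD⟩).1 = none := congrArg Subtype.val h5
  rw [h6] at h2
  obtain ⟨u, hu, hF⟩ := h2
  exact ⟨u, hF, hlast.trans hu.toReach⟩

/-- The number of boundary edges in the first `T` steps of `c`. -/
noncomputable def bcount (o : V → Fin 3) (c : ℕ → V) (T : ℕ) : ℕ :=
  ((Finset.range T).filter (fun t => o (c t) ≠ o (c (t + 1)))).card

lemma run_walk (o : V → Fin 3) {E : V → V → Prop} (F : Set V) (lf : Fin 3) {c : ℕ → V} {T : ℕ}
    (hE : ∀ t < T, E (c t) (c (t + 1))) :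
    ∀ t ≤ T, ∃ n ≤ bcount o c t, ∃ d, StepN (Bd o E F (c 0) lf) n none d ∧
      Seg o E (o (vtx (c 0) d)) (vtx (c 0) d) (c t) := by
  intro t
  induction t with
  | zero =>
    intro _
    exact ⟨0, Nat.zero_le _, none, rfl, rfl, Relation.ReflTransGen.refl⟩
  | succ t ih =>
    intro ht
    obtain ⟨n, hn, d, hd, hs⟩ := ih (by omega)
    have ho := hs.right_owner
    have hcount : bcount o c (t + 1) = bcount o c t + if o (c t) ≠ o (c (t + 1)) then 1 else 0 := by
      unfold bcount
      rw [Finset.range_add_one, Finset.filter_insert]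
      split_ifs with h
      · rw [Finset.card_insert_of_notMem (by simp)]
      · rfl
    by_cases hb : o (c t) = o (c (t + 1))
    · refine ⟨n, ?_, d, hd, hs.1, ?_⟩
      · rw [hcount]; omega
      · exact hs.2.tail ⟨hE t (by omega), ho, by rw [← hb]; exact ho⟩
    · refine ⟨n + 1, ?_, some (c (t + 1), o (c t)), ⟨d, hd, ?_, ?_⟩, ?_⟩
      · rw [hcount, if_pos hb]; omega
      · exact ho
      · refine ⟨c t, hs, hE t (by omega), ?_⟩
        show o (c (t + 1)) ≠ _
        rw [← ho]
        exact fun h => hb h.symm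
      · exact ⟨rfl, Relation.ReflTransGen.refl⟩

/-- **Completeness.** A computation with few boundary edges has a small certificate. -/
theorem cert_complete {c : ℕ → V} {T R : ℕ} (h0 : c 0 = v0)
    (hE : ∀ t < T, E (c t) (c (t + 1))) (hF : c T ∈ F) (hR : bcount o c T ≤ R) :
    ∃ S : Finset (V × Fin 3), S.card ≤ R ∧
      (∀ e ∈ S, ∃ u, E u e.1 ∧ o u ≠ o e.1 ∧ o u = e.2) ∧
      ∀ i, Psi o E F v0 (o (c T)) (Finset.insertNone S) i := by
  classical
  subst h0
  obtain ⟨n, hn, d, hd, hs⟩ := run_walk o F (o (c T)) hE T le_rfl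
  have hclosed : StepN (Bd o E F (c 0) (o (c T))) (n + 1) none none :=
    ⟨d, hd, hs.right_owner, c T, hs, hF⟩
  obtain ⟨k, g, hk1, hkn, g0, gk, hg, hinj⟩ := exists_simple_closed (by omega) hclosed
  -- the nodes of the walk
  have hne : ∀ i, 1 ≤ i → i < k → g i ≠ none := by
    intro i h1 h2 h3
    have := hinj i h2 0 (by omega) (by rw [h3, g0])
    omega
  let S : Finset (V × Fin 3) := ((Finset.range k).image g).biUnion Option.toFinset
  have hmem : ∀ e, e ∈ S ↔ ∃ i < k, g i = some e := by
    intro e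
    simp only [S, Finset.mem_biUnion, Finset.mem_image, Finset.mem_range, Option.mem_toFinset,
      Option.mem_def]
    constructor
    · rintro ⟨_, ⟨i, hi, rfl⟩, h⟩; exact ⟨i, hi, h⟩
    · rintro ⟨i, hi, h⟩; exact ⟨_, ⟨i, hi, rfl⟩, h⟩
  have hDmem : ∀ d, d ∈ Finset.insertNone S ↔ ∃ i < k, g i = d := by
    intro d
    cases d with
    | none =>
      exact ⟨fun _ => ⟨0, by omega, g0⟩, fun _ => Finset.none_mem_insertNone⟩
    | some e =>
      rw [Finset.some_mem_insertNone]
      exact hmem e
  refine ⟨S, ?_, ?_, ?_⟩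
  · -- cardinality
    have h1 : S.image some ⊆ ((Finset.Ico 1 k).image g) := by
      intro d hd
      obtain ⟨e, he, rfl⟩ := Finset.mem_image.1 hd
      obtain ⟨i, hi, hgi⟩ := (hmem e).1 he
      refine Finset.mem_image.2 ⟨i, Finset.mem_Ico.2 ⟨?_, hi⟩, hgi⟩
      by_contra hcon
      have : i = 0 := by omega
      subst this
      rw [g0] at hgi
      cases hgi
    calc S.card = (S.image some).card :=
          (Finset.card_image_of_injective _ (Option.some_injective _)).symm
      _ ≤ ((Finset.Ico 1 k).image g).card := Finset.card_le_card h1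
      _ ≤ (Finset.Ico 1 k).card := Finset.card_image_le
      _ = k - 1 := by simp
      _ ≤ R := by omega
  · intro e he
    obtain ⟨i, hi, hgi⟩ := (hmem e).1 he
    obtain ⟨j, rfl⟩ : ∃ j, i = j + 1 := by
      refine ⟨i - 1, ?_⟩
      by_contra hcon
      have : i = 0 := by omega
      subst this
      rw [g0] at hgi
      cases hgi
    obtain ⟨hlab, hp⟩ := hg j (by omega)
    rw [hgi] at hlab hp
    obtain ⟨u, hu, hEu, hou⟩ := hp
    refine ⟨u, hEu, ?_, ?_⟩
    · rw [hu.right_owner]; exact fun h => hou h.symm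
    · rw [hu.right_owner]; exact hlab.symm
  · intro i
    -- successor function on the walk
    have hidx : ∀ d, (∃ i < k, g i = d) → ∃ i, i < k ∧ g i = d := fun d h => h
    let idx : Option (V × Fin 3) → ℕ := fun d => if h : ∃ i, i < k ∧ g i = d then h.choose else 0
    have hidx1 : ∀ j < k, idx (g j) = j := by
      intro j hj
      have h : ∃ i, i < k ∧ g i = g j := ⟨j, hj, rfl⟩
      simp only [idx, dif_pos h]
      exact hinj _ h.choose_spec.1 _ hj h.choose_spec.2
    refine ⟨fun d => g (idx d + 1), ?_, ?_⟩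
    · intro d hd hod
      obtain ⟨j, hj, rfl⟩ := (hDmem d).1 hd
      simp only [hidx1 j hj]
      have hb := hg j hj
      refine ⟨?_, ?_, ?_⟩
      · rw [hDmem]
        by_cases hjk : j + 1 < k
        · exact ⟨j + 1, hjk, rfl⟩
        · have : j + 1 = k := by omega
          exact ⟨0, by omega, by rw [g0, this, gk]⟩
      · rw [← hod]; exact hb.1
      · rw [← hod]; exact hb.2
    · intro d hd d' hd' _ _ he
      obtain ⟨j, hj, rfl⟩ := (hDmem d).1 hd
      obtain ⟨j', hj', rfl⟩ := (hDmem d').1 hd'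
      simp only [hidx1 j hj, hidx1 j' hj'] at he
      by_cases h1 : j + 1 < k
      · by_cases h2 : j' + 1 < k
        · have := hinj _ h1 _ h2 he
          have : j = j' := by omega
          rw [this]
        · have h3 : j' + 1 = k := by omega
          rw [h3, gk] at he
          exact absurd he (hne (j + 1) (by omega) h1)
      · have h3 : j + 1 = k := by omega
        by_cases h2 : j' + 1 < k
        · rw [h3, gk] at he
          exact absurd he.symm (hne (j' + 1) (by omega) h2)
        · have : j = j' := by omega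
          rw [this]

end Graph

end Pool.Agent.L0h32.HA
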