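import Pool.Agent.L0h32.HA.Table

/-!
# Certificates along compressed computations
-/

namespace Pool.Agent.L0h32.HA

section Graph

variable {V : Type} (o : V → Fin 3) (E : V → V → Prop) (F : Set V) (v0 : V) (lf : Fin 3)

/-- The vertex `v` is reached with at most `b` boundary edges. -/
def Inv (b : ℕ) (v : V) : Prop :=
  ∃ n ≤ b, ∃ d, StepN (Bd o E F v0 lf) n none d ∧ Seg o E (o (vtx v0 d)) (vtx v0 d) v

variable {o E F v0 lf}

lemma Inv.zero : Inv o E F v0 lf 0 v0 :=
  ⟨0, le_rfl, none, rfl, rfl, Relation.ReflTransGen.refl⟩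

lemma Inv.mono {b b' : ℕ} {v : V} (h : Inv o E F v0 lf b v) (hb : b ≤ b') :
    Inv o E F v0 lf b' v := by
  obtain ⟨n, hn, d, h1, h2⟩ := h
  exact ⟨n, hn.trans hb, d, h1, h2⟩

lemma Inv.same {b : ℕ} {u v : V} (h : Inv o E F v0 lf b u) (hE : E u v) (ho : o u = o v) :
    Inv o E F v0 lf b v := by
  obtain ⟨n, hn, d, h1, h2⟩ := h
  have h3 := h2.right_owner
  exact ⟨n, hn, d, h1, h2.1, h2.2.tail ⟨hE, h3, ho ▸ h3⟩⟩

lemma Inv.diff {b : ℕ} {u v : V} (h : Inv o E F v0 lf b u) (hE : E u v) (ho : o u ≠ o v) :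
    Inv o E F v0 lf (b + 1) v := by
  obtain ⟨n, hn, d, h1, h2⟩ := h
  have h3 := h2.right_owner
  refine ⟨n + 1, by omega, some (v, o u), ⟨d, h1, h3, u, h2, hE, ?_⟩, rfl,
    Relation.ReflTransGen.refl⟩
  show o v ≠ _
  rw [← h3]
  exact fun h => ho h.symm

lemma Inv.any {b : ℕ} {u v : V} (h : Inv o E F v0 lf b u) (hE : E u v) :
    Inv o E F v0 lf (b + 1) v := by
  by_cases ho : o u = o v
  · exact (h.same hE ho).mono (by omega)
  · exact h.diff hE ho

/-- **Completeness**, from a walk given by `Inv`. -/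
theorem cert_complete' {R : ℕ} {u : V} (hI : Inv o E F v0 (o u) R u) (hF : u ∈ F) :
    ∃ S : Finset (V × Fin 3), S.card ≤ R ∧
      (∀ e ∈ S, ∃ u, E u e.1 ∧ o u ≠ o e.1 ∧ o u = e.2) ∧
      ∀ i, Psi o E F v0 (o u) (Finset.insertNone S) i := by
  classical
  obtain ⟨n, hn, d, hd, hs⟩ := hI
  have hclosed : StepN (Bd o E F v0 (o u)) (n + 1) none none :=
    ⟨d, hd, hs.right_owner, u, hs, hF⟩
  obtain ⟨k, g, hk1, hkn, g0, gk, hg, hinj⟩ := exists_simple_closed (by omega) hclosed
  -- the nodes of the walk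
  have hne : ∀ i, 1 ≤ i → i < k → g i ≠ none := by
    intro i h1 h2 h3
    have := hinj i h2 0 (by omega) (by rw [h3, g0])
    omega
  let S : Finset (V × Fin 3) := ((Finset.range k).image g).biUnion Option.toFinset
  have hmem : ∀ e, e ∈ S ↔ ∃ i < k, g i = some e := by
    intro e
    simp only [S, Finset.mem_biUnion, Finset.mem_image, Finset.mem_range, Option.mem_toFinset,
      Option.mem_def]
    constructor
    · rintro ⟨_, ⟨i, hi, rfl⟩, h⟩; exact ⟨i, hi, h⟩
    · rintro ⟨i, hi, h⟩; exact ⟨_, ⟨i, hi, rfl⟩, h⟩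
  have hDmem : ∀ d, d ∈ Finset.insertNone S ↔ ∃ i < k, g i = d := by
    intro d
    cases d with
    | none =>
      exact ⟨fun _ => ⟨0, by omega, g0⟩, fun _ => Finset.none_mem_insertNone⟩
    | some e =>
      rw [Finset.some_mem_insertNone]
      exact hmem e
  refine ⟨S, ?_, ?_, ?_⟩
  · -- cardinality
    have h1 : S.image some ⊆ ((Finset.Ico 1 k).image g) := by
      intro d hd
      obtain ⟨e, he, rfl⟩ := Finset.mem_image.1 hd
      obtain ⟨i, hi, hgi⟩ := (hmem e).1 he
      refine Finset.mem_image.2 ⟨i, Finset.mem_Ico.2 ⟨?_, hi⟩, hgi⟩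
      by_contra hcon
      have : i = 0 := by omega
      subst this
      rw [g0] at hgi
      cases hgi
    calc S.card = (S.image some).card :=
          (Finset.card_image_of_injective _ (Option.some_injective _)).symm
      _ ≤ ((Finset.Ico 1 k).image g).card := Finset.card_le_card h1
      _ ≤ (Finset.Ico 1 k).card := Finset.card_image_le
      _ = k - 1 := by simp
      _ ≤ R := by omega
  · intro e he
    obtain ⟨i, hi, hgi⟩ := (hmem e).1 he
    obtain ⟨j, rfl⟩ : ∃ j, i = j + 1 := by
      refine ⟨i - 1, ?_⟩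
      by_contra hcon
      have : i = 0 := by omega
      subst this
      rw [g0] at hgi
      cases hgi
    obtain ⟨hlab, hp⟩ := hg j (by omega)
    rw [hgi] at hlab hp
    obtain ⟨u, hu, hEu, hou⟩ := hp
    refine ⟨u, hEu, ?_, ?_⟩
    · rw [hu.right_owner]; exact fun h => hou h.symm
    · rw [hu.right_owner]; exact hlab.symm
  · intro i
    -- successor function on the walk
    have hidx : ∀ d, (∃ i < k, g i = d) → ∃ i, i < k ∧ g i = d := fun d h => h
    let idx : Option (V × Fin 3) → ℕ := fun d => if h : ∃ i, i < k ∧ g i = d then h.choose else 0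
    have hidx1 : ∀ j < k, idx (g j) = j := by
      intro j hj
      have h : ∃ i, i < k ∧ g i = g j := ⟨j, hj, rfl⟩
      simp only [idx, dif_pos h]
      exact hinj _ h.choose_spec.1 _ hj h.choose_spec.2
    refine ⟨fun d => g (idx d + 1), ?_, ?_⟩
    · intro d hd hod
      obtain ⟨j, hj, rfl⟩ := (hDmem d).1 hd
      simp only [hidx1 j hj]
      have hb := hg j hj
      refine ⟨?_, ?_, ?_⟩
      · rw [hDmem]
        by_cases hjk : j + 1 < k
        · exact ⟨j + 1, hjk, rfl⟩
        · have : j + 1 = k := by omega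
          exact ⟨0, by omega, by rw [g0, this, gk]⟩
      · rw [← hod]; exact hb.1
      · rw [← hod]; exact hb.2
    · intro d hd d' hd' _ _ he
      obtain ⟨j, hj, rfl⟩ := (hDmem d).1 hd
      obtain ⟨j', hj', rfl⟩ := (hDmem d').1 hd'
      simp only [hidx1 j hj, hidx1 j' hj'] at he
      by_cases h1 : j + 1 < k
      · by_cases h2 : j' + 1 < k
        · have := hinj _ h1 _ h2 he
          have : j = j' := by omega
          rw [this]
        · have h3 : j' + 1 = k := by omega
          rw [h3, gk] at he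
          exact absurd he (hne (j + 1) (by omega) h1)
      · have h3 : j + 1 = k := by omega
        by_cases h2 : j' + 1 < k
        · rw [h3, gk] at he
          exact absurd he.symm (hne (j' + 1) (by omega) h2)
        · have : j = j' := by omega
          rw [this]

end Graph

/-! ### Moves of a head -/

/-- The number of moves in the first `T` steps of a walk. -/
def mv (p : ℕ → ℕ) (T : ℕ) : ℕ := ((Finset.range T).filter (fun t => p t ≠ p (t + 1))).card

lemma mv_succ (p : ℕ → ℕ) (T : ℕ) :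
    mv p (T + 1) = mv p T + if p T ≠ p (T + 1) then 1 else 0 := by
  unfold mv
  rw [Finset.range_add_one, Finset.filter_insert]
  split_ifs with h
  · rw [Finset.card_insert_of_notMem (by simp)]
  · rfl

lemma crN_succ (p : ℕ → ℕ) (c T : ℕ) :
    crN p c (T + 1) = crN p c T + if Cr (p T) (p (T + 1)) c then 1 else 0 := by
  unfold crN
  rw [Finset.range_add_one, Finset.filter_insert]
  split_ifs with h
  · rw [Finset.card_insert_of_notMem (by simp)]
  · rfl

lemma mv_mono (p : ℕ → ℕ) {s t : ℕ} (h : s ≤ t) : mv p s ≤ mv p t := by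
  induction t, h using Nat.le_induction with
  | base => exact le_rfl
  | succ t _ ih => rw [mv_succ]; omega

lemma crN_mono (p : ℕ → ℕ) (c : ℕ) {s t : ℕ} (h : s ≤ t) : crN p c s ≤ crN p c t := by
  induction t, h using Nat.le_induction with
  | base => exact le_rfl
  | succ t _ ih => rw [crN_succ]; omega

lemma mv_disp (p : ℕ → ℕ) {s t : ℕ} (h : s ≤ t)
    (hp : ∀ u, s ≤ u → u < t → p (u + 1) ≤ p u + 1 ∧ p u ≤ p (u + 1) + 1) :
    p t + mv p s ≤ p s + mv p t ∧ p s + mv p s ≤ p t + mv p t := by
  induction t, h using Nat.le_induction with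
  | base => exact ⟨le_rfl, le_rfl⟩
  | succ t hst ih =>
    have h1 := ih (fun u h1 h2 => hp u h1 (by omega))
    have h2 := hp t hst (by omega)
    rw [mv_succ]
    split_ifs with h3 <;> omega

lemma no_cross (p : ℕ → ℕ) (c : ℕ) {s t : ℕ} (h : s ≤ t) (he : crN p c t ≤ crN p c s) :
    ∀ u, s ≤ u → u ≤ t → (p u ≤ c ↔ p s ≤ c) := by
  intro u hu
  induction u, hu using Nat.le_induction with
  | base => exact fun _ => Iff.rfl
  | succ u hsu ih =>
    intro hut
    rw [← ih (by omega)]
    have h1 := crN_mono p c hsu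
    have h2 := crN_mono p c hut
    rw [crN_succ] at h2
    have h3 : ¬ Cr (p u) (p (u + 1)) c := by
      intro h3
      rw [if_pos h3] at h2
      omega
    unfold Cr at h3
    omega

lemma sum_crN_le_mv (I : Finset ℕ) (p : ℕ → ℕ) (T : ℕ)
    (h : ∀ t < T, p (t + 1) ≤ p t + 1 ∧ p t ≤ p (t + 1) + 1) :
    ∑ c ∈ I, crN p c T ≤ mv p T := by
  induction T with
  | zero => simp [crN]
  | succ T ih =>
    have h1 := ih (fun t ht => h t (by omega))
    have h2 : ∑ c ∈ I, crN p c (T + 1) = ∑ c ∈ I, crN p c T +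
        (I.filter (fun c => Cr (p T) (p (T + 1)) c)).card := by
      rw [Finset.card_filter, ← Finset.sum_add_distrib]
      exact Finset.sum_congr rfl fun c _ => crN_succ p c T
    rw [h2, mv_succ]
    obtain ⟨a, b⟩ := h T (by omega)
    have h3 := sum_cross_le I _ _ a b
    split_ifs with h4
    · omega
    · push Not at h4
      have h5 : (I.filter (fun c => Cr (p T) (p (T + 1)) c)).card = 0 := by
        rw [Finset.card_eq_zero, Finset.filter_eq_empty_iff]
        intro c _ hc
        unfold Cr at hc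
        omega
      omega

end Pool.Agent.L0h32.HA
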