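import Mathlib

/-!
# Counting certificates
-/

namespace Pool.Agent.L0h32.HA

open Classical in
/-- The number of subsets of size at most `R`. -/
lemma card_small_subsets {α : Type*} (U : Finset α) (R : ℕ) (m : ℝ) (hm : 1 ≤ m) :
    (((U.powerset.filter (fun t => t.card ≤ R)).card : ℕ) : ℝ) ≤ m ^ R * (1 + 1 / m) ^ U.card := by
  have hm0 : 0 < m := by linarith
  have h1 : (1 + 1 / m) ^ U.card = ∑ t ∈ U.powerset, (1 / m) ^ t.card := by
    have := Finset.sum_pow_mul_eq_add_pow (1 / m) 1 U
    rw [add_comm, ← this]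
    simp
  rw [h1, Finset.mul_sum, Finset.card_eq_sum_ones]
  push_cast
  calc (∑ t ∈ U.powerset.filter (fun t => t.card ≤ R), (1 : ℝ))
      ≤ ∑ t ∈ U.powerset.filter (fun t => t.card ≤ R), m ^ R * (1 / m) ^ t.card := by
        refine Finset.sum_le_sum fun t ht => ?_
        have ht' : t.card ≤ R := (Finset.mem_filter.1 ht).2
        obtain ⟨d, hd⟩ := Nat.exists_eq_add_of_le ht'
        rw [hd, pow_add, mul_right_comm, ← mul_pow, mul_one_div_cancel hm0.ne', one_pow, one_mul]
        exact one_le_pow₀ hm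
    _ ≤ _ := by
        refine Finset.sum_le_sum_of_subset_of_nonneg (Finset.filter_subset _ _) ?_
        intro t _ _
        positivity

/-- The numerical inequality. -/
lemma numeric (l s R lam N : ℕ) (hl : 1024 ≤ l) (hs : s ≤ 2 ^ lam)
    (hlam : 1 ≤ lam) (hR : 600 * lam * R ≤ l) (hN : N ≤ 168 * s * l) :
    (331776 : ℝ) * ((l : ℝ) + 1) ^ 8 *
      (((2 : ℝ) ^ (lam + 14)) ^ R * (1 + 1 / (2 : ℝ) ^ (lam + 14)) ^ N) ^ 4 < (4 / 3 : ℝ) ^ l := by
  have hl' : (1024 : ℝ) ≤ l := by exact_mod_cast hl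
  have hlpos : (0 : ℝ) < l := by linarith
  -- the certificate count
  have h1 : ((2 : ℝ) ^ (lam + 14)) ^ R ≤ Real.exp (15 * lam * R * Real.log 2) := by
    rw [← pow_mul, ← Real.rpow_natCast, Real.rpow_def_of_pos (by norm_num)]
    apply Real.exp_le_exp.2
    rw [mul_comm]
    refine mul_le_mul_of_nonneg_right ?_ (Real.log_nonneg (by norm_num))
    push_cast
    have : ((lam : ℝ) + 14) ≤ 15 * lam := by
      have : (1 : ℝ) ≤ lam := by exact_mod_cast hlam
      linarith
    exact mul_le_mul_of_nonneg_right this (by positivity)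
  have h2 : (1 + 1 / (2 : ℝ) ^ (lam + 14)) ^ N ≤ Real.exp (168 * l / 16384) := by
    have hle : 1 + 1 / (2 : ℝ) ^ (lam + 14) ≤ Real.exp (1 / (2 : ℝ) ^ (lam + 14)) := by
      have := Real.add_one_le_exp (1 / (2 : ℝ) ^ (lam + 14))
      linarith
    refine (pow_le_pow_left₀ (by positivity) hle N).trans ?_
    rw [← Real.exp_nat_mul]
    apply Real.exp_le_exp.2
    have hN' : (N : ℝ) ≤ 168 * s * l := by exact_mod_cast hN
    have hs' : (s : ℝ) ≤ 2 ^ lam := by exact_mod_cast hs
    have hpos : (0 : ℝ) < 2 ^ lam := by positivity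
    rw [pow_add, mul_one_div]
    rw [div_le_div_iff₀ (by positivity) (by norm_num)]
    have : (2 : ℝ) ^ 14 = 16384 := by norm_num
    rw [this]
    have h3 : (N : ℝ) ≤ 168 * l * 2 ^ lam := by
      refine hN'.trans ?_
      have : (168 : ℝ) * s * l = 168 * l * s := by ring
      rw [this]
      exact mul_le_mul_of_nonneg_left hs' (by positivity)
    nlinarith
  have hlog2 : Real.log 2 < 0.6931471808 := Real.log_two_lt_d9
  have h3 : (((2 : ℝ) ^ (lam + 14)) ^ R * (1 + 1 / (2 : ℝ) ^ (lam + 14)) ^ N) ^ 4 ≤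
      Real.exp (l / 8) := by
    have h4 : ((2 : ℝ) ^ (lam + 14)) ^ R * (1 + 1 / (2 : ℝ) ^ (lam + 14)) ^ N ≤
        Real.exp (15 * lam * R * Real.log 2 + 168 * l / 16384) := by
      rw [Real.exp_add]
      exact mul_le_mul h1 h2 (by positivity) (Real.exp_pos _).le
    refine (pow_le_pow_left₀ (by positivity) h4 4).trans ?_
    rw [← Real.exp_nat_mul]
    apply Real.exp_le_exp.2
    push_cast
    have hR' : (600 : ℝ) * lam * R ≤ l := by exact_mod_cast hR
    have hlr : (0 : ℝ) ≤ lam * R := by positivity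
    have h5 : 60 * ((lam : ℝ) * R) * Real.log 2 ≤ 60 * ((lam : ℝ) * R) * 0.6931471808 :=
      mul_le_mul_of_nonneg_left hlog2.le (by positivity)
    nlinarith
  have h4 : Real.exp (l / 4) ≤ (4 / 3 : ℝ) ^ l := by
    rw [← Real.rpow_natCast, Real.rpow_def_of_pos (by norm_num)]
    apply Real.exp_le_exp.2
    have : 1 - (4 / 3 : ℝ)⁻¹ ≤ Real.log (4 / 3) := Real.one_sub_inv_le_log_of_pos (by norm_num)
    have h' : (1 / 4 : ℝ) ≤ Real.log (4 / 3) := by
      refine le_trans ?_ this
      norm_num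
    nlinarith
  have h5 : (331776 : ℝ) * ((l : ℝ) + 1) ^ 8 < Real.exp (l / 8) := by
    have e1 : Real.exp (l / 8) = (Real.exp (l / 64)) ^ 8 := by
      rw [← Real.exp_nat_mul]; congr 1; push_cast; ring
    have e2 : Real.exp (l / 64) = (Real.exp (l / 1024)) ^ 16 := by
      rw [← Real.exp_nat_mul]; congr 1; push_cast; ring
    have e3 : 1 + (l : ℝ) / 1024 ≤ Real.exp (l / 1024) := by
      have := Real.add_one_le_exp ((l : ℝ) / 1024)
      linarith
    have e4 : (2 : ℝ) ≤ 1 + (l : ℝ) / 1024 := by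
      have : (1 : ℝ) ≤ l / 1024 := by rw [le_div_iff₀ (by norm_num)]; linarith
      linarith
    have e5 : 5 * ((l : ℝ) + 1) ≤ Real.exp (l / 64) := by
      rw [e2]
      have : (1 + (l : ℝ) / 1024) ^ 16 ≤ (Real.exp (l / 1024)) ^ 16 :=
        pow_le_pow_left₀ (by positivity) e3 16
      refine le_trans ?_ this
      have h6 : (2 : ℝ) ^ 15 * (1 + (l : ℝ) / 1024) ≤ (1 + (l : ℝ) / 1024) ^ 16 := by
        rw [pow_succ (1 + (l : ℝ) / 1024) 15]
        exact mul_le_mul_of_nonneg_right (pow_le_pow_left₀ (by norm_num) e4 15) (by positivity)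
      refine le_trans ?_ h6
      norm_num
      linarith
    rw [e1]
    calc (331776 : ℝ) * ((l : ℝ) + 1) ^ 8 < 5 ^ 8 * ((l : ℝ) + 1) ^ 8 := by
          refine mul_lt_mul_of_pos_right (by norm_num) (by positivity)
      _ = (5 * ((l : ℝ) + 1)) ^ 8 := by rw [mul_pow]
      _ ≤ _ := pow_le_pow_left₀ (by positivity) e5 8
  calc (331776 : ℝ) * ((l : ℝ) + 1) ^ 8 *
      (((2 : ℝ) ^ (lam + 14)) ^ R * (1 + 1 / (2 : ℝ) ^ (lam + 14)) ^ N) ^ 4
      ≤ (331776 : ℝ) * ((l : ℝ) + 1) ^ 8 * Real.exp (l / 8) :=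
        mul_le_mul_of_nonneg_left h3 (by positivity)
    _ < Real.exp (l / 8) * Real.exp (l / 8) := by
        refine mul_lt_mul_of_pos_right h5 (Real.exp_pos _)
    _ = Real.exp (l / 4) := by rw [← Real.exp_add]; congr 1; ring
    _ ≤ _ := h4

/-- Choosing a good cut line. -/
lemma exists_good_line (I : Finset ℕ) (hI : I.Nonempty) (f : ℕ → ℕ) (B : ℕ)
    (h : ∑ c ∈ I, f c ≤ B) : ∃ c ∈ I, I.card * f c ≤ B := by
  by_contra hcon
  push Not at hcon
  have h1 : ∑ c ∈ I, B < ∑ c ∈ I, I.card * f c := Finset.sum_lt_sum_of_nonempty hI hcon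
  rw [← Finset.mul_sum, Finset.sum_const, smul_eq_mul] at h1
  have h2 : I.card * ∑ c ∈ I, f c ≤ I.card * B := Nat.mul_le_mul_left _ h
  omega

/-- Crossing of a line in one step. -/
def Cr (p p' c : ℕ) : Prop := (p ≤ c ∧ c < p') ∨ (p' ≤ c ∧ c < p)

instance (p p' c : ℕ) : Decidable (Cr p p' c) := by unfold Cr; infer_instance

lemma sum_cross_le (I : Finset ℕ) (p p' : ℕ) (h1 : p' ≤ p + 1) (h2 : p ≤ p' + 1) :
    (I.filter (fun c => Cr p p' c)).card ≤ 1 := by
  rw [Finset.card_le_one]
  intro a ha b hb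
  have ha' := (Finset.mem_filter.1 ha).2
  have hb' := (Finset.mem_filter.1 hb).2
  unfold Cr at ha' hb'
  omega

/-- The number of crossings of the line `c` in the first `T` steps of a walk of a head. -/
def crN (p : ℕ → ℕ) (c T : ℕ) : ℕ := ((Finset.range T).filter (fun t => Cr (p t) (p (t + 1)) c)).card

lemma sum_crN_le (I : Finset ℕ) (p : ℕ → ℕ) (T : ℕ)
    (h : ∀ t < T, p (t + 1) ≤ p t + 1 ∧ p t ≤ p (t + 1) + 1) :
    ∑ c ∈ I, crN p c T ≤ T := by
  unfold crN
  simp_rw [Finset.card_filter]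
  rw [Finset.sum_comm]
  calc ∑ t ∈ Finset.range T, ∑ c ∈ I, (if Cr (p t) (p (t + 1)) c then 1 else 0)
      = ∑ t ∈ Finset.range T, (I.filter (fun c => Cr (p t) (p (t + 1)) c)).card := by
        refine Finset.sum_congr rfl fun t _ => ?_
        rw [Finset.card_filter]
    _ ≤ ∑ t ∈ Finset.range T, 1 := by
        refine Finset.sum_le_sum fun t ht => ?_
        obtain ⟨a, b⟩ := h t (Finset.mem_range.1 ht)
        exact sum_cross_le I _ _ a b
    _ = T := by simp

/-- The direction of the last move. -/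
def dr (p : ℕ → ℕ) : ℕ → SignType
  | 0 => 0
  | t + 1 => if p t < p (t + 1) then 1 else if p (t + 1) < p t then -1 else dr p t

/-- A reversal. -/
def Rv (p : ℕ → ℕ) (t : ℕ) : Prop :=
  (p t < p (t + 1) ∧ dr p t = -1) ∨ (p (t + 1) < p t ∧ dr p t = 1)

instance (p : ℕ → ℕ) (t : ℕ) : Decidable (Rv p t) := by unfold Rv; infer_instance

/-- The number of crossings of a line is at most the number of reversals plus one. -/
lemma crN_le_rev (p : ℕ → ℕ) (c : ℕ) (h0 : p 0 ≤ c) (T : ℕ) :
    crN p c T ≤ ((Finset.range T).filter (fun t => Rv p t)).card + 1 := by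
  -- invariant
  have key : ∀ T, (p T ≤ c → (dr p T = -1 ∧ crN p c T ≤
        ((Finset.range T).filter (fun t => Rv p t)).card + 1) ∨
        (dr p T ≠ -1 ∧ crN p c T ≤ ((Finset.range T).filter (fun t => Rv p t)).card)) ∧
      (c < p T → (dr p T = 1 ∧ crN p c T ≤
        ((Finset.range T).filter (fun t => Rv p t)).card + 1) ∨
        (dr p T ≠ 1 ∧ crN p c T ≤ ((Finset.range T).filter (fun t => Rv p t)).card)) := by
    intro T
    induction T with
    | zero =>
      refine ⟨fun _ => Or.inr ⟨by simp [dr], by simp [crN]⟩, fun h => by omega⟩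
    | succ T ih =>
      obtain ⟨ih1, ih2⟩ := ih
      have hcr : crN p c (T + 1) = crN p c T + if Cr (p T) (p (T + 1)) c then 1 else 0 := by
        unfold crN
        rw [Finset.range_add_one, Finset.filter_insert]
        split_ifs with h
        · rw [Finset.card_insert_of_notMem (by simp)]
        · rfl
      have hrv : ((Finset.range (T + 1)).filter (fun t => Rv p t)).card =
          ((Finset.range T).filter (fun t => Rv p t)).card + if Rv p T then 1 else 0 := by
        rw [Finset.range_add_one, Finset.filter_insert]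
        split_ifs with h
        · rw [Finset.card_insert_of_notMem (by simp)]
        · rfl
      set ρ := ((Finset.range T).filter (fun t => Rv p t)).card with hρ
      set N := crN p c T with hN
      rw [hcr, hrv]
      have hd : dr p (T + 1) = if p T < p (T + 1) then 1 else if p (T + 1) < p T then -1
        else dr p T := rfl
      rcases lt_trichotomy (p T) (p (T + 1)) with h | h | h
      · -- up
        have hd1 : dr p (T + 1) = 1 := by rw [hd, if_pos h]
        rw [hd1]
        rcases Nat.lt_or_ge c (p T) with hc | hc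
        · -- above
          have hn : ¬ Cr (p T) (p (T + 1)) c := by unfold Cr; omega
          rw [if_neg hn]
          refine ⟨fun h' => by omega, fun _ => Or.inl ⟨rfl, ?_⟩⟩
          rcases ih2 hc with ⟨_, h3⟩ | ⟨_, h3⟩ <;> (split_ifs <;> omega)
        · rcases Nat.lt_or_ge c (p (T + 1)) with hc' | hc'
          · -- crossing
            have hn : Cr (p T) (p (T + 1)) c := by unfold Cr; omega
            rw [if_pos hn]
            refine ⟨fun h' => by omega, fun _ => Or.inl ⟨rfl, ?_⟩⟩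
            rcases ih1 hc with ⟨h2, h3⟩ | ⟨_, h3⟩
            · rw [if_pos (show Rv p T from Or.inl ⟨h, h2⟩)]; omega
            · split_ifs <;> omega
          · have hn : ¬ Cr (p T) (p (T + 1)) c := by unfold Cr; omega
            rw [if_neg hn]
            refine ⟨fun _ => Or.inr ⟨by decide, ?_⟩, fun h' => by omega⟩
            rcases ih1 hc with ⟨h2, h3⟩ | ⟨_, h3⟩
            · rw [if_pos (show Rv p T from Or.inl ⟨h, h2⟩)]; omega
            · split_ifs <;> omega
      · -- stay
        have hd1 : dr p (T + 1) = dr p T := by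
          rw [hd, if_neg (by omega), if_neg (by omega)]
        have hn : ¬ Cr (p T) (p (T + 1)) c := by unfold Cr; omega
        have hr : ¬ Rv p T := by unfold Rv; omega
        rw [hd1, if_neg hn, if_neg hr, ← h]
        exact ⟨ih1, ih2⟩
      · -- down
        have hd1 : dr p (T + 1) = -1 := by rw [hd, if_neg (by omega), if_pos h]
        rw [hd1]
        rcases Nat.lt_or_ge c (p T) with hc | hc
        · rcases Nat.lt_or_ge c (p (T + 1)) with hc' | hc'
          · have hn : ¬ Cr (p T) (p (T + 1)) c := by unfold Cr; omega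
            rw [if_neg hn]
            refine ⟨fun h' => by omega, fun _ => Or.inr ⟨by decide, ?_⟩⟩
            rcases ih2 hc with ⟨h2, h3⟩ | ⟨_, h3⟩
            · rw [if_pos (show Rv p T from Or.inr ⟨h, h2⟩)]; omega
            · split_ifs <;> omega
          · have hn : Cr (p T) (p (T + 1)) c := by unfold Cr; omega
            rw [if_pos hn]
            refine ⟨fun _ => Or.inl ⟨rfl, ?_⟩, fun h' => by omega⟩
            rcases ih2 hc with ⟨h2, h3⟩ | ⟨_, h3⟩
            · rw [if_pos (show Rv p T from Or.inr ⟨h, h2⟩)]; omega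
            · split_ifs <;> omega
        · have hn : ¬ Cr (p T) (p (T + 1)) c := by unfold Cr; omega
          rw [if_neg hn]
          refine ⟨fun _ => Or.inl ⟨rfl, ?_⟩, fun h' => by omega⟩
          rcases ih1 hc with ⟨_, h3⟩ | ⟨_, h3⟩ <;> (split_ifs <;> omega)
  obtain ⟨k1, k2⟩ := key T
  rcases Nat.lt_or_ge c (p T) with hc | hc
  · rcases k2 hc with ⟨_, h⟩ | ⟨_, h⟩ <;> omega
  · rcases k1 hc with ⟨_, h⟩ | ⟨_, h⟩ <;> omega

end Pool.Agent.L0h32.HA
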