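import Mathlib

/-!
# Two-way multi-head finite automata and two-way multi-head pushdown automata

Definitions shared by the hand-ins on `MP_d0a708_lc`.
-/

namespace Pool.Agent.L0h32.HA

/-- The content of a cell of the input tape: the left endmarker, a letter, or the
right endmarker. -/
inductive Cell (A : Type) : Type where
  | left : Cell A
  | sym : A → Cell A
  | right : Cell A

/-- The cell at position `i` of the tape that carries the word `w`: position `0` is the
left endmarker, positions `1, ..., |w|` carry the letters, position `|w| + 1` is the right
endmarker. -/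
def cell {A : Type} (w : List A) : ℕ → Cell A
  | 0 => Cell.left
  | j + 1 => match w[j]? with
    | some a => Cell.sym a
    | none => Cell.right

/-- A (nondeterministic) two-way `k`-head finite automaton over the alphabet `A`.
`δ q σ q' m` says that in state `q`, reading the cells `σ`, the automaton may pass to
state `q'` and move head `i` by `m i` (one cell left, stay, one cell right). -/
structure HeadAut (k : ℕ) (A : Type) : Type 1 where
  /-- the states -/
  Q : Type
  /-- there are finitely many states -/
  finQ : Fintype Q
  /-- the initial state -/
  start : Q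
  /-- the accepting states -/
  acc : Set Q
  /-- the transition relation -/
  δ : Q → (Fin k → Cell A) → Q → (Fin k → SignType) → Prop

attribute [instance] HeadAut.finQ

variable {k : ℕ} {A : Type}

/-- A configuration: the state and the positions of the heads. -/
abbrev HeadAut.Cfg (M : HeadAut k A) : Type := M.Q × (Fin k → ℕ)

/-- The initial configuration: initial state, all heads on the left endmarker. -/
def HeadAut.init (M : HeadAut k A) : M.Cfg := (M.start, fun _ => 0)

/-- One step on the word `w`; heads never leave the endmarked input. -/
def HeadAut.Step (M : HeadAut k A) (w : List A) (c d : M.Cfg) : Prop :=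
  ∃ m : Fin k → SignType,
    M.δ c.1 (fun i => cell w (c.2 i)) d.1 m ∧
    (∀ i, ((d.2 i : ℕ) : ℤ) = (c.2 i : ℤ) + (m i : ℤ)) ∧
    ∀ i, d.2 i ≤ w.length + 1

/-- `c 0, ..., c T` is an accepting computation with `T` steps on the word `w`. -/
def HeadAut.IsAccRun (M : HeadAut k A) (w : List A) (T : ℕ) (c : ℕ → M.Cfg) : Prop :=
  c 0 = M.init ∧ (∀ t < T, M.Step w (c t) (c (t + 1))) ∧ (c T).1 ∈ M.acc

/-- The language accepted by `M`. -/
def HeadAut.lang (M : HeadAut k A) : Set (List A) :=
  {w | ∃ T c, M.IsAccRun w T c}

/-- `NHEADS k A`: the languages over `A` accepted by nondeterministic two-way `k`-head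
finite automata. -/
def NHEADS (k : ℕ) (A : Type) : Set (Set (List A)) :=
  {L | ∃ M : HeadAut k A, M.lang = L}

/-- A (nondeterministic) two-way `k`-head pushdown automaton over the alphabet `A`.
`δ q σ g q' m γ` says that in state `q`, reading the cells `σ` and the top pushdown symbol
`g`, the automaton may pass to state `q'`, move head `i` by `m i` and replace the top
symbol `g` by the word `γ`. -/
structure PushAut (k : ℕ) (A : Type) : Type 1 where
  /-- the states -/
  Q : Type
  /-- there are finitely many states -/
  finQ : Fintype Q
  /-- the pushdown symbols -/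
  G : Type
  /-- there are finitely many pushdown symbols -/
  finG : Fintype G
  /-- the initial state -/
  start : Q
  /-- the initial content of the pushdown store is this one symbol -/
  bot : G
  /-- the accepting states -/
  acc : Set Q
  /-- the transition relation -/
  δ : Q → (Fin k → Cell A) → G → Q → (Fin k → SignType) → List G → Prop
  /-- there are only finitely many instructions for every state, cells and top symbol -/
  finδ : ∀ q σ g, Set.Finite {t : Q × (Fin k → SignType) × List G | δ q σ g t.1 t.2.1 t.2.2}

/-- A configuration: the state, the positions of the heads, and the pushdown store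
(the head of the list is the top). -/
abbrev PushAut.Cfg (P : PushAut k A) : Type := P.Q × (Fin k → ℕ) × List P.G

/-- The initial configuration. -/
def PushAut.init (P : PushAut k A) : P.Cfg := (P.start, (fun _ => 0), [P.bot])

/-- One step on the word `w`; heads never leave the endmarked input. -/
def PushAut.Step (P : PushAut k A) (w : List A) (c d : P.Cfg) : Prop :=
  ∃ (m : Fin k → SignType) (g : P.G) (r γ : List P.G),
    c.2.2 = g :: r ∧ d.2.2 = γ ++ r ∧
    P.δ c.1 (fun i => cell w (c.2.1 i)) g d.1 m γ ∧
    (∀ i, ((d.2.1 i : ℕ) : ℤ) = (c.2.1 i : ℤ) + (m i : ℤ)) ∧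
    ∀ i, d.2.1 i ≤ w.length + 1

/-- The language accepted by `P`: some computation from the initial configuration reaches
an accepting state. -/
def PushAut.lang (P : PushAut k A) : Set (List A) :=
  {w | ∃ c : P.Cfg, Relation.ReflTransGen (P.Step w) P.init c ∧ c.1 ∈ P.acc}

/-- `P` is deterministic: every configuration has at most one successor. -/
def PushAut.Deterministic (P : PushAut k A) : Prop :=
  ∀ (w : List A) (c d e : P.Cfg), P.Step w c d → P.Step w c e → d = e

/-- `TwoDPDAHEADS k A`: the languages over `A` accepted by deterministic two-way `k`-head
pushdown automata. -/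
def TwoDPDAHEADS (k : ℕ) (A : Type) : Set (Set (List A)) :=
  {L | ∃ P : PushAut k A, P.Deterministic ∧ P.lang = L}

/-- The direction of the last move of head `i` before time `t` (`0` if it has not moved). -/
def HeadAut.dir {M : HeadAut k A} (c : ℕ → M.Cfg) (i : Fin k) : ℕ → SignType
  | 0 => 0
  | t + 1 =>
    if (c t).2 i < (c (t + 1)).2 i then 1
    else if (c (t + 1)).2 i < (c t).2 i then -1
    else HeadAut.dir c i t

/-- Head `i` reverses its direction in step `t`: it moves in this step, and its last
move before was in the opposite direction. -/
def HeadAut.Rev {M : HeadAut k A} (c : ℕ → M.Cfg) (i : Fin k) (t : ℕ) : Prop :=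
  ((c t).2 i < (c (t + 1)).2 i ∧ HeadAut.dir c i t = -1) ∨
  ((c (t + 1)).2 i < (c t).2 i ∧ HeadAut.dir c i t = 1)

open Classical in
/-- The number of head reversals (of all heads together) in the first `T` steps of `c`. -/
noncomputable def HeadAut.revs {M : HeadAut k A} (c : ℕ → M.Cfg) (T : ℕ) : ℕ :=
  ∑ i : Fin k, ((Finset.range T).filter (fun t => HeadAut.Rev c i t)).card

end Pool.Agent.L0h32.HA
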