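import Mathlib

/-!
# Discrepancy of the three-party generalized inner product
-/

namespace Pool.Agent.L0h32.HA

variable {l : ℕ}

/-- The sign `(-1)^(x y z)` of three bits. -/
def sb (a b c : Bool) : ℤ := if (a && b && c) then -1 else 1

/-- The sign `(-1)^(Σ x_t y_t z_t)`. -/
def sg (x y z : Fin l → Bool) : ℤ := ∏ t, sb (x t) (y t) (z t)

lemma sb_sq (a b c : Bool) : sb a b c = 1 ∨ sb a b c = -1 := by
  unfold sb; split_ifs <;> simp

lemma sg_cases (x y z : Fin l → Bool) : sg x y z = 1 ∨ sg x y z = -1 := by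
  unfold sg
  have : ∀ s : Finset (Fin l), (∏ t ∈ s, sb (x t) (y t) (z t)) = 1 ∨
      (∏ t ∈ s, sb (x t) (y t) (z t)) = -1 := by
    intro s
    induction s using Finset.induction_on with
    | empty => simp
    | insert a s ha ih =>
      rw [Finset.prod_insert ha]
      rcases ih with h | h <;> rcases sb_sq (x a) (y a) (z a) with h' | h' <;> simp [h, h']
  exact this _

lemma sum_prod_bool (f : Fin l → Bool → ℤ) :
    ∑ x : Fin l → Bool, ∏ t, f t (x t) = ∏ t, (f t false + f t true) := by
  have h := Finset.prod_univ_sum (fun _ : Fin l => (Finset.univ : Finset Bool)) f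
  rw [Fintype.piFinset_univ] at h
  rw [← h]
  refine Finset.prod_congr rfl fun t _ => ?_
  rw [Fintype.sum_bool, add_comm]

/-- The inner sum after two applications of Cauchy-Schwarz. -/
def B (y y' z z' : Fin l → Bool) : ℤ :=
  ∑ x : Fin l → Bool, sg x y z * sg x y z' * (sg x y' z * sg x y' z')

lemma B_eq (y y' z z' : Fin l → Bool) :
    B y y' z z' = ∏ t, (sb false (y t) (z t) * sb false (y t) (z' t) *
      (sb false (y' t) (z t) * sb false (y' t) (z' t)) +
      sb true (y t) (z t) * sb true (y t) (z' t) *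
      (sb true (y' t) (z t) * sb true (y' t) (z' t))) := by
  unfold B
  rw [← sum_prod_bool (fun t b => sb b (y t) (z t) * sb b (y t) (z' t) *
      (sb b (y' t) (z t) * sb b (y' t) (z' t)))]
  refine Finset.sum_congr rfl fun x _ => ?_
  unfold sg
  rw [← Finset.prod_mul_distrib, ← Finset.prod_mul_distrib, ← Finset.prod_mul_distrib]

lemma B_nonneg (y y' z z' : Fin l → Bool) : 0 ≤ B y y' z z' := by
  rw [B_eq]
  refine Finset.prod_nonneg fun t _ => ?_
  cases y t <;> cases y' t <;> cases z t <;> cases z' t <;> simp [sb]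

lemma sum_B : ∑ z : Fin l → Bool, ∑ z' : Fin l → Bool, ∑ y : Fin l → Bool,
    ∑ y' : Fin l → Bool, B y y' z z' = 24 ^ l := by
  simp_rw [B_eq]
  have h1 : ∀ z z' y : Fin l → Bool, (∑ y' : Fin l → Bool,
      ∏ t, (sb false (y t) (z t) * sb false (y t) (z' t) *
      (sb false (y' t) (z t) * sb false (y' t) (z' t)) +
      sb true (y t) (z t) * sb true (y t) (z' t) *
      (sb true (y' t) (z t) * sb true (y' t) (z' t)))) =
      ∏ t, ((fun (t : Fin l) (c : Bool) => (sb false (y t) (z t) * sb false (y t) (z' t) *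
      (sb false c (z t) * sb false c (z' t)) +
      sb true (y t) (z t) * sb true (y t) (z' t) *
      (sb true c (z t) * sb true c (z' t)))) t false +
      (fun (t : Fin l) (c : Bool) => (sb false (y t) (z t) * sb false (y t) (z' t) *
      (sb false c (z t) * sb false c (z' t)) +
      sb true (y t) (z t) * sb true (y t) (z' t) *
      (sb true c (z t) * sb true c (z' t)))) t true) := by
    intro z z' y
    exact sum_prod_bool (fun (t : Fin l) (c : Bool) =>
      (sb false (y t) (z t) * sb false (y t) (z' t) *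
      (sb false c (z t) * sb false c (z' t)) +
      sb true (y t) (z t) * sb true (y t) (z' t) *
      (sb true c (z t) * sb true c (z' t))))
  simp_rw [h1]
  -- now reduce to a product of a function of the three bits
  let F3 : Bool → Bool → Bool → ℤ := fun a b c =>
    (sb false c a * sb false c b * (sb false false a * sb false false b) +
      sb true c a * sb true c b * (sb true false a * sb true false b)) +
    (sb false c a * sb false c b * (sb false true a * sb false true b) +
      sb true c a * sb true c b * (sb true true a * sb true true b))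
  have h2 : ∀ z z' : Fin l → Bool, (∑ y : Fin l → Bool, ∏ t, F3 (z t) (z' t) (y t)) =
      ∏ t, (F3 (z t) (z' t) false + F3 (z t) (z' t) true) := by
    intro z z'
    exact sum_prod_bool (fun t c => F3 (z t) (z' t) c)
  have h3 : ∀ z : Fin l → Bool, (∑ z' : Fin l → Bool,
      ∏ t, (F3 (z t) (z' t) false + F3 (z t) (z' t) true)) =
      ∏ t, ((F3 (z t) false false + F3 (z t) false true) +
        (F3 (z t) true false + F3 (z t) true true)) := by
    intro z
    exact sum_prod_bool (fun t c => F3 (z t) c false + F3 (z t) c true)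
  have h4 : (∑ z : Fin l → Bool, ∏ t, ((F3 (z t) false false + F3 (z t) false true) +
        (F3 (z t) true false + F3 (z t) true true))) =
      ∏ _t : Fin l, (((F3 false false false + F3 false false true) +
        (F3 false true false + F3 false true true)) +
        ((F3 true false false + F3 true false true) +
        (F3 true true false + F3 true true true))) :=
    sum_prod_bool (fun t c => (F3 c false false + F3 c false true) +
        (F3 c true false + F3 c true true))
  calc _ = ∑ z : Fin l → Bool, ∑ z' : Fin l → Bool, ∑ y : Fin l → Bool,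
        ∏ t, F3 (z t) (z' t) (y t) := by rfl
    _ = _ := by
      simp_rw [h2, h3]
      rw [h4, Finset.prod_const, Finset.card_univ, Fintype.card_fin]
      congr 1

/-- The weighted sum over a cylinder intersection. -/
def S (p0 p1 p2 : (Fin l → Bool) → (Fin l → Bool) → ℤ) : ℤ :=
  ∑ x : Fin l → Bool, ∑ y : Fin l → Bool,
    p2 x y * ∑ z : Fin l → Bool, sg x y z * p0 y z * p1 x z

lemma card_fun : (Fintype.card (Fin l → Bool) : ℤ) = 2 ^ l := by
  simp

lemma cs_one {α : Type*} [Fintype α] (p G : α → ℤ) (hp : ∀ a, p a ^ 2 ≤ 1) :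
    (∑ a, p a * G a) ^ 2 ≤ Fintype.card α * ∑ a, G a ^ 2 := by
  refine (Finset.sum_mul_sq_le_sq_mul_sq Finset.univ p G).trans ?_
  refine mul_le_mul_of_nonneg_right ?_ (Finset.sum_nonneg fun a _ => sq_nonneg _)
  refine (Finset.sum_le_sum fun a _ => hp a).trans ?_
  simp

lemma step3 (g h : (Fin l → Bool) → ℤ) (hg : ∀ x, g x ^ 2 ≤ 1) (hh : ∀ x, h x ^ 2 ≤ 1)
    (z z' : Fin l → Bool) :
    (∑ x, g x * ∑ y, h y * (sg x y z * sg x y z')) ^ 2 ≤
      2 ^ l * ∑ y, ∑ y', B y y' z z' := by
  refine (cs_one g _ hg).trans ?_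
  rw [card_fun]
  refine mul_le_mul_of_nonneg_left ?_ (by positivity)
  have h1 : ∀ x : Fin l → Bool, (∑ y, h y * (sg x y z * sg x y z')) ^ 2 =
      ∑ y, ∑ y', (h y * h y') * (sg x y z * sg x y z' * (sg x y' z * sg x y' z')) := by
    intro x
    rw [sq, Finset.sum_mul_sum]
    refine Finset.sum_congr rfl fun y _ => Finset.sum_congr rfl fun y' _ => ?_
    ring
  simp_rw [h1]
  rw [Finset.sum_comm]
  refine Finset.sum_le_sum fun y _ => ?_
  rw [Finset.sum_comm]
  refine Finset.sum_le_sum fun y' _ => ?_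
  rw [← Finset.mul_sum]
  have hB := B_nonneg y y' z z'
  have hle : h y * h y' ≤ 1 := by
    nlinarith [hh y, hh y', sq_nonneg (h y - h y')]
  calc h y * h y' * _ = h y * h y' * B y y' z z' := rfl
    _ ≤ 1 * B y y' z z' := mul_le_mul_of_nonneg_right hle hB
    _ = _ := one_mul _

theorem S_pow_le (p0 p1 p2 : (Fin l → Bool) → (Fin l → Bool) → ℤ)
    (h0 : ∀ x y, p0 x y ^ 2 ≤ 1) (h1 : ∀ x y, p1 x y ^ 2 ≤ 1) (h2 : ∀ x y, p2 x y ^ 2 ≤ 1) :
    (S p0 p1 p2) ^ 4 ≤ 3072 ^ l := by
  -- first Cauchy-Schwarz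
  let A : (Fin l → Bool) → (Fin l → Bool) → ℤ := fun z z' =>
    ∑ x, (p1 x z * p1 x z') * ∑ y, (p0 y z * p0 y z') * (sg x y z * sg x y z')
  have e1 : (S p0 p1 p2) ^ 2 ≤ 4 ^ l * ∑ z, ∑ z', A z z' := by
    have := cs_one (α := (Fin l → Bool) × (Fin l → Bool)) (fun a => p2 a.1 a.2)
      (fun a => ∑ z : Fin l → Bool, sg a.1 a.2 z * p0 a.2 z * p1 a.1 z)
      (fun a => h2 _ _)
    have hS : S p0 p1 p2 = ∑ a : (Fin l → Bool) × (Fin l → Bool), p2 a.1 a.2 *
        ∑ z : Fin l → Bool, sg a.1 a.2 z * p0 a.2 z * p1 a.1 z := by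
      unfold S
      rw [Fintype.sum_prod_type]
    rw [← hS] at this
    refine this.trans (le_of_eq ?_)
    have hc : (Fintype.card ((Fin l → Bool) × (Fin l → Bool)) : ℤ) = 4 ^ l := by
      rw [Fintype.card_prod]
      push_cast
      rw [card_fun, ← mul_pow]
      norm_num
    rw [hc]
    congr 1
    rw [Fintype.sum_prod_type]
    have h3 : ∀ x y : Fin l → Bool, (∑ z : Fin l → Bool, sg x y z * p0 y z * p1 x z) ^ 2 =
        ∑ z, ∑ z', (p1 x z * p1 x z') * ((p0 y z * p0 y z') * (sg x y z * sg x y z')) := by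
      intro x y
      rw [sq, Finset.sum_mul_sum]
      refine Finset.sum_congr rfl fun y _ => Finset.sum_congr rfl fun y' _ => ?_
      ring
    simp only [h3]
    calc ∑ x, ∑ y, ∑ z, ∑ z', (p1 x z * p1 x z') * ((p0 y z * p0 y z') * (sg x y z * sg x y z'))
        = ∑ x, ∑ z, ∑ y, ∑ z',
            (p1 x z * p1 x z') * ((p0 y z * p0 y z') * (sg x y z * sg x y z')) :=
          Finset.sum_congr rfl fun x _ => Finset.sum_comm
      _ = ∑ z, ∑ x, ∑ y, ∑ z',
            (p1 x z * p1 x z') * ((p0 y z * p0 y z') * (sg x y z * sg x y z')) :=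
          Finset.sum_comm
      _ = ∑ z, ∑ x, ∑ z', ∑ y,
            (p1 x z * p1 x z') * ((p0 y z * p0 y z') * (sg x y z * sg x y z')) :=
          Finset.sum_congr rfl fun z _ => Finset.sum_congr rfl fun x _ => Finset.sum_comm
      _ = ∑ z, ∑ z', ∑ x, ∑ y,
            (p1 x z * p1 x z') * ((p0 y z * p0 y z') * (sg x y z * sg x y z')) :=
          Finset.sum_congr rfl fun z _ => Finset.sum_comm
      _ = _ := by
          refine Finset.sum_congr rfl fun z _ => Finset.sum_congr rfl fun z' _ => ?_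
          refine Finset.sum_congr rfl fun x _ => ?_
          rw [Finset.mul_sum]
  have e2 : (∑ z, ∑ z', A z z') ^ 2 ≤ 4 ^ l * (2 ^ l * 24 ^ l) := by
    have := cs_one (α := (Fin l → Bool) × (Fin l → Bool)) (fun _ => 1)
      (fun a => A a.1 a.2) (fun a => by simp)
    simp only [one_mul] at this
    rw [Fintype.sum_prod_type, Fintype.sum_prod_type] at this
    refine this.trans ?_
    have hc : (Fintype.card ((Fin l → Bool) × (Fin l → Bool)) : ℤ) = 4 ^ l := by
      rw [Fintype.card_prod]
      push_cast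
      rw [card_fun, ← mul_pow]
      norm_num
    rw [hc]
    refine mul_le_mul_of_nonneg_left ?_ (by positivity)
    rw [← sum_B, Finset.mul_sum]
    refine Finset.sum_le_sum fun z _ => ?_
    rw [Finset.mul_sum]
    refine Finset.sum_le_sum fun z' _ => ?_
    refine step3 (fun x => p1 x z * p1 x z') (fun y => p0 y z * p0 y z') ?_ ?_ z z'
    · intro x
      have a := h1 x z
      have b := h1 x z'
      have : (p1 x z * p1 x z') ^ 2 = p1 x z ^ 2 * p1 x z' ^ 2 := by ring
      rw [this]
      exact mul_le_one₀ a (sq_nonneg _) b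
    · intro x
      have a := h0 x z
      have b := h0 x z'
      have : (p0 x z * p0 x z') ^ 2 = p0 x z ^ 2 * p0 x z' ^ 2 := by ring
      rw [this]
      exact mul_le_one₀ a (sq_nonneg _) b
  calc (S p0 p1 p2) ^ 4 = ((S p0 p1 p2) ^ 2) ^ 2 := by ring
    _ ≤ (4 ^ l * ∑ z, ∑ z', A z z') ^ 2 := by
        refine pow_le_pow_left₀ (sq_nonneg _) e1 2
    _ = (4 ^ l) ^ 2 * (∑ z, ∑ z', A z z') ^ 2 := by ring
    _ ≤ (4 ^ l) ^ 2 * (4 ^ l * (2 ^ l * 24 ^ l)) :=
        mul_le_mul_of_nonneg_left e2 (by positivity)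
    _ = 3072 ^ l := by
        rw [← mul_pow, ← mul_pow, ← pow_mul, mul_comm l 2, pow_mul, ← mul_pow]
        norm_num

open Classical in
/-- A cylinder intersection on which `Σ x_t y_t z_t` is always odd is small. -/
theorem cyl_card (p0 p1 p2 : (Fin l → Bool) → (Fin l → Bool) → Prop)
    (h : ∀ x y z, p0 y z → p1 x z → p2 x y → sg x y z = -1) :
    ((Finset.univ.filter (fun a : (Fin l → Bool) × (Fin l → Bool) × (Fin l → Bool) =>
      p0 a.2.1 a.2.2 ∧ p1 a.1 a.2.2 ∧ p2 a.1 a.2.1)).card : ℤ) ^ 4 ≤ 3072 ^ l := by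
  let i0 : (Fin l → Bool) → (Fin l → Bool) → ℤ := fun y z => if p0 y z then 1 else 0
  let i1 : (Fin l → Bool) → (Fin l → Bool) → ℤ := fun y z => if p1 y z then 1 else 0
  let i2 : (Fin l → Bool) → (Fin l → Bool) → ℤ := fun y z => if p2 y z then 1 else 0
  have hb : ∀ (p : (Fin l → Bool) → (Fin l → Bool) → Prop) (x y : Fin l → Bool),
      (if p x y then (1 : ℤ) else 0) ^ 2 ≤ 1 := by
    intro p x y; split_ifs <;> simp
  have hS := S_pow_le i0 i1 i2 (hb p0) (hb p1) (hb p2)
  have he : S i0 i1 i2 = -((Finset.univ.filter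
      (fun a : (Fin l → Bool) × (Fin l → Bool) × (Fin l → Bool) =>
      p0 a.2.1 a.2.2 ∧ p1 a.1 a.2.2 ∧ p2 a.1 a.2.1)).card : ℤ) := by
    rw [Finset.card_filter]
    push_cast
    rw [← Finset.sum_neg_distrib, Fintype.sum_prod_type]
    unfold S
    refine Finset.sum_congr rfl fun x _ => ?_
    rw [Fintype.sum_prod_type]
    refine Finset.sum_congr rfl fun y _ => ?_
    rw [Finset.mul_sum]
    refine Finset.sum_congr rfl fun z _ => ?_
    simp only [i0, i1, i2]
    by_cases a0 : p0 y z <;> by_cases a1 : p1 x z <;> by_cases a2 : p2 x y <;>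
      simp [a0, a1, a2]
    exact h x y z a0 a1 a2
  rw [he, Even.neg_pow (by decide)] at hS
  exact hS

lemma sum_sg : ∑ x : Fin l → Bool, ∑ y : Fin l → Bool, ∑ z : Fin l → Bool, sg x y z = 6 ^ l := by
  have h1 : ∀ x y : Fin l → Bool, ∑ z : Fin l → Bool, sg x y z =
      ∏ t, (sb (x t) (y t) false + sb (x t) (y t) true) := fun x y =>
    sum_prod_bool (fun t c => sb (x t) (y t) c)
  have h2 : ∀ x : Fin l → Bool, ∑ y : Fin l → Bool,
      ∏ t, (sb (x t) (y t) false + sb (x t) (y t) true) =
      ∏ t, ((sb (x t) false false + sb (x t) false true) +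
        (sb (x t) true false + sb (x t) true true)) := fun x =>
    sum_prod_bool (fun t c => sb (x t) c false + sb (x t) c true)
  have h3 : ∑ x : Fin l → Bool, ∏ t, ((sb (x t) false false + sb (x t) false true) +
        (sb (x t) true false + sb (x t) true true)) =
      ∏ _t : Fin l, (((sb false false false + sb false false true) +
        (sb false true false + sb false true true)) +
        ((sb true false false + sb true false true) +
        (sb true true false + sb true true true))) :=
    sum_prod_bool (fun t c => (sb c false false + sb c false true) +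
        (sb c true false + sb c true true))
  simp_rw [h1, h2]
  rw [h3, Finset.prod_const, Finset.card_univ, Fintype.card_fin]
  congr 1

open Classical in
/-- Many triples have `Σ x_t y_t z_t` odd. -/
theorem ones_card (hl : 1 ≤ l) :
    (8 : ℤ) ^ l ≤ 8 * ((Finset.univ.filter
      (fun a : (Fin l → Bool) × (Fin l → Bool) × (Fin l → Bool) =>
      sg a.1 a.2.1 a.2.2 = -1)).card : ℤ) := by
  set N := ((Finset.univ.filter
      (fun a : (Fin l → Bool) × (Fin l → Bool) × (Fin l → Bool) =>
      sg a.1 a.2.1 a.2.2 = -1)).card : ℤ) with hN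
  have h1 : (∑ a : (Fin l → Bool) × (Fin l → Bool) × (Fin l → Bool), sg a.1 a.2.1 a.2.2) =
      6 ^ l := by
    rw [← sum_sg, Fintype.sum_prod_type]
    refine Finset.sum_congr rfl fun x _ => ?_
    rw [Fintype.sum_prod_type]
  have h2 : ∀ a : (Fin l → Bool) × (Fin l → Bool) × (Fin l → Bool), sg a.1 a.2.1 a.2.2 =
      1 - 2 * (if sg a.1 a.2.1 a.2.2 = -1 then 1 else 0) := by
    intro a
    rcases sg_cases a.1 a.2.1 a.2.2 with h | h <;> simp [h]
  have h3 : (∑ a : (Fin l → Bool) × (Fin l → Bool) × (Fin l → Bool), sg a.1 a.2.1 a.2.2) =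
      8 ^ l - 2 * N := by
    rw [Finset.sum_congr rfl fun a _ => h2 a, Finset.sum_sub_distrib, ← Finset.mul_sum, hN,
      Finset.card_filter]
    push_cast
    congr 1
    simp only [Finset.sum_const, Finset.card_univ, Fintype.card_prod, Fintype.card_fun,
      Fintype.card_bool, Fintype.card_fin]
    rw [nsmul_eq_mul]
    push_cast
    rw [← mul_pow, ← mul_pow]
    norm_num
  have h4 : (6 : ℤ) ^ l * 4 ≤ 8 ^ l * 3 := by
    obtain ⟨j, rfl⟩ : ∃ j, l = j + 1 := ⟨l - 1, by omega⟩
    have : (6 : ℤ) ^ j ≤ 8 ^ j := pow_le_pow_left₀ (by norm_num) (by norm_num) _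
    rw [pow_succ, pow_succ]
    linarith
  rw [h1] at h3
  linarith

end Pool.Agent.L0h32.HA
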