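import Pool.Agent.L0h32.HA.Cert2

/-!
# Compressing a computation of a two-head automaton
-/

namespace Pool.Agent.L0h32.HA

/-- The type of the entries of a table. -/
abbrev TS (M : HeadAut 2 Sym) (D : ℕ) : Type :=
  (Fin (2 * D + 1) → Option (Cell Sym)) × M.Q × M.Q × Fin (2 * D + 1)

section Two

variable (M : HeadAut 2 Sym)

/-- The configuration graph with shortcuts for short visits of the first head. -/
def EE (c1 c2 D : ℕ) (τR τL : Set (TS M D)) (w : List Sym) (u v : M.Cfg) : Prop :=
  M.Step w u v ∨ Sc M w c2 (fun p => p ≤ c2) D τR u v ∨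
    Sc M w (c1 + 1) (fun p => c2 < p) D τL u v

/-- The configurations outside the visits of the first head. -/
def Home (c1 c2 : ℕ) (v : M.Cfg) : Prop :=
  ¬ (v.2 1 ≤ c2 ∧ c2 < v.2 0) ∧ ¬ (c2 < v.2 1 ∧ v.2 0 ≤ c1)

variable {M}

lemma ow_home_two {c1 c2 : ℕ} {v : M.Cfg} (h : Home M c1 c2 v) (h1 : v.2 1 ≤ c2) :
    ow M c1 c2 v = 2 := by
  unfold Home at h
  unfold ow owner
  rw [if_pos (by omega)]

lemma ow_home_zero {c1 c2 : ℕ} (hc : c1 < c2) {v : M.Cfg} (h : Home M c1 c2 v)
    (h1 : c2 < v.2 1) : ow M c1 c2 v = 0 := by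
  unfold Home at h
  unfold ow owner
  rw [if_neg (by omega), if_pos (by omega)]

lemma ow_change_nonhome {c1 c2 : ℕ} (hc : c1 < c2) {w : List Sym} {u v : M.Cfg}
    (hu : ¬ Home M c1 c2 u) (hv : ¬ Home M c1 c2 v) (hs : M.Step w u v)
    (ho : ow M c1 c2 u ≠ ow M c1 c2 v) : Cr (u.2 1) (v.2 1) c1 := by
  have p0 := step_pos M hs 0
  have p1 := step_pos M hs 1
  unfold Home at hu hv
  unfold Cr
  by_contra hcon
  apply ho
  unfold ow owner
  split_ifs <;> first | rfl | omega

lemma last_time (P : ℕ → Prop) (h0 : P 0) (t : ℕ) :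
    ∃ e ≤ t, P e ∧ ∀ s, e < s → s ≤ t → ¬ P s := by
  induction t with
  | zero => exact ⟨0, le_rfl, h0, fun s h1 h2 => by omega⟩
  | succ t ih =>
    by_cases h : P (t + 1)
    · exact ⟨t + 1, le_rfl, h, fun s h1 h2 => by omega⟩
    · obtain ⟨e, h1, h2, h3⟩ := ih
      refine ⟨e, by omega, h2, fun s h4 h5 => ?_⟩
      rcases Nat.lt_or_ge t s with h6 | h6
      · have : s = t + 1 := by omega
        rw [this]; exact h
      · exact h3 s h4 h6

variable {w : List Sym} {T : ℕ} {c : ℕ → M.Cfg} {c1 c2 D : ℕ} {E : M.Cfg → M.Cfg → Prop}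
  {lf : Fin 3}

lemma nonhome_cost (hc12 : c1 < c2) (hs : ∀ t < T, M.Step w (c t) (c (t + 1)))
    (hE : ∀ u v, M.Step w u v → E u v) {b e s : ℕ}
    (hI : Inv (ow M c1 c2) E (Fa M) M.init lf b (c e)) (hes : e ≤ s) (hsT : s ≤ T)
    (hn : ∀ u, e < u → u ≤ s → ¬ Home M c1 c2 (c u)) :
    ∃ b', Inv (ow M c1 c2) E (Fa M) M.init lf b' (c s) ∧
      b' + crN (fun t => (c t).2 1) c1 e ≤ b + 1 + crN (fun t => (c t).2 1) c1 s := by
  induction s, hes using Nat.le_induction with
  | base => exact ⟨b, hI, by omega⟩
  | succ s hes ih =>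
    rcases Nat.eq_or_lt_of_le hes with h | h
    · subst h
      refine ⟨b + 1, hI.any (hE _ _ (hs _ (by omega))), ?_⟩
      have := crN_mono (fun t => (c t).2 1) c1 (Nat.le_succ e)
      simp only [Nat.succ_eq_add_one] at this
      omega
    · obtain ⟨b', h1, h2⟩ := ih (by omega) (fun u h3 h4 => hn u h3 (by omega))
      by_cases ho : ow M c1 c2 (c s) = ow M c1 c2 (c (s + 1))
      · refine ⟨b', h1.same (hE _ _ (hs _ (by omega))) ho, ?_⟩
        have := crN_mono (fun t => (c t).2 1) c1 (Nat.le_succ s)
        simp only [Nat.succ_eq_add_one] at this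
        omega
      · refine ⟨b' + 1, h1.diff (hE _ _ (hs _ (by omega))) ho, ?_⟩
        have h3 := ow_change_nonhome hc12 (hn s h (by omega)) (hn (s + 1) (by omega) le_rfl)
          (hs s (by omega)) ho
        rw [crN_succ, if_pos h3]
        omega

/-- **Compression**: at home times. -/
theorem compress_home (hc12 : c1 < c2) (h0 : c 0 = M.init)
    (hs : ∀ t < T, M.Step w (c t) (c (t + 1)))
    (hE : E = EE M c1 c2 D (table M w (fun p => c2 < p) c2 D)
      (table M w (fun p => p ≤ c1) (c1 + 1) D) w) :
    ∀ t ≤ T, Home M c1 c2 (c t) →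
      ∃ b, Inv (ow M c1 c2) E (Fa M) M.init lf b (c t) ∧
      (D + 1) * b ≤ 2 * mv (fun t => (c t).2 1) t + 3 * (D + 1) *
        (crN (fun t => (c t).2 1) c1 t + crN (fun t => (c t).2 1) c2 t) := by
  have hEs : ∀ u v, M.Step w u v → E u v := by
    intro u v h
    rw [hE]
    exact Or.inl h
  have hp0 : ∀ t < T, (c (t + 1)).2 0 ≤ (c t).2 0 + 1 ∧ (c t).2 0 ≤ (c (t + 1)).2 0 + 1 :=
    fun t ht => ⟨(step_pos M (hs t ht) 0).1, (step_pos M (hs t ht) 0).2.1⟩
  have hp1 : ∀ t < T, (c (t + 1)).2 1 ≤ (c t).2 1 + 1 ∧ (c t).2 1 ≤ (c (t + 1)).2 1 + 1 :=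
    fun t ht => ⟨(step_pos M (hs t ht) 1).1, (step_pos M (hs t ht) 1).2.1⟩
  have hlen : ∀ t ≤ T, (c t).2 1 ≤ w.length + 1 := by
    intro t ht
    cases t with
    | zero => rw [h0]; simp [HeadAut.init]
    | succ t => exact (step_pos M (hs t (by omega)) 1).2.2
  intro t
  induction t using Nat.strong_induction_on with
  | _ t ih =>
  intro htT hhome
  rcases Nat.eq_zero_or_pos t with rfl | htpos
  · refine ⟨0, ?_, by omega⟩
    rw [h0]
    exact Inv.zero
  have hhome0 : Home M c1 c2 (c 0) := by
    rw [h0]
    unfold Home HeadAut.init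
    exact ⟨fun h => by simp at h, fun h => by simp at h⟩
  obtain ⟨e, he1, he2, he3⟩ := last_time (fun t => Home M c1 c2 (c t)) hhome0 (t - 1)
  obtain ⟨b, hb1, hb2⟩ := ih e (by omega) (by omega) he2
  set h := fun t => (c t).2 1 with hh
  have m1 := mv_mono h (show e ≤ t by omega)
  have m2 := crN_mono h c1 (show e ≤ t by omega)
  have m3 := crN_mono h c2 (show e ≤ t by omega)
  have m4 := crN_mono h c1 (show t - 1 ≤ t by omega)
  have m5 := crN_mono h c1 (show e ≤ t - 1 by omega)
  obtain ⟨b', hb'1, hb'2⟩ := nonhome_cost hc12 hs hEs hb1 he1 (by omega) he3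
  replace hb'2 : b' + crN h c1 e ≤ b + 1 + crN h c1 (t - 1) := hb'2
  have hlast := hb'1.any (hEs _ _ (hs (t - 1) (by omega)))
  rw [show t - 1 + 1 = t by omega] at hlast
  rcases Nat.lt_or_ge (crN h c1 e + crN h c2 e) (crN h c1 t + crN h c2 t) with hX | hX
  · -- crossings
    refine ⟨b' + 1, hlast, ?_⟩
    have e1 : b' + 1 ≤ b + 3 * ((crN h c1 t + crN h c2 t) - (crN h c1 e + crN h c2 e)) := by
      omega
    calc (D + 1) * (b' + 1)
        ≤ (D + 1) * (b + 3 * ((crN h c1 t + crN h c2 t) - (crN h c1 e + crN h c2 e))) :=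
          Nat.mul_le_mul_left _ e1
      _ = (D + 1) * b + 3 * (D + 1) *
          ((crN h c1 t + crN h c2 t) - (crN h c1 e + crN h c2 e)) := by ring
      _ ≤ 2 * mv h e + 3 * (D + 1) * (crN h c1 e + crN h c2 e) + 3 * (D + 1) *
          ((crN h c1 t + crN h c2 t) - (crN h c1 e + crN h c2 e)) :=
          Nat.add_le_add_right hb2 _
      _ = 2 * mv h e + 3 * (D + 1) * ((crN h c1 e + crN h c2 e) +
          ((crN h c1 t + crN h c2 t) - (crN h c1 e + crN h c2 e))) := by ring
      _ = 2 * mv h e + 3 * (D + 1) * (crN h c1 t + crN h c2 t) := by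
          rw [Nat.add_sub_cancel' hX.le]
      _ ≤ _ := by omega
  · -- no crossings of the second head
    have n1 := no_cross h c1 (show e ≤ t by omega) (by omega)
    have n2 := no_cross h c2 (show e ≤ t by omega) (by omega)
    have hXe : crN h c1 t + crN h c2 t = crN h c1 e + crN h c2 e := by omega
    rcases Nat.eq_or_lt_of_le (show e + 1 ≤ t by omega) with hte | hte
    · -- a single step
      refine ⟨b, ?_, by rw [hXe]; omega⟩
      have hstep := hs e (by omega)
      rw [hte] at hstep
      refine hb1.same (hEs _ _ hstep) ?_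
      have n3 := n2 t (by omega) le_rfl
      simp only [hh] at n3
      rcases Nat.lt_or_ge c2 ((c e).2 1) with h4 | h4
      · rw [ow_home_zero hc12 he2 h4, ow_home_zero hc12 hhome (by omega)]
      · rw [ow_home_two he2 h4, ow_home_two hhome (by omega)]
    · by_cases hshort : ∀ u, e ≤ u → u ≤ t → (c e).2 1 ≤ (c u).2 1 + D ∧
          (c u).2 1 ≤ (c e).2 1 + D
      · -- a short visit
        refine ⟨b, ?_, by rw [hXe]; omega⟩
        have hst : ∀ u, e ≤ u → u < t → M.Step w (c u) (c (u + 1)) :=
          fun u _ h2 => hs u (by omega)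
        have hle : ∀ u, e ≤ u → u ≤ t → (c u).2 1 ≤ w.length + 1 :=
          fun u _ h2 => hlen u (by omega)
        have q1 := he3 (e + 1) (by omega) (by omega)
        have q2 := he3 (t - 1) (by omega) (by omega)
        have s1 := hp0 e (by omega)
        have s2 := hp0 (t - 1) (by omega)
        rw [show t - 1 + 1 = t by omega] at s2
        have n3 := n2 t (by omega) le_rfl
        have n4 := n2 (e + 1) (by omega) (by omega)
        have n5 := n2 (t - 1) (by omega) (by omega)
        simp only [hh] at n3 n4 n5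
        rcases Nat.lt_or_ge c2 ((c e).2 1) with h4 | h4
        · -- second head on the right
          have ha : (c e).2 0 = c1 + 1 := by
            have he2' := he2
            unfold Home at he2' q1
            omega
          have ha' : (c t).2 0 = c1 + 1 := by
            have he2' := hhome
            unfold Home at he2' q2
            omega
          have hsc : Sc M w (c1 + 1) (fun p => c2 < p) D
              (table M w (fun p => p ≤ c1) (c1 + 1) D) (c e) (c t) := by
            refine Sc.complete hte hst hle (fun u h5 h6 => (hshort u h5 h6).1)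
              (fun u h5 h6 => (hshort u h5 h6).2) ?_ ?_ ha ha'
            · intro u h5 h6
              have := n2 u h5 h6
              simp only [hh] at this
              omega
            · intro u h5 h6
              have h7 := he3 u h5 (by omega)
              have h8 := n2 u (by omega) (by omega)
              simp only [hh] at h8
              unfold Home at h7
              omega
          refine hb1.same (v := c t) ?_ ?_
          · rw [hE]; exact Or.inr (Or.inr hsc)
          · rw [ow_home_zero hc12 he2 h4, ow_home_zero hc12 hhome (by omega)]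
        · -- second head on the left or in the middle
          have ha : (c e).2 0 = c2 := by
            have he2' := he2
            unfold Home at he2' q1
            omega
          have ha' : (c t).2 0 = c2 := by
            have he2' := hhome
            unfold Home at he2' q2
            omega
          have hsc : Sc M w c2 (fun p => p ≤ c2) D
              (table M w (fun p => c2 < p) c2 D) (c e) (c t) := by
            refine Sc.complete hte hst hle (fun u h5 h6 => (hshort u h5 h6).1)
              (fun u h5 h6 => (hshort u h5 h6).2) ?_ ?_ ha ha'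
            · intro u h5 h6
              have := n2 u h5 h6
              simp only [hh] at this
              omega
            · intro u h5 h6
              have h7 := he3 u h5 (by omega)
              have h8 := n2 u (by omega) (by omega)
              simp only [hh] at h8
              unfold Home at h7
              omega
          refine hb1.same (v := c t) ?_ ?_
          · rw [hE]; exact Or.inr (Or.inl hsc)
          · rw [ow_home_two he2 h4, ow_home_two hhome (by omega)]
      · -- a long visit
        push Not at hshort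
        obtain ⟨u, hu1, hu2, hu3⟩ := hshort
        have d1 := mv_disp h hu1 (fun v _ h6 => hp1 v (by omega))
        rw [show h e = (c e).2 1 from rfl, show h u = (c u).2 1 from rfl] at d1
        have d2 := mv_mono h hu2
        have d3 : mv h e + (D + 1) ≤ mv h t := by
          by_cases h5 : (c e).2 1 ≤ (c u).2 1 + D
          · have := hu3 h5
            omega
          · omega
        refine ⟨b' + 1, hlast, ?_⟩
        have e1 : b' + 1 ≤ b + 2 := by omega
        rw [hXe]
        calc (D + 1) * (b' + 1) ≤ (D + 1) * (b + 2) := Nat.mul_le_mul_left _ e1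
          _ = (D + 1) * b + 2 * (D + 1) := by ring
          _ ≤ 2 * mv h e + 3 * (D + 1) * (crN h c1 e + crN h c2 e) + 2 * (D + 1) :=
              Nat.add_le_add_right hb2 _
          _ ≤ _ := by omega

/-- **Compression.** -/
theorem compress (hc12 : c1 < c2) (hc : M.IsAccRun w T c) :
    ∃ b, Inv (ow M c1 c2) (EE M c1 c2 D (table M w (fun p => c2 < p) c2 D)
      (table M w (fun p => p ≤ c1) (c1 + 1) D) w) (Fa M) M.init lf b (c T) ∧
      (D + 1) * b ≤ 2 * mv (fun t => (c t).2 1) T + 3 * (D + 1) *
        (crN (fun t => (c t).2 1) c1 T + crN (fun t => (c t).2 1) c2 T) + (D + 1) := by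
  obtain ⟨h0, hs, hF⟩ := hc
  have hhome0 : Home M c1 c2 (c 0) := by
    rw [h0]
    unfold Home HeadAut.init
    exact ⟨fun h => by simp at h, fun h => by simp at h⟩
  obtain ⟨e, he1, he2, he3⟩ := last_time (fun t => Home M c1 c2 (c t)) hhome0 T
  obtain ⟨b, hb1, hb2⟩ := compress_home (lf := lf) hc12 h0 hs rfl e he1 he2
  obtain ⟨b', hb'1, hb'2⟩ := nonhome_cost hc12 hs (fun u v h => Or.inl h) hb1 he1 le_rfl he3
  refine ⟨b', hb'1, ?_⟩
  set h := fun t => (c t).2 1 with hh
  replace hb'2 : b' + crN h c1 e ≤ b + 1 + crN h c1 T := hb'2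
  have m1 := mv_mono h he1
  have m2 := crN_mono h c1 he1
  have m3 := crN_mono h c2 he1
  have e1 : b' ≤ b + 1 + (crN h c1 T - crN h c1 e) := by omega
  calc (D + 1) * b' ≤ (D + 1) * (b + 1 + (crN h c1 T - crN h c1 e)) := Nat.mul_le_mul_left _ e1
    _ = (D + 1) * b + (D + 1) * (crN h c1 T - crN h c1 e) + (D + 1) := by ring
    _ ≤ 2 * mv h e + 3 * (D + 1) * (crN h c1 e + crN h c2 e) +
        3 * (D + 1) * (crN h c1 T - crN h c1 e) + (D + 1) := by
        have : (D + 1) * (crN h c1 T - crN h c1 e) ≤
            3 * (D + 1) * (crN h c1 T - crN h c1 e) := Nat.mul_le_mul_right _ (by omega)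
        omega
    _ = 2 * mv h e + 3 * (D + 1) * ((crN h c1 e + (crN h c1 T - crN h c1 e)) + crN h c2 e) +
        (D + 1) := by ring
    _ = 2 * mv h e + 3 * (D + 1) * (crN h c1 T + crN h c2 e) + (D + 1) := by
        rw [Nat.add_sub_cancel' m2]
    _ ≤ _ := by
        have : 3 * (D + 1) * (crN h c1 T + crN h c2 e) ≤
            3 * (D + 1) * (crN h c1 T + crN h c2 T) := Nat.mul_le_mul_left _ (by omega)
        omega

end Two

end Pool.Agent.L0h32.HA
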