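import Pool.Agent.L0h32.HA.Lazy

/-!
# Both heads of a two-head automaton have to work
-/

namespace Pool.Agent.L0h32.HA

/-! ### A finite type of cells -/

/-- Cells as optional optional letters. -/
def cellEquiv (A : Type) : Cell A ≃ Option (Option A) where
  toFun
    | Cell.left => none
    | Cell.right => some none
    | Cell.sym a => some (some a)
  invFun
    | none => Cell.left
    | some none => Cell.right
    | some (some a) => Cell.sym a
  left_inv := by rintro (_ | _ | _) <;> rfl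
  right_inv := by rintro (_ | _ | _) <;> rfl

instance {A : Type} [Fintype A] : Fintype (Cell A) := Fintype.ofEquiv _ (cellEquiv A).symm

lemma card_cell : Fintype.card (Option (Cell Sym)) = 11 := by
  rw [Fintype.card_option, Fintype.card_congr (cellEquiv Sym), Fintype.card_option,
    Fintype.card_option]
  rfl

lemma card_TS (M : HeadAut 2 Sym) (D : ℕ) : Fintype.card (TS M D) =
    11 ^ (2 * D + 1) * (Fintype.card M.Q * (Fintype.card M.Q * (2 * D + 1))) := by
  simp only [TS, Fintype.card_prod, Fintype.card_pi, card_cell, Finset.prod_const,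
    Finset.card_univ, Fintype.card_fin]

lemma card_TS_le (M : HeadAut 2 Sym) (D lam : ℕ) (hs : Fintype.card M.Q ≤ 2 ^ lam) :
    128 * Fintype.card (TS M D) ≤ 2 ^ (8 * D + 12 + 2 * lam) := by
  rw [card_TS]
  have h1 : 11 ^ (2 * D + 1) ≤ 2 ^ (4 + 7 * D) := by
    rw [pow_succ, pow_mul, pow_add, pow_mul, mul_comm]
    refine Nat.mul_le_mul (by norm_num) (Nat.pow_le_pow_left (by norm_num) _)
  have h2 : 2 * D + 1 ≤ 2 ^ (D + 1) := by
    induction D with
    | zero => norm_num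
    | succ D ih =>
      have h3 : 11 ^ (2 * D + 1) ≤ 2 ^ (4 + 7 * D) := by
        rw [pow_succ, pow_mul, pow_add, pow_mul, mul_comm]
        refine Nat.mul_le_mul (by norm_num) (Nat.pow_le_pow_left (by norm_num) _)
      have h4 := ih h3
      have h5 : 1 ≤ 2 ^ D := Nat.one_le_two_pow
      rw [pow_succ]
      have h6 : 2 ≤ 2 ^ (D + 1) := by rw [pow_succ]; omega
      omega
  calc 128 * (11 ^ (2 * D + 1) * (Fintype.card M.Q * (Fintype.card M.Q * (2 * D + 1))))
      ≤ 2 ^ 7 * (2 ^ (4 + 7 * D) * (2 ^ lam * (2 ^ lam * 2 ^ (D + 1)))) :=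
        Nat.mul_le_mul (by norm_num) (Nat.mul_le_mul h1 (Nat.mul_le_mul hs
          (Nat.mul_le_mul hs h2)))
    _ = 2 ^ (8 * D + 12 + 2 * lam) := by
        rw [← pow_add, ← pow_add, ← pow_add, ← pow_add]
        congr 1
        ring

/-- The numerical inequality. -/
lemma numeric2 (l s R lam N NT : ℕ) (hl : 2048 ≤ l) (hs : s ≤ 2 ^ lam)
    (hlam : 1 ≤ lam) (hR : 600 * lam * R ≤ l) (hN : N ≤ 168 * s * l) (hNT : 128 * NT ≤ l) :
    (5308416 : ℝ) * ((l : ℝ) + 1) ^ 8 * ((2 : ℝ) ^ (2 * NT)) ^ 4 *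
      (((2 : ℝ) ^ (lam + 14)) ^ R * (1 + 1 / (2 : ℝ) ^ (lam + 14)) ^ N) ^ 4 < (4 / 3 : ℝ) ^ l := by
  have hl' : (2048 : ℝ) ≤ l := by exact_mod_cast hl
  have hlpos : (0 : ℝ) < l := by linarith
  -- the certificate count
  have h1 : ((2 : ℝ) ^ (lam + 14)) ^ R ≤ Real.exp (15 * lam * R * Real.log 2) := by
    rw [← pow_mul, ← Real.rpow_natCast, Real.rpow_def_of_pos (by norm_num)]
    apply Real.exp_le_exp.2
    rw [mul_comm]
    refine mul_le_mul_of_nonneg_right ?_ (Real.log_nonneg (by norm_num))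
    push_cast
    have : ((lam : ℝ) + 14) ≤ 15 * lam := by
      have : (1 : ℝ) ≤ lam := by exact_mod_cast hlam
      linarith
    exact mul_le_mul_of_nonneg_right this (by positivity)
  have h2 : (1 + 1 / (2 : ℝ) ^ (lam + 14)) ^ N ≤ Real.exp (168 * l / 16384) := by
    have hle : 1 + 1 / (2 : ℝ) ^ (lam + 14) ≤ Real.exp (1 / (2 : ℝ) ^ (lam + 14)) := by
      have := Real.add_one_le_exp (1 / (2 : ℝ) ^ (lam + 14))
      linarith
    refine (pow_le_pow_left₀ (by positivity) hle N).trans ?_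
    rw [← Real.exp_nat_mul]
    apply Real.exp_le_exp.2
    have hN' : (N : ℝ) ≤ 168 * s * l := by exact_mod_cast hN
    have hs' : (s : ℝ) ≤ 2 ^ lam := by exact_mod_cast hs
    have hpos : (0 : ℝ) < 2 ^ lam := by positivity
    rw [pow_add, mul_one_div]
    rw [div_le_div_iff₀ (by positivity) (by norm_num)]
    have : (2 : ℝ) ^ 14 = 16384 := by norm_num
    rw [this]
    have h3 : (N : ℝ) ≤ 168 * l * 2 ^ lam := by
      refine hN'.trans ?_
      have : (168 : ℝ) * s * l = 168 * l * s := by ring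
      rw [this]
      exact mul_le_mul_of_nonneg_left hs' (by positivity)
    nlinarith
  have hlog2 : Real.log 2 < 0.6931471808 := Real.log_two_lt_d9
  have hlog0 : 0 < Real.log 2 := Real.log_pos (by norm_num)
  have h3 : (((2 : ℝ) ^ (lam + 14)) ^ R * (1 + 1 / (2 : ℝ) ^ (lam + 14)) ^ N) ^ 4 ≤
      Real.exp (l / 8) := by
    have h4 : ((2 : ℝ) ^ (lam + 14)) ^ R * (1 + 1 / (2 : ℝ) ^ (lam + 14)) ^ N ≤
        Real.exp (15 * lam * R * Real.log 2 + 168 * l / 16384) := by
      rw [Real.exp_add]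
      exact mul_le_mul h1 h2 (by positivity) (Real.exp_pos _).le
    refine (pow_le_pow_left₀ (by positivity) h4 4).trans ?_
    rw [← Real.exp_nat_mul]
    apply Real.exp_le_exp.2
    push_cast
    have hR' : (600 : ℝ) * lam * R ≤ l := by exact_mod_cast hR
    have hlr : (0 : ℝ) ≤ lam * R := by positivity
    have h5 : 60 * ((lam : ℝ) * R) * Real.log 2 ≤ 60 * ((lam : ℝ) * R) * 0.6931471808 :=
      mul_le_mul_of_nonneg_left hlog2.le (by positivity)
    nlinarith
  have h3' : ((2 : ℝ) ^ (2 * NT)) ^ 4 ≤ Real.exp (l / 16) := by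
    rw [← pow_mul, ← Real.rpow_natCast, Real.rpow_def_of_pos (by norm_num)]
    apply Real.exp_le_exp.2
    push_cast
    have hNT' : (128 : ℝ) * NT ≤ l := by exact_mod_cast hNT
    have : Real.log 2 * (2 * (NT : ℝ) * 4) ≤ 1 * (2 * (NT : ℝ) * 4) :=
      mul_le_mul_of_nonneg_right (by linarith) (by positivity)
    linarith
  have h4 : Real.exp (l / 4) ≤ (4 / 3 : ℝ) ^ l := by
    rw [← Real.rpow_natCast, Real.rpow_def_of_pos (by norm_num)]
    apply Real.exp_le_exp.2
    have : 1 - (4 / 3 : ℝ)⁻¹ ≤ Real.log (4 / 3) := Real.one_sub_inv_le_log_of_pos (by norm_num)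
    have h' : (1 / 4 : ℝ) ≤ Real.log (4 / 3) := by
      refine le_trans ?_ this
      norm_num
    nlinarith
  have h5 : (5308416 : ℝ) * ((l : ℝ) + 1) ^ 8 < Real.exp (l / 16) := by
    have e1 : Real.exp (l / 16) = (Real.exp (l / 128)) ^ 8 := by
      rw [← Real.exp_nat_mul]; congr 1; push_cast; ring
    have e2 : Real.exp (l / 128) = (Real.exp (l / 1024)) ^ 8 := by
      rw [← Real.exp_nat_mul]; congr 1; push_cast; ring
    have e3 : 1 + (l : ℝ) / 1024 ≤ Real.exp (l / 1024) := by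
      have := Real.add_one_le_exp ((l : ℝ) / 1024)
      linarith
    have e4 : (3 : ℝ) ≤ 1 + (l : ℝ) / 1024 := by
      have : (2 : ℝ) ≤ l / 1024 := by rw [le_div_iff₀ (by norm_num)]; linarith
      linarith
    -- use exp (l/1024) ≥ (1 + l/2048)^2 to have more room
    have e3' : (1 + (l : ℝ) / 4096) ^ 4 ≤ Real.exp (l / 1024) := by
      have h6 : 1 + (l : ℝ) / 4096 ≤ Real.exp (l / 4096) := by
        have := Real.add_one_le_exp ((l : ℝ) / 4096)
        linarith
      have h7 : Real.exp (l / 1024) = (Real.exp (l / 4096)) ^ 4 := by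
        rw [← Real.exp_nat_mul]; congr 1; push_cast; ring
      rw [h7]
      exact pow_le_pow_left₀ (by positivity) h6 4
    have e4' : (3 / 2 : ℝ) ≤ 1 + (l : ℝ) / 4096 := by
      have : (1 / 2 : ℝ) ≤ l / 4096 := by rw [le_div_iff₀ (by norm_num)]; linarith
      linarith
    have e5 : 7 * ((l : ℝ) + 1) ≤ Real.exp (l / 128) := by
      rw [e2]
      have h8 : ((1 + (l : ℝ) / 4096) ^ 4) ^ 8 ≤ (Real.exp (l / 1024)) ^ 8 :=
        pow_le_pow_left₀ (by positivity) e3' 8
      refine le_trans ?_ h8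
      rw [← pow_mul]
      have h6 : (3 / 2 : ℝ) ^ 31 * (1 + (l : ℝ) / 4096) ≤ (1 + (l : ℝ) / 4096) ^ (4 * 8) := by
        rw [show 4 * 8 = 31 + 1 by norm_num, pow_succ (1 + (l : ℝ) / 4096) 31]
        exact mul_le_mul_of_nonneg_right (pow_le_pow_left₀ (by norm_num) e4' 31) (by positivity)
      refine le_trans ?_ h6
      have h7 : (28686 : ℝ) ≤ (3 / 2 : ℝ) ^ 31 := by norm_num
      have h9 : (28686 : ℝ) * (1 + (l : ℝ) / 4096) ≤ (3 / 2 : ℝ) ^ 31 * (1 + (l : ℝ) / 4096) :=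
        mul_le_mul_of_nonneg_right h7 (by positivity)
      refine le_trans ?_ h9
      linarith
    rw [e1]
    calc (5308416 : ℝ) * ((l : ℝ) + 1) ^ 8 < 7 ^ 8 * ((l : ℝ) + 1) ^ 8 := by
          refine mul_lt_mul_of_pos_right (by norm_num) (by positivity)
      _ = (7 * ((l : ℝ) + 1)) ^ 8 := by rw [mul_pow]
      _ ≤ _ := pow_le_pow_left₀ (by positivity) e5 8
  calc (5308416 : ℝ) * ((l : ℝ) + 1) ^ 8 * ((2 : ℝ) ^ (2 * NT)) ^ 4 *
      (((2 : ℝ) ^ (lam + 14)) ^ R * (1 + 1 / (2 : ℝ) ^ (lam + 14)) ^ N) ^ 4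
      ≤ (5308416 : ℝ) * ((l : ℝ) + 1) ^ 8 * Real.exp (l / 16) * Real.exp (l / 8) :=
        mul_le_mul (mul_le_mul_of_nonneg_left h3' (by positivity)) h3 (by positivity)
          (by positivity)
    _ < Real.exp (l / 16) * Real.exp (l / 16) * Real.exp (l / 8) := by
        refine mul_lt_mul_of_pos_right (mul_lt_mul_of_pos_right h5 (Real.exp_pos _))
          (Real.exp_pos _)
    _ = Real.exp (l / 4) := by
        rw [← Real.exp_add, ← Real.exp_add]
        congr 1
        ring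
    _ ≤ _ := h4

/-! ### Independence of the graphs with shortcuts -/

section Two

variable {l : ℕ} {M : HeadAut 2 Sym} {c1 c2 D : ℕ} {τR τL : Set (TS M D)}

lemma ow_scR {u : M.Cfg} (h1 : u.2 0 = c2) (h2 : u.2 1 ≤ c2) : ow M c1 c2 u = 2 := by
  unfold ow owner
  rw [if_pos (by omega)]

lemma ow_scL (hc : c1 < c2) {u : M.Cfg} (h1 : u.2 0 = c1 + 1) (h2 : c2 < u.2 1) :
    ow M c1 c2 u = 0 := by
  unfold ow owner
  rw [if_neg (by omega), if_pos (by omega)]

lemma eindep0 (_hl : 1 ≤ l) (h1 : l ≤ c1) (h2 : 3 * l ≤ c2)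
    (x x' y z : Fin l → Bool) (u v : M.Cfg)
    (h : ow M c1 c2 u = 0) (hs : EE M c1 c2 D τR τL (W x y z) u v) :
    EE M c1 c2 D τR τL (W x' y z) u v := by
  rcases hs with hs | hs | hs
  · exact Or.inl (indep0 M h1 x x' y z u v h hs)
  · exfalso
    rw [ow_scR hs.1 hs.2.2.1] at h
    exact absurd h (by decide)
  · refine Or.inr (Or.inr (hs.congr_w (by rw [W_length, W_length]) ?_))
    intro p hp
    exact cell_indep_x _ _ _ _ (by omega)

lemma eindep1 (h1 : c1 ≤ 2 * l) (h2 : 3 * l ≤ c2) (hc : c1 < c2)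
    (x y y' z : Fin l → Bool) (u v : M.Cfg)
    (h : ow M c1 c2 u = 1) (hs : EE M c1 c2 D τR τL (W x y z) u v) :
    EE M c1 c2 D τR τL (W x y' z) u v := by
  rcases hs with hs | hs | hs
  · exact Or.inl (indep1 M h1 h2 x y y' z u v h hs)
  · exfalso
    rw [ow_scR hs.1 hs.2.2.1] at h
    exact absurd h (by decide)
  · exfalso
    rw [ow_scL hc hs.1 hs.2.2.1] at h
    exact absurd h (by decide)

lemma eindep2 (h2 : c2 ≤ 4 * l) (hc : c1 < c2) (x y z z' : Fin l → Bool) (u v : M.Cfg)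
    (h : ow M c1 c2 u = 2) (hs : EE M c1 c2 D τR τL (W x y z) u v) :
    EE M c1 c2 D τR τL (W x y z') u v := by
  rcases hs with hs | hs | hs
  · exact Or.inl (indep2 M h2 x y z z' u v h hs)
  · refine Or.inr (Or.inl (hs.congr_w (by rw [W_length, W_length]) ?_))
    intro p hp
    exact cell_indep_z _ _ _ _ (by omega)
  · exfalso
    rw [ow_scL hc hs.1 hs.2.2.1] at h
    exact absurd h (by decide)

lemma EE.sound {w : List Sym} {u v : M.Cfg}
    (h : EE M c1 c2 D (table M w (fun p => c2 < p) c2 D)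
      (table M w (fun p => p ≤ c1) (c1 + 1) D) w u v) :
    Relation.ReflTransGen (M.Step w) u v := by
  rcases h with h | h | h
  · exact Relation.ReflTransGen.single h
  · exact h.sound
  · exact h.sound

lemma emem_Un (hc : c1 < c2) {x y z : Fin l → Bool} {u v : M.Cfg} {i : Fin 3}
    (hs : EE M c1 c2 D τR τL (W x y z) u v) (ho : ow M c1 c2 u ≠ ow M c1 c2 v) :
    (v, i) ∈ Un M l c1 c2 := by
  rcases hs with hs | hs | hs
  · exact mem_Un M hs ho
  · exfalso
    obtain ⟨h1, h2, h3, h4, _⟩ := hs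
    exact ho (by rw [ow_scR h1 h3, ow_scR h2 h4])
  · exfalso
    obtain ⟨h1, h2, h3, h4, _⟩ := hs
    exact ho (by rw [ow_scL hc h1 h3, ow_scL hc h2 h4])

/-- The bound for the size of a cylinder intersection. -/
def nB (l : ℕ) : ℕ := Nat.findGreatest (fun m => m ^ 4 ≤ 3072 ^ l) (3072 ^ l)

/-- The bound for the number of certificates. -/
noncomputable def KB (M : HeadAut 2 Sym) (l R lam : ℕ) : ℝ :=
  ((2 : ℝ) ^ (lam + 14)) ^ R * (1 + 1 / (2 : ℝ) ^ (lam + 14)) ^ (168 * Fintype.card M.Q * l)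

/-- The triples whose words have accepting computations with few moves of the second head. -/
def Cheap (M : HeadAut 2 Sym) (l D R : ℕ)
    (a : (Fin l → Bool) × (Fin l → Bool) × (Fin l → Bool)) : Prop :=
  ∃ T c, M.IsAccRun (W a.1 a.2.1 a.2.2) T c ∧
    8 * mv (fun t => (c t).2 1) T + (D + 1) ≤ (D + 1) * R

/-- Some pair of lines is crossed rarely by the second head. -/
lemma exists_lines2 {w : List Sym} {T : ℕ} {c : ℕ → M.Cfg} (l D R : ℕ) (hD : D ≤ l)
    (hc : M.IsAccRun w T c)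
    (hb : 8 * mv (fun t => (c t).2 1) T + (D + 1) ≤ (D + 1) * R) :
    ∃ c1 ∈ Finset.Icc l (2 * l), ∃ c2 ∈ Finset.Icc (3 * l) (4 * l),
      2 * mv (fun t => (c t).2 1) T + 3 * (D + 1) *
        (crN (fun t => (c t).2 1) c1 T + crN (fun t => (c t).2 1) c2 T) + (D + 1) ≤
        (D + 1) * R := by
  obtain ⟨h0, h1, h2⟩ := hc
  have hstep : ∀ t < T, (fun t => (c t).2 1) (t + 1) ≤ (fun t => (c t).2 1) t + 1 ∧
      (fun t => (c t).2 1) t ≤ (fun t => (c t).2 1) (t + 1) + 1 := by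
    intro t ht
    have := step_pos M (h1 t ht) 1
    exact ⟨this.1, this.2.1⟩
  obtain ⟨c1, hc1, e1⟩ := exists_good_line (Finset.Icc l (2 * l)) ⟨l, by simp; omega⟩
    (fun a => crN (fun t => (c t).2 1) a T) _ (sum_crN_le_mv _ _ T hstep)
  obtain ⟨c2, hc2, e2⟩ := exists_good_line (Finset.Icc (3 * l) (4 * l)) ⟨3 * l, by simp; omega⟩
    (fun a => crN (fun t => (c t).2 1) a T) _ (sum_crN_le_mv _ _ T hstep)
  refine ⟨c1, hc1, c2, hc2, ?_⟩
  simp only [Nat.card_Icc] at e1 e2
  rw [show 2 * l + 1 - l = l + 1 by omega] at e1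
  rw [show 4 * l + 1 - 3 * l = l + 1 by omega] at e2
  have e1' : (D + 1) * crN (fun t => (c t).2 1) c1 T ≤ mv (fun t => (c t).2 1) T :=
    (Nat.mul_le_mul_right _ (by omega)).trans e1
  have e2' : (D + 1) * crN (fun t => (c t).2 1) c2 T ≤ mv (fun t => (c t).2 1) T :=
    (Nat.mul_le_mul_right _ (by omega)).trans e2
  have e3 : 3 * (D + 1) * (crN (fun t => (c t).2 1) c1 T + crN (fun t => (c t).2 1) c2 T) =
      3 * ((D + 1) * crN (fun t => (c t).2 1) c1 T) +
      3 * ((D + 1) * crN (fun t => (c t).2 1) c2 T) := by ring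
  rw [e3]
  omega

/-- What player `0` checks. -/
def Chk0 (M : HeadAut 2 Sym) (c1 c2 D : ℕ) (lf : Fin 3) (τR τL : Set (TS M D))
    (S : Finset (M.Cfg × Fin 3)) (y z : Fin l → Bool) : Prop :=
  Psi (ow M c1 c2) (EE M c1 c2 D τR τL (W (fun _ => false) y z)) (Fa M) M.init lf
    (Finset.insertNone S) 0 ∧
  table M (W (fun _ => false) y z) (fun p => c2 < p) c2 D = τR

/-- What player `1` checks. -/
def Chk1 (M : HeadAut 2 Sym) (c1 c2 D : ℕ) (lf : Fin 3) (τR τL : Set (TS M D))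
    (S : Finset (M.Cfg × Fin 3)) (x z : Fin l → Bool) : Prop :=
  Psi (ow M c1 c2) (EE M c1 c2 D τR τL (W x (fun _ => false) z)) (Fa M) M.init lf
    (Finset.insertNone S) 1

/-- What player `2` checks. -/
def Chk2 (M : HeadAut 2 Sym) (c1 c2 D : ℕ) (lf : Fin 3) (τR τL : Set (TS M D))
    (S : Finset (M.Cfg × Fin 3)) (x y : Fin l → Bool) : Prop :=
  Psi (ow M c1 c2) (EE M c1 c2 D τR τL (W x y (fun _ => false))) (Fa M) M.init lf
    (Finset.insertNone S) 2 ∧
  table M (W x y (fun _ => false)) (fun p => p ≤ c1) (c1 + 1) D = τL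

open Classical in
/-- There are few cheap words. -/
theorem cheap_card (M : HeadAut 2 Sym) (hl : 1 ≤ l) (D R lam : ℕ) (hD : D ≤ l)
    (hM : ∀ x y z : Fin l → Bool, W x y z ∈ M.lang ↔ sg x y z = -1) :
    (Finset.univ.filter (Cheap M l D R)).card ≤
      (3 * (l + 1) ^ 2) * (2 ^ Fintype.card (TS M D) * (2 ^ Fintype.card (TS M D) *
        (⌊KB M l R lam⌋₊ * nB l))) := by
  -- the sets described by the certificates
  let C : ℕ → ℕ → Fin 3 → Set (TS M D) → Set (TS M D) → Finset (M.Cfg × Fin 3) →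
      Finset ((Fin l → Bool) × (Fin l → Bool) × (Fin l → Bool)) := fun c1 c2 lf τR τL S =>
    Finset.univ.filter (fun a => Chk0 M c1 c2 D lf τR τL S a.2.1 a.2.2 ∧
      Chk1 M c1 c2 D lf τR τL S a.1 a.2.2 ∧ Chk2 M c1 c2 D lf τR τL S a.1 a.2.1)
  have htR : ∀ c2 : ℕ, 3 * l ≤ c2 → ∀ x x' y z : Fin l → Bool,
      table M (W x y z) (fun p => c2 < p) c2 D = table M (W x' y z) (fun p => c2 < p) c2 D := by
    intro c2 h2 x x' y z
    refine table_congr (by rw [W_length, W_length]) (cell_indep_x _ _ _ _ (by omega)) ?_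
    intro p hp
    exact cell_indep_x _ _ _ _ (by omega)
  have htL : ∀ c1 : ℕ, c1 ≤ 2 * l → ∀ x y z z' : Fin l → Bool,
      table M (W x y z) (fun p => p ≤ c1) (c1 + 1) D =
        table M (W x y z') (fun p => p ≤ c1) (c1 + 1) D := by
    intro c1 h2 x y z z'
    refine table_congr (by rw [W_length, W_length]) (cell_indep_z _ _ _ _ (by omega)) ?_
    intro p hp
    exact cell_indep_z _ _ _ _ (by omega)
  have hC : ∀ c1 ∈ Finset.Icc l (2 * l), ∀ c2 ∈ Finset.Icc (3 * l) (4 * l), ∀ lf τR τL S,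
      (((C c1 c2 lf τR τL S).card : ℕ) : ℤ) ^ 4 ≤ 3072 ^ l := by
    intro c1 hc1 c2 hc2 lf τR τL S
    rw [Finset.mem_Icc] at hc1 hc2
    refine cyl_card (Chk0 M c1 c2 D lf τR τL S) (Chk1 M c1 c2 D lf τR τL S)
      (Chk2 M c1 c2 D lf τR τL S) ?_
    rintro x y z ⟨p0, t0⟩ p1 ⟨p2, t2⟩
    have q0 : Psi (ow M c1 c2) (EE M c1 c2 D τR τL (W x y z)) (Fa M) M.init lf
        (Finset.insertNone S) 0 := p0.congr
          (fun u v ho => eindep0 hl (by omega) (by omega) _ _ _ _ u v ho)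
    have q1 : Psi (ow M c1 c2) (EE M c1 c2 D τR τL (W x y z)) (Fa M) M.init lf
        (Finset.insertNone S) 1 :=
      p1.congr (fun u v ho => eindep1 (by omega) (by omega) (by omega) _ _ _ _ u v ho)
    have q2 : Psi (ow M c1 c2) (EE M c1 c2 D τR τL (W x y z)) (Fa M) M.init lf
        (Finset.insertNone S) 2 := p2.congr
          (fun u v ho => eindep2 (by omega) (by omega) _ _ _ _ u v ho)
    rw [htR c2 (by omega) _ x] at t0
    rw [htL c1 (by omega) _ _ _ z] at t2
    rw [← hM]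
    obtain ⟨u, hu, hr⟩ := cert_sound (Finset.insertNone S) Finset.none_mem_insertNone
      (fun i => by
        fin_cases i
        · exact q0
        · exact q1
        · exact q2)
    refine mem_lang_of_reach M ?_ hu
    subst t0 t2
    clear q0 q1 q2 p0 p1 p2 hu
    induction hr with
    | refl => exact Relation.ReflTransGen.refl
    | tail _ hb ih => exact ih.trans (EE.sound hb)
  -- bound for the size of a single set
  have hCn : ∀ c1 ∈ Finset.Icc l (2 * l), ∀ c2 ∈ Finset.Icc (3 * l) (4 * l), ∀ lf τR τL S,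
      (C c1 c2 lf τR τL S).card ≤ nB l := by
    intro c1 hc1 c2 hc2 lf τR τL S
    have h4 : (C c1 c2 lf τR τL S).card ^ 4 ≤ 3072 ^ l := by
      exact_mod_cast hC c1 hc1 c2 hc2 lf τR τL S
    exact Nat.le_findGreatest ((Nat.le_self_pow (by norm_num) _).trans h4) h4
  -- the number of certificates
  have hPS : ∀ c1 c2, ((Un M l c1 c2).powerset.filter (fun t => t.card ≤ R)).card ≤
      ⌊KB M l R lam⌋₊ := by
    intro c1 c2
    refine Nat.le_floor ?_
    refine (card_small_subsets (Un M l c1 c2) R ((2 : ℝ) ^ (lam + 14))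
      (one_le_pow₀ (by norm_num))).trans ?_
    refine mul_le_mul_of_nonneg_left ?_ (by positivity)
    exact pow_le_pow_right₀ (by
      have : (0 : ℝ) ≤ 1 / (2 : ℝ) ^ (lam + 14) := by positivity
      linarith) (Un_card M (by omega) c1 c2)
  -- covering
  let Idx : Finset (ℕ × ℕ × Fin 3) :=
    Finset.Icc l (2 * l) ×ˢ (Finset.Icc (3 * l) (4 * l) ×ˢ (Finset.univ : Finset (Fin 3)))
  have hcover : (Finset.univ.filter (Cheap M l D R)) ⊆ Idx.biUnion (fun κ =>
      (Finset.univ : Finset (Set (TS M D))).biUnion (fun τR =>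
        (Finset.univ : Finset (Set (TS M D))).biUnion (fun τL =>
          ((Un M l κ.1 κ.2.1).powerset.filter (fun t => t.card ≤ R)).biUnion
            (fun S => C κ.1 κ.2.1 κ.2.2 τR τL S)))) := by
    rintro ⟨x, y, z⟩ ha
    obtain ⟨T, c, hc, hb⟩ := (Finset.mem_filter.1 ha).2
    simp only at hc
    obtain ⟨c1, hc1, c2, hc2, hbb⟩ := exists_lines2 l D R hD hc hb
    have hc1' := hc1
    have hc2' := hc2
    rw [Finset.mem_Icc] at hc1' hc2'
    obtain ⟨b, hb1, hb2⟩ := compress (D := D) (lf := ow M c1 c2 (c T))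
      (show c1 < c2 by omega) hc
    have hbR : b ≤ R := by
      have h3 : (D + 1) * b ≤ (D + 1) * R := hb2.trans hbb
      exact Nat.le_of_mul_le_mul_left h3 (by omega)
    obtain ⟨S, hS1, hS2, hS3⟩ := cert_complete' (hb1.mono hbR) hc.2.2
    refine Finset.mem_biUnion.2 ⟨(c1, c2, ow M c1 c2 (c T)), ?_, ?_⟩
    · simp only [Idx, Finset.mem_product, Finset.mem_univ, and_true]
      exact ⟨hc1, hc2⟩
    · refine Finset.mem_biUnion.2 ⟨table M (W x y z) (fun p => c2 < p) c2 D,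
        Finset.mem_univ _, ?_⟩
      refine Finset.mem_biUnion.2 ⟨table M (W x y z) (fun p => p ≤ c1) (c1 + 1) D,
        Finset.mem_univ _, ?_⟩
      refine Finset.mem_biUnion.2 ⟨S, ?_, ?_⟩
      · rw [Finset.mem_filter, Finset.mem_powerset]
        refine ⟨?_, hS1⟩
        rintro ⟨v, i⟩ he
        obtain ⟨u, hu, ho, _⟩ := hS2 _ he
        exact emem_Un (show c1 < c2 by omega) hu ho
      · refine Finset.mem_filter.2 ⟨Finset.mem_univ _, ⟨?_, ?_⟩, ?_, ⟨?_, ?_⟩⟩
        · exact (hS3 0).congr (fun u v ho => eindep0 hl (by omega) (by omega) _ _ _ _ u v ho)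
        · exact htR c2 (by omega) _ _ _ _
        · exact (hS3 1).congr
            (fun u v ho => eindep1 (by omega) (by omega) (by omega) _ _ _ _ u v ho)
        · exact (hS3 2).congr (fun u v ho => eindep2 (by omega) (by omega) _ _ _ _ u v ho)
        · exact htL c1 (by omega) _ _ _ _
  refine (Finset.card_le_card hcover).trans ?_
  have hIdx : Idx.card = 3 * (l + 1) ^ 2 := by
    simp only [Idx, Finset.card_product, Nat.card_Icc, Finset.card_univ, Fintype.card_fin]
    rw [show 2 * l + 1 - l = l + 1 by omega, show 4 * l + 1 - 3 * l = l + 1 by omega]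
    ring
  have hsets : (Finset.univ : Finset (Set (TS M D))).card = 2 ^ Fintype.card (TS M D) := by
    rw [Finset.card_univ, Fintype.card_set]
  rw [← hIdx]
  refine Finset.card_biUnion_le_card_mul _ _ _ fun κ hκ => ?_
  simp only [Idx, Finset.mem_product] at hκ
  rw [← hsets]
  refine Finset.card_biUnion_le_card_mul _ _ _ fun τR _ => ?_
  refine Finset.card_biUnion_le_card_mul _ _ _ fun τL _ => ?_
  refine (Finset.card_biUnion_le_card_mul _ _ (nB l) fun S _ =>
    hCn _ hκ.1 _ hκ.2.1 _ _ _ _).trans ?_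
  exact Nat.mul_le_mul_right _ (hPS _ _)

end Two

/-! ### Exchanging the two heads -/

/-- The exchange of two heads. -/
def sw (i : Fin 2) : Fin 2 := Equiv.swap 0 1 i

lemma sw_sw (i : Fin 2) : sw (sw i) = i := Equiv.swap_apply_self _ _ _

/-- The automaton with its heads exchanged. -/
def swapM {A : Type} (M : HeadAut 2 A) : HeadAut 2 A where
  Q := M.Q
  finQ := M.finQ
  start := M.start
  acc := M.acc
  δ q σ q' m := M.δ q (fun i => σ (sw i)) q' (fun i => m (sw i))

lemma swap_run {A : Type} {M : HeadAut 2 A} {w : List A} {T : ℕ} {c : ℕ → M.Cfg}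
    (h : M.IsAccRun w T c) :
    (swapM M).IsAccRun w T (fun t => ((c t).1, fun i => (c t).2 (sw i))) := by
  obtain ⟨h0, h1, h2⟩ := h
  refine ⟨?_, ?_, h2⟩
  · show ((c 0).1, fun i => (c 0).2 (sw i)) = _
    rw [h0]
    rfl
  · intro t ht
    obtain ⟨m, m1, m2, m3⟩ := h1 t ht
    refine ⟨fun i => m (sw i), ?_, fun i => m2 (sw i), fun i => m3 (sw i)⟩
    show M.δ _ _ _ _
    simp only [sw_sw]
    exact m1

lemma swap_run' {A : Type} {M : HeadAut 2 A} {w : List A} {T : ℕ} {c : ℕ → (swapM M).Cfg}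
    (h : (swapM M).IsAccRun w T c) :
    M.IsAccRun w T (fun t => ((c t).1, fun i => (c t).2 (sw i))) := by
  obtain ⟨h0, h1, h2⟩ := h
  refine ⟨?_, ?_, h2⟩
  · show ((c 0).1, fun i => (c 0).2 (sw i)) = _
    rw [h0]
    rfl
  · intro t ht
    obtain ⟨m, m1, m2, m3⟩ := h1 t ht
    refine ⟨fun i => m (sw i), ?_, fun i => m2 (sw i), fun i => m3 (sw i)⟩
    exact m1

lemma swap_lang {A : Type} (M : HeadAut 2 A) : (swapM M).lang = M.lang := by
  ext w
  constructor
  · rintro ⟨T, c, hc⟩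
    exact ⟨T, _, swap_run' hc⟩
  · rintro ⟨T, c, hc⟩
    exact ⟨T, _, swap_run hc⟩

/-! ### The lower bound -/

/-- The number of moves of head `i` in the first `T` steps of `c`: the number of steps in which
head `i` changes its position. -/
def HeadAut.moves {k : ℕ} {A : Type} {M : HeadAut k A} (c : ℕ → M.Cfg) (i : Fin k) (T : ℕ) : ℕ :=
  ((Finset.range T).filter (fun t => (c t).2 i ≠ (c (t + 1)).2 i)).card

open Classical in
/-- If every accepted word of the family has a computation with a lazy head, we get a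
contradiction. -/
theorem no_lazy {l : ℕ} (M : HeadAut 2 Sym) (hl : 2048 ≤ l) (D R lam : ℕ)
    (hs : Fintype.card M.Q ≤ 2 ^ lam) (hlam : 1 ≤ lam) (hR : 600 * lam * R ≤ l) (hD : D ≤ l)
    (hNT : 128 * Fintype.card (TS M D) ≤ l)
    (hM : ∀ x y z : Fin l → Bool, W x y z ∈ M.lang ↔ sg x y z = -1)
    (hcheap : ∀ x y z : Fin l → Bool, sg x y z = -1 →
      Cheap M l D R (x, y, z) ∨ Cheap (swapM M) l D R (x, y, z)) : False := by
  set NT := Fintype.card (TS M D) with hNTdef
  set n := nB l with hndef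
  have hn : n ^ 4 ≤ 3072 ^ l :=
    Nat.findGreatest_spec (P := fun m => m ^ 4 ≤ 3072 ^ l) (Nat.zero_le _) (by simp)
  set K := KB M l R lam with hKdef
  have hKpos : 0 ≤ K := by
    rw [hKdef]
    unfold KB
    positivity
  have h1 := cheap_card (l := l) M (by omega) D R lam hD hM
  have h2 := cheap_card (l := l) (swapM M) (by omega) D R lam hD
    (by rw [swap_lang]; exact hM)
  have hT2 : Fintype.card (TS (swapM M) D) = NT := by
    rw [card_TS, hNTdef, card_TS]
    rfl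
  have hK2 : KB (swapM M) l R lam = K := rfl
  rw [hT2, hK2] at h2
  rw [← hNTdef, ← hKdef, ← hndef] at h1
  rw [← hndef] at h2
  have hcount : (Finset.univ.filter
      (fun a : (Fin l → Bool) × (Fin l → Bool) × (Fin l → Bool) =>
      sg a.1 a.2.1 a.2.2 = -1)).card ≤
      2 * ((3 * (l + 1) ^ 2) * (2 ^ NT * (2 ^ NT * (⌊K⌋₊ * n)))) := by
    have hsub : (Finset.univ.filter
      (fun a : (Fin l → Bool) × (Fin l → Bool) × (Fin l → Bool) =>
      sg a.1 a.2.1 a.2.2 = -1)) ⊆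
      Finset.univ.filter (Cheap M l D R) ∪ Finset.univ.filter (Cheap (swapM M) l D R) := by
      rintro ⟨x, y, z⟩ ha
      have hsg : sg x y z = -1 := (Finset.mem_filter.1 ha).2
      rw [Finset.mem_union, Finset.mem_filter, Finset.mem_filter]
      rcases hcheap x y z hsg with h | h
      · exact Or.inl ⟨Finset.mem_univ _, h⟩
      · exact Or.inr ⟨Finset.mem_univ _, h⟩
    refine (Finset.card_le_card hsub).trans ((Finset.card_union_le _ _).trans ?_)
    omega
  have hones := ones_card (l := l) (by omega)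
  have hnum := numeric2 l (Fintype.card M.Q) R lam _ NT hl hs hlam hR le_rfl hNT
  set O := (Finset.univ.filter
      (fun a : (Fin l → Bool) × (Fin l → Bool) × (Fin l → Bool) =>
      sg a.1 a.2.1 a.2.2 = -1)).card with hO
  have hones' : (8 : ℝ) ^ l ≤ 8 * O := by exact_mod_cast hones
  have hcount' : (O : ℝ) ≤ 2 * (3 * ((l : ℝ) + 1) ^ 2 * (2 ^ NT * (2 ^ NT * (K * n)))) := by
    have h1 : (O : ℝ) ≤ 2 * (3 * ((l : ℝ) + 1) ^ 2 * (2 ^ NT * (2 ^ NT * (⌊K⌋₊ * n)))) := by
      exact_mod_cast hcount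
    refine h1.trans ?_
    refine mul_le_mul_of_nonneg_left ?_ (by norm_num)
    refine mul_le_mul_of_nonneg_left ?_ (by positivity)
    refine mul_le_mul_of_nonneg_left ?_ (by positivity)
    refine mul_le_mul_of_nonneg_left ?_ (by positivity)
    exact mul_le_mul_of_nonneg_right (Nat.floor_le hKpos) (by positivity)
  have h8 : (8 : ℝ) ^ l ≤ 48 * ((l : ℝ) + 1) ^ 2 * (2 ^ (2 * NT)) * K * n := by
    calc (8 : ℝ) ^ l ≤ 8 * O := hones'
      _ ≤ 8 * (2 * (3 * ((l : ℝ) + 1) ^ 2 * (2 ^ NT * (2 ^ NT * (K * n))))) := by linarith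
      _ = _ := by rw [two_mul NT, pow_add]; ring
  have h84 : ((8 : ℝ) ^ l) ^ 4 ≤ (48 * ((l : ℝ) + 1) ^ 2 * (2 ^ (2 * NT)) * K * n) ^ 4 :=
    pow_le_pow_left₀ (by positivity) h8 4
  have hn' : (n : ℝ) ^ 4 ≤ 3072 ^ l := by exact_mod_cast hn
  have h4096 : ((8 : ℝ) ^ l) ^ 4 = (4 / 3) ^ l * 3072 ^ l := by
    rw [← mul_pow, ← pow_mul, mul_comm l 4, pow_mul]
    norm_num
  have hfin : (48 * ((l : ℝ) + 1) ^ 2 * (2 ^ (2 * NT)) * K * n) ^ 4 ≤
      (5308416 : ℝ) * ((l : ℝ) + 1) ^ 8 * ((2 : ℝ) ^ (2 * NT)) ^ 4 * K ^ 4 * 3072 ^ l := by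
    have : (48 * ((l : ℝ) + 1) ^ 2 * (2 ^ (2 * NT)) * K * n) ^ 4 =
        (5308416 : ℝ) * ((l : ℝ) + 1) ^ 8 * ((2 : ℝ) ^ (2 * NT)) ^ 4 * K ^ 4 * (n : ℝ) ^ 4 := by
      ring
    rw [this]
    exact mul_le_mul_of_nonneg_left hn' (by positivity)
  have hlt : (5308416 : ℝ) * ((l : ℝ) + 1) ^ 8 * ((2 : ℝ) ^ (2 * NT)) ^ 4 * K ^ 4 * 3072 ^ l <
      (4 / 3) ^ l * 3072 ^ l :=
    mul_lt_mul_of_pos_right hnum (by positivity)
  rw [h4096] at h84
  linarith

/-- The main lower bound. -/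
theorem lazy_bound (M : HeadAut 2 Sym) (l : ℕ) (hl : 1 ≤ l)
    (hM : ∀ w : List Sym, w.length = 5 * l → (w ∈ M.lang ↔ w ∈ P.lang)) :
    ∃ w ∈ P.lang, w.length = 5 * l ∧ ∀ T c, M.IsAccRun w T c → ∀ i : Fin 2,
      l * Nat.log 2 l ≤ 2 ^ 20 * (Nat.log 2 (Fintype.card M.Q) + 1) *
        (HeadAut.moves c i T + l) := by
  have hM' : ∀ x y z : Fin l → Bool, W x y z ∈ M.lang ↔ sg x y z = -1 := fun x y z =>
    (hM _ (W_length x y z)).trans (W_mem_lang x y z hl)
  set lam := Nat.log 2 (Fintype.card M.Q) + 1 with hlam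
  have hlam1 : 1 ≤ lam := by omega
  have hs : Fintype.card M.Q ≤ 2 ^ lam := (Nat.lt_pow_succ_log_self (by norm_num) _).le
  set g := Nat.log 2 l with hg
  rcases Nat.lt_or_ge g (4 * lam + 24) with hsmall | hbig
  · -- small lengths
    classical
    have hones := ones_card (l := l) hl
    have hpos : 0 < (Finset.univ.filter
        (fun a : (Fin l → Bool) × (Fin l → Bool) × (Fin l → Bool) =>
        sg a.1 a.2.1 a.2.2 = -1)).card := by
      by_contra hcon
      have h0 : (Finset.univ.filter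
        (fun a : (Fin l → Bool) × (Fin l → Bool) × (Fin l → Bool) =>
        sg a.1 a.2.1 a.2.2 = -1)).card = 0 := by omega
      rw [h0] at hones
      have : (0 : ℤ) < 8 ^ l := by positivity
      simp at hones
      omega
    obtain ⟨⟨x, y, z⟩, ha⟩ := Finset.card_pos.1 hpos
    have hsg : sg x y z = -1 := (Finset.mem_filter.1 ha).2
    refine ⟨W x y z, (W_mem_lang x y z hl).2 hsg, W_length x y z, ?_⟩
    intro T c _ i
    calc l * g ≤ l * (2 ^ 20 * lam) := Nat.mul_le_mul_left _ (by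
          have : (2 : ℕ) ^ 20 = 1048576 := by norm_num
          omega)
      _ = 2 ^ 20 * lam * l := by ring
      _ ≤ _ := Nat.mul_le_mul_left _ (by omega)
  · have hlog : 2 ^ g ≤ l := Nat.pow_log_le_self 2 (by omega)
    have hl2 : 2048 ≤ l := by
      calc 2048 = 2 ^ 11 := by norm_num
        _ ≤ 2 ^ g := Nat.pow_le_pow_right (by norm_num) (by omega)
        _ ≤ l := hlog
    obtain ⟨D, hD⟩ : ∃ D, D = (g - 2 * lam - 12) / 8 := ⟨_, rfl⟩
    have hD1 : 8 * D + 12 + 2 * lam ≤ g := by omega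
    have hD2 : g < 16 * (D + 1) := by omega
    obtain ⟨R, hRdef⟩ : ∃ R, R = l / (600 * lam) := ⟨_, rfl⟩
    have hR : 600 * lam * R ≤ l := by rw [hRdef]; exact Nat.mul_div_le l (600 * lam)
    have hR' : l < 600 * lam * (R + 1) := by
      rw [hRdef]
      exact Nat.lt_mul_div_succ l (by positivity)
    have hDl : D ≤ l := by
      have h1 : g < 2 ^ g := Nat.lt_two_pow_self
      omega
    have hNT : 128 * Fintype.card (TS M D) ≤ l :=
      (card_TS_le M D lam hs).trans ((Nat.pow_le_pow_right (by norm_num) hD1).trans hlog)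
    have hR2 : 2 ≤ R := by
      rw [hRdef, Nat.le_div_iff_mul_le (by positivity)]
      have h1 : lam ≤ 2 ^ lam := Nat.lt_two_pow_self.le
      calc 2 * (600 * lam) ≤ 2048 * lam := by linarith
        _ ≤ 2048 * 2 ^ lam := Nat.mul_le_mul_left _ h1
        _ = 2 ^ (11 + lam) := by rw [pow_add 2 11 lam, show (2 : ℕ) ^ 11 = 2048 by norm_num]
        _ ≤ 2 ^ g := Nat.pow_le_pow_right (by norm_num) (by omega)
        _ ≤ l := hlog
    have hA : 2 * (D + 1) ≤ (D + 1) * R := by
      rw [mul_comm]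
      exact Nat.mul_le_mul_left _ hR2
    -- the arithmetic
    have key : ∀ m : ℕ, 2 ^ 20 * lam * (m + l) < l * g → 8 * m + (D + 1) ≤ (D + 1) * R := by
      intro m hm
      have h1 : l * g ≤ 600 * lam * (R + 1) * (16 * (D + 1)) := Nat.mul_le_mul hR'.le hD2.le
      have h2 : 2 ^ 20 * lam * m ≤ 2 ^ 20 * lam * (m + l) := Nat.mul_le_mul_left _ (by omega)
      have h3 : lam * (2 ^ 20 * m) < lam * (9600 * ((R + 1) * (D + 1))) := by
        calc lam * (2 ^ 20 * m) = 2 ^ 20 * lam * m := by ring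
          _ < 600 * lam * (R + 1) * (16 * (D + 1)) := by omega
          _ = lam * (9600 * ((R + 1) * (D + 1))) := by ring
      have h4 : 2 ^ 20 * m < 9600 * ((R + 1) * (D + 1)) := Nat.lt_of_mul_lt_mul_left h3
      have h5 : (R + 1) * (D + 1) = (D + 1) * R + (D + 1) := by ring
      rw [h5] at h4
      have h6 : (2 : ℕ) ^ 20 = 1048576 := by norm_num
      rw [h6] at h4
      omega
    by_contra hcon
    push Not at hcon
    refine no_lazy M hl2 D R lam hs hlam1 hR hDl hNT hM' ?_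
    intro x y z hsg
    obtain ⟨T, c, hc, i, hi⟩ := hcon (W x y z) ((W_mem_lang x y z hl).2 hsg) (W_length x y z)
    fin_cases i
    · refine Or.inr ⟨T, _, swap_run hc, ?_⟩
      exact key _ hi
    · exact Or.inl ⟨T, c, hc, key _ hi⟩

end Pool.Agent.L0h32.HA
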