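import Pool.Agent.L0h32.HA.PDA
import Pool.Agent.L0h32.HA.Cert
import Pool.Agent.L0h32.HA.Count

/-!
# The quadratic time and linear reversal lower bound for two-head automata
-/

namespace Pool.Agent.L0h32.HA

/-! ### Congruence of the certificates -/

section Congr

variable {V : Type} {o : V → Fin 3} {E E' : V → V → Prop} {F : Set V} {v0 : V} {lf : Fin 3}

lemma Seg.congr {i : Fin 3} (h : ∀ u v, o u = i → E u v → E' u v) {v u : V}
    (hs : Seg o E i v u) : Seg o E' i v u := by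
  obtain ⟨h1, h2⟩ := hs
  refine ⟨h1, ?_⟩
  induction h2 with
  | refl => exact Relation.ReflTransGen.refl
  | tail _ hb ih => exact ih.tail ⟨h _ _ hb.2.1 hb.1, hb.2⟩

lemma PathOK.congr {i : Fin 3} (h : ∀ u v, o u = i → E u v → E' u v) {v : V}
    {d : Option (V × Fin 3)} (hs : PathOK o E F i v d) : PathOK o E' F i v d := by
  cases d with
  | none =>
    obtain ⟨u, hu, hF⟩ := hs
    exact ⟨u, hu.congr h, hF⟩
  | some e =>
    obtain ⟨u, hu, hE, hne⟩ := hs
    exact ⟨u, hu.congr h, h _ _ hu.right_owner hE, hne⟩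

lemma Psi.congr {i : Fin 3} (h : ∀ u v, o u = i → E u v → E' u v)
    {D : Finset (Option (V × Fin 3))} (hs : Psi o E F v0 lf D i) : Psi o E' F v0 lf D i := by
  obtain ⟨f, h1, h2⟩ := hs
  refine ⟨f, fun d hd ho => ?_, h2⟩
  obtain ⟨a, b, c⟩ := h1 d hd ho
  exact ⟨a, b, c.congr h⟩

end Congr

lemma StepN.of_reach {α : Type*} {r : α → α → Prop} {a b : α}
    (h : Relation.ReflTransGen r a b) : ∃ n, StepN r n a b := by
  induction h with
  | refl => exact ⟨0, rfl⟩
  | tail _ h ih =>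
    obtain ⟨n, hn⟩ := ih
    exact ⟨n + 1, _, hn, h⟩

/-! ### Basic facts on head automata -/

section Basic

variable {k : ℕ} {A : Type} (M : HeadAut k A)

lemma step_congr {w w' : List A} {u v : M.Cfg} (hc : ∀ j, cell w (u.2 j) = cell w' (u.2 j))
    (hlen : w.length = w'.length) (h : M.Step w u v) : M.Step w' u v := by
  obtain ⟨m, h1, h2, h3⟩ := h
  refine ⟨m, ?_, h2, fun i => hlen ▸ h3 i⟩
  have : (fun i => cell w' (u.2 i)) = fun i => cell w (u.2 i) := funext fun i => (hc i).symm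
  rw [this]
  exact h1

lemma step_pos {w : List A} {u v : M.Cfg} (h : M.Step w u v) (i : Fin k) :
    v.2 i ≤ u.2 i + 1 ∧ u.2 i ≤ v.2 i + 1 ∧ v.2 i ≤ w.length + 1 := by
  obtain ⟨m, _, h2, h3⟩ := h
  have h4 := h2 i
  have h5 : ((m i : SignType) : ℤ) ≤ 1 ∧ -1 ≤ ((m i : SignType) : ℤ) := by
    cases m i <;> simp
  refine ⟨?_, ?_, h3 i⟩ <;> omega

lemma mem_lang_of_reach {w : List A} {u : M.Cfg} (h : Relation.ReflTransGen (M.Step w) M.init u)
    (hu : u.1 ∈ M.acc) : w ∈ M.lang := by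
  obtain ⟨n, hn⟩ := StepN.of_reach h
  obtain ⟨g, g0, gn, hg⟩ := hn.exists_fun
  exact ⟨n, g, g0, hg, by rw [gn]; exact hu⟩

/-- Every accepted word is accepted by a computation of length less than
`|Q| (|w| + 2)^k`. -/
theorem short_run {w : List A} (hw : w ∈ M.lang) :
    ∃ T c, M.IsAccRun w T c ∧ T < Fintype.card M.Q * (w.length + 2) ^ k := by
  classical
  obtain ⟨T0, c0, h0, h1, h2⟩ := hw
  have hex : ∃ T, ∃ d : M.Cfg, d.1 ∈ M.acc ∧ StepN (M.Step w) T M.init d := by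
    refine ⟨T0, c0 T0, h2, ?_⟩
    have := StepN.of_fun h1 (Nat.zero_le T0) le_rfl
    rwa [h0] at this
  obtain ⟨d, hd, hst⟩ := Nat.find_spec hex
  set T := Nat.find hex with hT
  obtain ⟨g, g0, gn, hg⟩ := hst.exists_fun
  refine ⟨T, g, ⟨g0, hg, by rw [gn]; exact hd⟩, ?_⟩
  have hinj : ∀ i j, i < j → j ≤ T → g i ≠ g j := by
    intro i j hij hj he
    have w1 := StepN.of_fun hg (Nat.zero_le i) (by omega : i ≤ T)
    have w2 := StepN.of_fun hg hj le_rfl
    rw [g0, he] at w1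
    rw [gn] at w2
    have w3 := w1.add w2
    exact Nat.find_min hex (m := i - 0 + (T - j)) (by omega) ⟨d, hd, w3⟩
  -- positions are bounded
  have hpos : ∀ t ≤ T, ∀ i, (g t).2 i < w.length + 2 := by
    intro t ht i
    cases t with
    | zero => rw [g0]; simp [HeadAut.init]
    | succ t =>
      have := (step_pos M (hg t (by omega)) i).2.2
      omega
  let φ : Fin (T + 1) → M.Q × (Fin k → Fin (w.length + 2)) := fun t =>
    ((g t).1, fun i => ⟨(g t).2 i, hpos t (by omega) i⟩)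
  have hφ : Function.Injective φ := by
    intro s t hst
    have e1 : (g s).1 = (g t).1 := (congrArg Prod.fst hst : (φ s).1 = (φ t).1)
    have e2 : (g s).2 = (g t).2 := by
      funext i
      have := congrFun (congrArg Prod.snd hst : (φ s).2 = (φ t).2) i
      exact congrArg Fin.val this
    have e3 : g s = g t := Prod.ext e1 e2
    rcases lt_trichotomy (s : ℕ) t with h | h | h
    · exact absurd e3 (hinj _ _ h (by omega))
    · exact Fin.ext h
    · exact absurd e3.symm (hinj _ _ h (by omega))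
  have hcard := Fintype.card_le_of_injective φ hφ
  simp only [Fintype.card_fin, Fintype.card_prod, Fintype.card_pi, Finset.prod_const,
    Finset.card_univ] at hcard
  omega

lemma dir_eq (c : ℕ → M.Cfg) (i : Fin k) (t : ℕ) :
    HeadAut.dir c i t = dr (fun t => (c t).2 i) t := by
  induction t with
  | zero => rfl
  | succ t ih => simp only [HeadAut.dir, dr, ih]

lemma rev_iff (c : ℕ → M.Cfg) (i : Fin k) (t : ℕ) :
    HeadAut.Rev c i t ↔ Rv (fun t => (c t).2 i) t := by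
  unfold HeadAut.Rev Rv
  rw [dir_eq]

lemma revs_eq (c : ℕ → M.Cfg) (T : ℕ) :
    HeadAut.revs c T = ∑ i : Fin k,
      ((Finset.range T).filter (fun t => Rv (fun t => (c t).2 i) t)).card := by
  unfold HeadAut.revs
  refine Finset.sum_congr rfl fun i _ => ?_
  congr 1
  ext t
  simp only [Finset.mem_filter, rev_iff]

end Basic

/-! ### Two heads -/

section Two

variable {l : ℕ} (M : HeadAut 2 Sym)

/-- The owner of a configuration. -/
def ow (c1 c2 : ℕ) (v : M.Cfg) : Fin 3 := owner c1 c2 (v.2 0) (v.2 1)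

/-- The accepting configurations. -/
def Fa : Set M.Cfg := {v | v.1 ∈ M.acc}

lemma indep0 {c1 c2 : ℕ} (h1 : l ≤ c1) (x x' y z : Fin l → Bool) (u v : M.Cfg)
    (h : ow M c1 c2 u = 0) (hs : M.Step (W x y z) u v) : M.Step (W x' y z) u v := by
  obtain ⟨a, b⟩ := owner_zero h
  refine step_congr M ?_ (by rw [W_length, W_length]) hs
  rw [Fin.forall_fin_two]
  exact ⟨cell_indep_x _ _ _ _ (by omega), cell_indep_x _ _ _ _ (by omega)⟩

lemma indep1 {c1 c2 : ℕ} (h1 : c1 ≤ 2 * l) (h2 : 3 * l ≤ c2) (x y y' z : Fin l → Bool)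
    (u v : M.Cfg)
    (h : ow M c1 c2 u = 1) (hs : M.Step (W x y z) u v) : M.Step (W x y' z) u v := by
  have hab := owner_one (by omega) h
  refine step_congr M ?_ (by rw [W_length, W_length]) hs
  rw [Fin.forall_fin_two]
  exact ⟨cell_indep_y _ _ _ _ (by omega), cell_indep_y _ _ _ _ (by omega)⟩

lemma indep2 {c1 c2 : ℕ} (h2 : c2 ≤ 4 * l) (x y z z' : Fin l → Bool) (u v : M.Cfg)
    (h : ow M c1 c2 u = 2) (hs : M.Step (W x y z) u v) : M.Step (W x y z') u v := by
  obtain ⟨a, b⟩ := owner_two h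
  refine step_congr M ?_ (by rw [W_length, W_length]) hs
  rw [Fin.forall_fin_two]
  exact ⟨cell_indep_z _ _ _ _ (by omega), cell_indep_z _ _ _ _ (by omega)⟩

open Classical in
/-- The possible boundary entries. -/
noncomputable def Un (l c1 c2 : ℕ) : Finset (M.Cfg × Fin 3) :=
  (Finset.univ : Finset (M.Q × Fin 2 × Fin 4 × Fin (5 * l + 2) × Fin 3)).image
    (fun a => ((a.1, fun j => if j = a.2.1 then (![c1, c1 + 1, c2, c2 + 1] : Fin 4 → ℕ) a.2.2.1
      else (a.2.2.2.1 : ℕ)), a.2.2.2.2))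

lemma Un_card (hl : 1 ≤ l) (c1 c2 : ℕ) :
    (Un M l c1 c2).card ≤ 168 * Fintype.card M.Q * l := by
  classical
  unfold Un
  refine Finset.card_image_le.trans ?_
  rw [Finset.card_univ]
  simp only [Fintype.card_prod, Fintype.card_fin]
  nlinarith [Nat.zero_le (Fintype.card M.Q * (l - 1)), Nat.mul_le_mul_left (Fintype.card M.Q) hl]

lemma mem_Un {c1 c2 : ℕ} {x y z : Fin l → Bool} {u v : M.Cfg} {i : Fin 3}
    (hs : M.Step (W x y z) u v) (ho : ow M c1 c2 u ≠ ow M c1 c2 v) :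
    (v, i) ∈ Un M l c1 c2 := by
  classical
  have p0 := step_pos M hs 0
  have p1 := step_pos M hs 1
  rw [W_length] at p0 p1
  have hch := owner_change ho
  have h0 : v.2 0 < 5 * l + 2 := by omega
  have h1 : v.2 1 < 5 * l + 2 := by omega
  unfold Un
  rw [Finset.mem_image]
  have key : (v.2 0 = c1 ∨ v.2 0 = c1 + 1 ∨ v.2 0 = c2 ∨ v.2 0 = c2 + 1) ∨
      (v.2 1 = c1 ∨ v.2 1 = c1 + 1 ∨ v.2 1 = c2 ∨ v.2 1 = c2 + 1) := by omega
  have hv : ∀ f : Fin 2 → ℕ, f 0 = v.2 0 → f 1 = v.2 1 → ((v.1, f) : M.Cfg) = v := by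
    intro f hf0 hf1
    refine Prod.ext rfl ?_
    funext j
    fin_cases j
    · exact hf0
    · exact hf1
  rcases key with h | h
  · rcases h with h | h | h | h
    · refine ⟨(v.1, 0, 0, ⟨v.2 1, h1⟩, i), Finset.mem_univ _, ?_⟩
      refine Prod.ext (hv _ ?_ ?_) rfl <;> simp [h]
    · refine ⟨(v.1, 0, 1, ⟨v.2 1, h1⟩, i), Finset.mem_univ _, ?_⟩
      refine Prod.ext (hv _ ?_ ?_) rfl <;> simp [h]
    · refine ⟨(v.1, 0, 2, ⟨v.2 1, h1⟩, i), Finset.mem_univ _, ?_⟩
      refine Prod.ext (hv _ ?_ ?_) rfl <;> simp [h]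
    · refine ⟨(v.1, 0, 3, ⟨v.2 1, h1⟩, i), Finset.mem_univ _, ?_⟩
      refine Prod.ext (hv _ ?_ ?_) rfl <;> simp [h]
  · rcases h with h | h | h | h
    · refine ⟨(v.1, 1, 0, ⟨v.2 0, h0⟩, i), Finset.mem_univ _, ?_⟩
      refine Prod.ext (hv _ ?_ ?_) rfl <;> simp [h]
    · refine ⟨(v.1, 1, 1, ⟨v.2 0, h0⟩, i), Finset.mem_univ _, ?_⟩
      refine Prod.ext (hv _ ?_ ?_) rfl <;> simp [h]
    · refine ⟨(v.1, 1, 2, ⟨v.2 0, h0⟩, i), Finset.mem_univ _, ?_⟩
      refine Prod.ext (hv _ ?_ ?_) rfl <;> simp [h]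
    · refine ⟨(v.1, 1, 3, ⟨v.2 0, h0⟩, i), Finset.mem_univ _, ?_⟩
      refine Prod.ext (hv _ ?_ ?_) rfl <;> simp [h]

/-- The number of boundary edges is at most the number of crossings of the two lines. -/
lemma bcount_le (c1 c2 : ℕ) (c : ℕ → M.Cfg) (T : ℕ) :
    bcount (ow M c1 c2) c T ≤ (crN (fun t => (c t).2 0) c1 T + crN (fun t => (c t).2 1) c1 T) +
      (crN (fun t => (c t).2 0) c2 T + crN (fun t => (c t).2 1) c2 T) := by
  classical
  unfold bcount crN
  have hsub : (Finset.range T).filter (fun t => ow M c1 c2 (c t) ≠ ow M c1 c2 (c (t + 1))) ⊆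
      (((Finset.range T).filter (fun t => Cr ((c t).2 0) ((c (t + 1)).2 0) c1)) ∪
      ((Finset.range T).filter (fun t => Cr ((c t).2 1) ((c (t + 1)).2 1) c1))) ∪
      (((Finset.range T).filter (fun t => Cr ((c t).2 0) ((c (t + 1)).2 0) c2)) ∪
      ((Finset.range T).filter (fun t => Cr ((c t).2 1) ((c (t + 1)).2 1) c2))) := by
    intro t ht
    obtain ⟨h1, h2⟩ := Finset.mem_filter.1 ht
    have h3 := owner_change h2
    simp only [Finset.mem_union, Finset.mem_filter, h1, true_and]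
    unfold Cr
    omega
  refine (Finset.card_le_card hsub).trans ?_
  refine (Finset.card_union_le _ _).trans ?_
  exact Nat.add_le_add (Finset.card_union_le _ _) (Finset.card_union_le _ _)

/-- Time: some pair of lines is crossed rarely. -/
lemma exists_lines {w : List Sym} {T : ℕ} {c : ℕ → M.Cfg} (l : ℕ) (hc : M.IsAccRun w T c) :
    ∃ c1 ∈ Finset.Icc l (2 * l), ∃ c2 ∈ Finset.Icc (3 * l) (4 * l),
      (l + 1) * bcount (ow M c1 c2) c T ≤ 4 * T := by
  obtain ⟨h0, h1, h2⟩ := hc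
  have hstep : ∀ i : Fin 2, ∀ t < T, (fun t => (c t).2 i) (t + 1) ≤ (fun t => (c t).2 i) t + 1 ∧
      (fun t => (c t).2 i) t ≤ (fun t => (c t).2 i) (t + 1) + 1 := by
    intro i t ht
    have := step_pos M (h1 t ht) i
    exact ⟨this.1, this.2.1⟩
  have hsum : ∀ I : Finset ℕ, ∑ a ∈ I, (crN (fun t => (c t).2 0) a T +
      crN (fun t => (c t).2 1) a T) ≤ 2 * T := by
    intro I
    rw [Finset.sum_add_distrib]
    have a := sum_crN_le I (fun t => (c t).2 0) T (hstep 0)
    have b := sum_crN_le I (fun t => (c t).2 1) T (hstep 1)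
    omega
  obtain ⟨c1, hc1, e1⟩ := exists_good_line (Finset.Icc l (2 * l)) ⟨l, by simp; omega⟩
    (fun a => crN (fun t => (c t).2 0) a T + crN (fun t => (c t).2 1) a T) (2 * T) (hsum _)
  obtain ⟨c2, hc2, e2⟩ := exists_good_line (Finset.Icc (3 * l) (4 * l)) ⟨3 * l, by simp; omega⟩
    (fun a => crN (fun t => (c t).2 0) a T + crN (fun t => (c t).2 1) a T) (2 * T) (hsum _)
  refine ⟨c1, hc1, c2, hc2, ?_⟩
  have hb := bcount_le M c1 c2 c T
  simp only [Nat.card_Icc] at e1 e2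
  rw [show 2 * l + 1 - l = l + 1 by omega] at e1
  rw [show 4 * l + 1 - 3 * l = l + 1 by omega] at e2
  calc (l + 1) * bcount (ow M c1 c2) c T ≤ (l + 1) *
      ((crN (fun t => (c t).2 0) c1 T + crN (fun t => (c t).2 1) c1 T) +
      (crN (fun t => (c t).2 0) c2 T + crN (fun t => (c t).2 1) c2 T)) :=
        Nat.mul_le_mul_left _ hb
    _ = (l + 1) * (crN (fun t => (c t).2 0) c1 T + crN (fun t => (c t).2 1) c1 T) +
      (l + 1) * (crN (fun t => (c t).2 0) c2 T + crN (fun t => (c t).2 1) c2 T) := by ring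
    _ ≤ 4 * T := by omega

/-- Reversals: all lines are crossed rarely. -/
lemma bcount_le_revs {w : List Sym} {T : ℕ} {c : ℕ → M.Cfg} (c1 c2 : ℕ)
    (hc : M.IsAccRun w T c) : bcount (ow M c1 c2) c T ≤ 4 * (HeadAut.revs c T + 1) := by
  obtain ⟨h0, h1, h2⟩ := hc
  have hb := bcount_le M c1 c2 c T
  have hz : ∀ (i : Fin 2) (a : ℕ), (fun t => (c t).2 i) 0 ≤ a := by
    intro i a
    show (c 0).2 i ≤ a
    rw [h0]
    exact Nat.zero_le _
  have e1 := crN_le_rev (fun t => (c t).2 0) c1 (hz 0 c1) T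
  have e2 := crN_le_rev (fun t => (c t).2 1) c1 (hz 1 c1) T
  have e3 := crN_le_rev (fun t => (c t).2 0) c2 (hz 0 c2) T
  have e4 := crN_le_rev (fun t => (c t).2 1) c2 (hz 1 c2) T
  have hr := revs_eq M c T
  rw [Fin.sum_univ_two] at hr
  omega

open Classical in
/-- If all accepted words of the family have computations with few boundary edges, we get a
contradiction. -/
theorem no_cheap (hl : 1024 ≤ l) (R lam : ℕ) (hs : Fintype.card M.Q ≤ 2 ^ lam)
    (hlam : 1 ≤ lam) (hR : 600 * lam * R ≤ l)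
    (hM : ∀ x y z : Fin l → Bool, W x y z ∈ M.lang ↔ sg x y z = -1)
    (hcheap : ∀ x y z : Fin l → Bool, sg x y z = -1 → ∃ T c, M.IsAccRun (W x y z) T c ∧
      ∃ c1 ∈ Finset.Icc l (2 * l), ∃ c2 ∈ Finset.Icc (3 * l) (4 * l),
        bcount (ow M c1 c2) c T ≤ R) : False := by
  -- the sets described by the certificates
  let C : ℕ → ℕ → Fin 3 → Finset (M.Cfg × Fin 3) →
      Finset ((Fin l → Bool) × (Fin l → Bool) × (Fin l → Bool)) := fun c1 c2 lf S =>
    Finset.univ.filter (fun a =>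
      Psi (ow M c1 c2) (M.Step (W (fun _ => false) a.2.1 a.2.2)) (Fa M) M.init lf
        (Finset.insertNone S) 0 ∧
      Psi (ow M c1 c2) (M.Step (W a.1 (fun _ => false) a.2.2)) (Fa M) M.init lf
        (Finset.insertNone S) 1 ∧
      Psi (ow M c1 c2) (M.Step (W a.1 a.2.1 (fun _ => false))) (Fa M) M.init lf
        (Finset.insertNone S) 2)
  have hC : ∀ c1 ∈ Finset.Icc l (2 * l), ∀ c2 ∈ Finset.Icc (3 * l) (4 * l), ∀ lf S,
      (((C c1 c2 lf S).card : ℕ) : ℤ) ^ 4 ≤ 3072 ^ l := by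
    intro c1 hc1 c2 hc2 lf S
    rw [Finset.mem_Icc] at hc1 hc2
    refine cyl_card
      (fun y z => Psi (ow M c1 c2) (M.Step (W (fun _ => false) y z)) (Fa M) M.init lf
        (Finset.insertNone S) 0)
      (fun x z => Psi (ow M c1 c2) (M.Step (W x (fun _ => false) z)) (Fa M) M.init lf
        (Finset.insertNone S) 1)
      (fun x y => Psi (ow M c1 c2) (M.Step (W x y (fun _ => false))) (Fa M) M.init lf
        (Finset.insertNone S) 2) ?_
    intro x y z p0 p1 p2
    have q0 : Psi (ow M c1 c2) (M.Step (W x y z)) (Fa M) M.init lf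
        (Finset.insertNone S) 0 := p0.congr (fun u v ho => indep0 M (by omega) _ _ _ _ u v ho)
    have q1 : Psi (ow M c1 c2) (M.Step (W x y z)) (Fa M) M.init lf
        (Finset.insertNone S) 1 :=
      p1.congr (fun u v ho => indep1 M (by omega) (by omega) _ _ _ _ u v ho)
    have q2 : Psi (ow M c1 c2) (M.Step (W x y z)) (Fa M) M.init lf
        (Finset.insertNone S) 2 := p2.congr (fun u v ho => indep2 M (by omega) _ _ _ _ u v ho)
    rw [← hM]
    obtain ⟨u, hu, hr⟩ := cert_sound (Finset.insertNone S) Finset.none_mem_insertNone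
      (fun i => by
        fin_cases i
        · exact q0
        · exact q1
        · exact q2)
    exact mem_lang_of_reach M hr hu
  -- bound for the size of a single set
  let n : ℕ := Nat.findGreatest (fun m => m ^ 4 ≤ 3072 ^ l) (3072 ^ l)
  have hn : n ^ 4 ≤ 3072 ^ l :=
    Nat.findGreatest_spec (P := fun m => m ^ 4 ≤ 3072 ^ l) (Nat.zero_le _) (by simp)
  have hCn : ∀ c1 ∈ Finset.Icc l (2 * l), ∀ c2 ∈ Finset.Icc (3 * l) (4 * l), ∀ lf S,
      (C c1 c2 lf S).card ≤ n := by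
    intro c1 hc1 c2 hc2 lf S
    have h4 : (C c1 c2 lf S).card ^ 4 ≤ 3072 ^ l := by exact_mod_cast hC c1 hc1 c2 hc2 lf S
    exact Nat.le_findGreatest ((Nat.le_self_pow (by norm_num) _).trans h4) h4
  -- the number of certificates
  set N := 168 * Fintype.card M.Q * l with hN
  let K : ℝ := ((2 : ℝ) ^ (lam + 14)) ^ R * (1 + 1 / (2 : ℝ) ^ (lam + 14)) ^ N
  have hKpos : 0 ≤ K := by positivity
  have hPS : ∀ c1 c2, ((Un M l c1 c2).powerset.filter (fun t => t.card ≤ R)).card ≤ ⌊K⌋₊ := by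
    intro c1 c2
    refine Nat.le_floor ?_
    refine (card_small_subsets (Un M l c1 c2) R ((2 : ℝ) ^ (lam + 14))
      (one_le_pow₀ (by norm_num))).trans ?_
    refine mul_le_mul_of_nonneg_left ?_ (by positivity)
    exact pow_le_pow_right₀ (by
      have : (0 : ℝ) ≤ 1 / (2 : ℝ) ^ (lam + 14) := by positivity
      linarith) (Un_card M (by omega) c1 c2)
  -- covering
  let Idx : Finset (ℕ × ℕ × Fin 3) :=
    Finset.Icc l (2 * l) ×ˢ (Finset.Icc (3 * l) (4 * l) ×ˢ (Finset.univ : Finset (Fin 3)))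
  have hcover : (Finset.univ.filter
      (fun a : (Fin l → Bool) × (Fin l → Bool) × (Fin l → Bool) =>
      sg a.1 a.2.1 a.2.2 = -1)) ⊆ Idx.biUnion (fun κ =>
        ((Un M l κ.1 κ.2.1).powerset.filter (fun t => t.card ≤ R)).biUnion
          (fun S => C κ.1 κ.2.1 κ.2.2 S)) := by
    rintro ⟨x, y, z⟩ ha
    have hsg : sg x y z = -1 := (Finset.mem_filter.1 ha).2
    obtain ⟨T, c, hc, c1, hc1, c2, hc2, hb⟩ := hcheap x y z hsg
    obtain ⟨S, hS1, hS2, hS3⟩ := cert_complete (o := ow M c1 c2) (F := Fa M) (v0 := M.init)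
      hc.1 hc.2.1 hc.2.2 hb
    refine Finset.mem_biUnion.2 ⟨(c1, c2, ow M c1 c2 (c T)), ?_, ?_⟩
    · simp only [Idx, Finset.mem_product, Finset.mem_univ, and_true]
      exact ⟨hc1, hc2⟩
    · refine Finset.mem_biUnion.2 ⟨S, ?_, ?_⟩
      · rw [Finset.mem_filter, Finset.mem_powerset]
        refine ⟨?_, hS1⟩
        rintro ⟨v, i⟩ he
        obtain ⟨u, hu, ho, _⟩ := hS2 _ he
        exact mem_Un M hu ho
      · rw [Finset.mem_Icc] at hc1 hc2
        refine Finset.mem_filter.2 ⟨Finset.mem_univ _, ?_, ?_, ?_⟩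
        · exact (hS3 0).congr (fun u v ho => indep0 M (by omega) _ _ _ _ u v ho)
        · exact (hS3 1).congr (fun u v ho => indep1 M (by omega) (by omega) _ _ _ _ u v ho)
        · exact (hS3 2).congr (fun u v ho => indep2 M (by omega) _ _ _ _ u v ho)
  have hcount : (Finset.univ.filter
      (fun a : (Fin l → Bool) × (Fin l → Bool) × (Fin l → Bool) =>
      sg a.1 a.2.1 a.2.2 = -1)).card ≤ (3 * (l + 1) ^ 2) * (⌊K⌋₊ * n) := by
    refine (Finset.card_le_card hcover).trans ?_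
    have hIdx : Idx.card = 3 * (l + 1) ^ 2 := by
      simp only [Idx, Finset.card_product, Nat.card_Icc, Finset.card_univ, Fintype.card_fin]
      rw [show 2 * l + 1 - l = l + 1 by omega, show 4 * l + 1 - 3 * l = l + 1 by omega]
      ring
    rw [← hIdx]
    refine Finset.card_biUnion_le_card_mul _ _ _ fun κ hκ => ?_
    simp only [Idx, Finset.mem_product] at hκ
    refine (Finset.card_biUnion_le_card_mul _ _ n fun S _ =>
      hCn _ hκ.1 _ hκ.2.1 _ _).trans ?_
    exact Nat.mul_le_mul_right _ (hPS _ _)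
  have hones := ones_card (l := l) (by omega)
  -- the final computation
  have hnum := numeric l (Fintype.card M.Q) R lam N hl hs hlam hR le_rfl
  set O := (Finset.univ.filter
      (fun a : (Fin l → Bool) × (Fin l → Bool) × (Fin l → Bool) =>
      sg a.1 a.2.1 a.2.2 = -1)).card with hO
  have hones' : (8 : ℝ) ^ l ≤ 8 * O := by exact_mod_cast hones
  have hcount' : (O : ℝ) ≤ 3 * ((l : ℝ) + 1) ^ 2 * (K * n) := by
    have h1 : (O : ℝ) ≤ 3 * ((l : ℝ) + 1) ^ 2 * (⌊K⌋₊ * n) := by exact_mod_cast hcount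
    refine h1.trans ?_
    refine mul_le_mul_of_nonneg_left ?_ (by positivity)
    exact mul_le_mul_of_nonneg_right (Nat.floor_le hKpos) (by positivity)
  have h8 : (8 : ℝ) ^ l ≤ 24 * ((l : ℝ) + 1) ^ 2 * K * n := by
    calc (8 : ℝ) ^ l ≤ 8 * O := hones'
      _ ≤ 8 * (3 * ((l : ℝ) + 1) ^ 2 * (K * n)) := by linarith
      _ = _ := by ring
  have h84 : ((8 : ℝ) ^ l) ^ 4 ≤ (24 * ((l : ℝ) + 1) ^ 2 * K * n) ^ 4 :=
    pow_le_pow_left₀ (by positivity) h8 4
  have hn' : (n : ℝ) ^ 4 ≤ 3072 ^ l := by exact_mod_cast hn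
  have h4096 : ((8 : ℝ) ^ l) ^ 4 = (4 / 3) ^ l * 3072 ^ l := by
    rw [← mul_pow, ← pow_mul, mul_comm l 4, pow_mul]
    norm_num
  have hfin : (24 * ((l : ℝ) + 1) ^ 2 * K * n) ^ 4 ≤
      (331776 : ℝ) * ((l : ℝ) + 1) ^ 8 * K ^ 4 * 3072 ^ l := by
    have : (24 * ((l : ℝ) + 1) ^ 2 * K * n) ^ 4 =
        (331776 : ℝ) * ((l : ℝ) + 1) ^ 8 * K ^ 4 * (n : ℝ) ^ 4 := by ring
    rw [this]
    exact mul_le_mul_of_nonneg_left hn' (by positivity)
  have hlt : (331776 : ℝ) * ((l : ℝ) + 1) ^ 8 * K ^ 4 * 3072 ^ l < (4 / 3) ^ l * 3072 ^ l :=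
    mul_lt_mul_of_pos_right hnum (by positivity)
  rw [h4096] at h84
  linarith

/-- The main lower bound. -/
theorem lower_bound (M : HeadAut 2 Sym) (l : ℕ) (hl : 1 ≤ l)
    (hM : ∀ w : List Sym, w.length = 5 * l → (w ∈ M.lang ↔ w ∈ P.lang)) :
    ∃ w ∈ P.lang, w.length = 5 * l ∧ ∀ T c, M.IsAccRun w T c →
      l ^ 2 ≤ 2 ^ 20 * (Nat.log 2 (Fintype.card M.Q) + 1) * (T + 1) ∧
      l ≤ 2 ^ 20 * (Nat.log 2 (Fintype.card M.Q) + 1) * (HeadAut.revs c T + 1) := by
  have hM' : ∀ x y z : Fin l → Bool, W x y z ∈ M.lang ↔ sg x y z = -1 := fun x y z =>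
    (hM _ (W_length x y z)).trans (W_mem_lang x y z hl)
  set lam := Nat.log 2 (Fintype.card M.Q) + 1 with hlam
  have hlam1 : 1 ≤ lam := by omega
  have hs : Fintype.card M.Q ≤ 2 ^ lam := (Nat.lt_pow_succ_log_self (by norm_num) _).le
  rcases Nat.lt_or_ge l 1024 with hl' | hl'
  · -- small lengths
    have hones := ones_card (l := l) hl
    have hpos : 0 < (Finset.univ.filter
        (fun a : (Fin l → Bool) × (Fin l → Bool) × (Fin l → Bool) =>
        sg a.1 a.2.1 a.2.2 = -1)).card := by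
      by_contra hcon
      have h0 : (Finset.univ.filter
        (fun a : (Fin l → Bool) × (Fin l → Bool) × (Fin l → Bool) =>
        sg a.1 a.2.1 a.2.2 = -1)).card = 0 := by omega
      rw [h0] at hones
      have : (0 : ℤ) < 8 ^ l := by positivity
      simp at hones
      omega
    obtain ⟨⟨x, y, z⟩, ha⟩ := Finset.card_pos.1 hpos
    have hsg : sg x y z = -1 := (Finset.mem_filter.1 ha).2
    refine ⟨W x y z, (W_mem_lang x y z hl).2 hsg, W_length x y z, ?_⟩
    intro T c _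
    have h1 : l ^ 2 ≤ 2 ^ 20 := by
      calc l ^ 2 ≤ 1024 ^ 2 := Nat.pow_le_pow_left hl'.le 2
        _ = 2 ^ 20 := by norm_num
    have h2 : 2 ^ 20 ≤ 2 ^ 20 * lam * (T + 1) := by
      rw [mul_assoc]
      exact Nat.le_mul_of_pos_right _ (by positivity)
    have h3 : 2 ^ 20 ≤ 2 ^ 20 * lam * (HeadAut.revs c T + 1) := by
      rw [mul_assoc]
      exact Nat.le_mul_of_pos_right _ (by positivity)
    refine ⟨h1.trans h2, le_trans ?_ h3⟩
    have : (1024 : ℕ) ≤ 2 ^ 20 := by norm_num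
    omega
  · by_contra hcon
    push Not at hcon
    refine no_cheap M hl' (l / (600 * lam)) lam hs hlam1 (Nat.mul_div_le l (600 * lam)) hM' ?_
    intro x y z hsg
    obtain ⟨T, c, hc, hsmall⟩ := hcon (W x y z) ((W_mem_lang x y z hl).2 hsg) (W_length x y z)
    refine ⟨T, c, hc, ?_⟩
    have hle : ∀ b : ℕ, 600 * lam * b ≤ l → b ≤ l / (600 * lam) := by
      intro b hb
      rw [Nat.le_div_iff_mul_le (by positivity)]
      rw [mul_comm]; exact hb
    by_cases h1 : l ^ 2 ≤ 2 ^ 20 * lam * (T + 1)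
    · -- few reversals
      have h2 := hsmall h1
      refine ⟨l, by simp; omega, 3 * l, by simp; omega, hle _ ?_⟩
      have hb := bcount_le_revs M l (3 * l) hc
      calc 600 * lam * bcount (ow M l (3 * l)) c T ≤ 600 * lam * (4 * (HeadAut.revs c T + 1)) :=
            Nat.mul_le_mul_left _ hb
        _ = 2400 * lam * (HeadAut.revs c T + 1) := by ring
        _ ≤ 2 ^ 20 * lam * (HeadAut.revs c T + 1) := by
            refine Nat.mul_le_mul_right _ (Nat.mul_le_mul_right _ (by norm_num))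
        _ ≤ l := h2.le
    · -- short
      push Not at h1
      obtain ⟨c1, hc1, c2, hc2, hb⟩ := exists_lines M l hc
      refine ⟨c1, hc1, c2, hc2, hle _ ?_⟩
      set b := bcount (ow M c1 c2) c T with hbdef
      by_contra hgt
      push Not at hgt
      -- l < 600 lam b, (l+1) b ≤ 4 T, 2^20 lam (T+1) < l^2
      have e1 : (l + 1) * (600 * lam * b) ≤ 2400 * lam * T := by
        calc (l + 1) * (600 * lam * b) = 600 * lam * ((l + 1) * b) := by ring
          _ ≤ 600 * lam * (4 * T) := Nat.mul_le_mul_left _ hb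
          _ = 2400 * lam * T := by ring
      have e2 : 2400 * lam * T ≤ 2 ^ 20 * lam * (T + 1) := by
        calc 2400 * lam * T ≤ 2 ^ 20 * lam * T :=
              Nat.mul_le_mul_right _ (Nat.mul_le_mul_right _ (by norm_num))
          _ ≤ _ := Nat.mul_le_mul_left _ (by omega)
      have e3 : (l + 1) * l ≤ (l + 1) * (600 * lam * b) := Nat.mul_le_mul_left _ hgt.le
      nlinarith

end Two

end Pool.Agent.L0h32.HA
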