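import Pool.Agent.L0h32.HA.Words
import Pool.Agent.L0h32.HA.Disc

/-!
# A deterministic two-way one-head pushdown automaton for the generalized inner product
-/

namespace Pool.Agent.L0h32.HA

/-- The states of the pushdown automaton. -/
inductive St : Type where
  | S : St
  | A : Bool → St
  | B : Bool → Bool → St
  | C : Bool → Bool → St
  | D : Bool → Bool → St
  | E : Bool → Bool → St
  | F : Bool → St
  | G : Bool → St
  | Acc : St
  deriving DecidableEq, Fintype

/-- The instructions of the pushdown automaton: state, cell, top symbol (`true` is the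
counting symbol, `false` the bottom symbol) give the new state, the move and the word
replacing the top symbol. -/
def tr : St → Cell Sym → Bool → Option (St × SignType × List Bool)
  | .S, .left, false => some (.S, 1, [false])
  | .S, .sym (.x _), false => some (.S, 1, [false])
  | .S, .sym .a, false => some (.A false, -1, [false])
  | .A p, .sym (.x v), false => some (.B p v, 1, [false])
  | .A true, .left, false => some (.Acc, 0, [false])
  | .B p v, .sym (.x _), g => some (.B p v, 1, [true, g])
  | .B p v, .sym .a, g => some (.B p v, 1, [g])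
  | .B p v, .sym (.y _), g => some (.B p v, 1, [g])
  | .B p v, .sym .b, g => some (.C p v, -1, [g])
  | .C p v, .sym (.y _), true => some (.C p v, -1, [])
  | .C p v, .sym (.y u), false => some (.D p (v && u), 1, [false])
  | .D p v, .sym (.y _), g => some (.D p v, 1, [true, g])
  | .D p v, .sym .b, g => some (.D p v, 1, [g])
  | .D p v, .sym (.z _), g => some (.D p v, 1, [g])
  | .D p v, .right, g => some (.E p v, -1, [g])
  | .E p v, .sym (.z _), true => some (.E p v, -1, [])
  | .E p v, .sym (.z u), false => some (.F (xor p (v && u)), 1, [false])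
  | .F p, .sym (.z _), g => some (.F p, 1, [true, g])
  | .F p, .right, g => some (.G p, -1, [g])
  | .G p, .sym (.z _), g => some (.G p, -1, [g])
  | .G p, .sym .b, g => some (.G p, -1, [g])
  | .G p, .sym (.y _), g => some (.G p, -1, [g])
  | .G p, .sym .a, g => some (.G p, -1, [g])
  | .G p, .sym (.x _), true => some (.G p, -1, [])
  | .G p, .sym (.x _), false => some (.A p, -1, [false])
  | _, _, _ => none

/-- The pushdown automaton. -/
def P : PushAut 1 Sym where
  Q := St
  finQ := inferInstance
  G := Bool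
  finG := inferInstance
  start := .S
  bot := false
  acc := {St.Acc}
  δ q σ g q' m γ := tr q (σ 0) g = some (q', m 0, γ)
  finδ := by
    intro q σ g
    apply Set.Subsingleton.finite
    rintro ⟨q1, m1, γ1⟩ h1 ⟨q2, m2, γ2⟩ h2
    have h1 : tr q (σ 0) g = some (q1, m1 0, γ1) := h1
    have h2 : tr q (σ 0) g = some (q2, m2 0, γ2) := h2
    rw [h1] at h2
    simp only [Option.some.injEq, Prod.mk.injEq] at h2
    obtain ⟨rfl, h, rfl⟩ := h2
    have : m1 = m2 := by
      funext i
      rw [Subsingleton.elim i 0, h]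
    rw [this]

lemma P_det : P.Deterministic := by
  rintro w ⟨q, p, s⟩ ⟨q1, p1, s1⟩ ⟨q2, p2, s2⟩ ⟨m1, g1, r1, γ1, a1, a2, a3, a4, a5⟩
    ⟨m2, g2, r2, γ2, b1, b2, b3, b4, b5⟩
  replace a1 : s = g1 :: r1 := a1
  replace b1 : s = g2 :: r2 := b1
  replace a2 : s1 = γ1 ++ r1 := a2
  replace b2 : s2 = γ2 ++ r2 := b2
  replace a4 : ∀ i, ((p1 i : ℕ) : ℤ) = (p i : ℤ) + (m1 i : ℤ) := a4
  replace b4 : ∀ i, ((p2 i : ℕ) : ℤ) = (p i : ℤ) + (m2 i : ℤ) := b4
  have a3' : tr q (cell w (p 0)) g1 = some (q1, m1 0, γ1) := a3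
  have b3' : tr q (cell w (p 0)) g2 = some (q2, m2 0, γ2) := b3
  rw [a1] at b1
  obtain ⟨c1, c2⟩ := List.cons.inj b1
  subst c1 c2
  rw [a3'] at b3'
  have b4' := Option.some.inj b3'
  obtain ⟨k1, k2⟩ := Prod.mk.inj b4'
  obtain ⟨h, k3⟩ := Prod.mk.inj k2
  have hp : p1 = p2 := by
    funext i
    have e1 := a4 i
    have e2 := b4 i
    have hm : m1 i = m2 i := by rw [Subsingleton.elim i 0, h]
    rw [hm] at e1
    omega
  rw [k1, hp, a2, b2, k3]

/-- Configurations of the automaton. -/
def cf (q : St) (p : ℕ) (s : List Bool) : P.Cfg := (q, (fun _ => p), s)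

/-- Reachability on a given word. -/
abbrev Re (w : List Sym) : P.Cfg → P.Cfg → Prop := Relation.ReflTransGen (P.Step w)

lemma step_right {w : List Sym} {q q' : St} {p : ℕ} {g : Bool} {r γ : List Bool}
    (h : tr q (cell w p) g = some (q', 1, γ)) (hp : p + 1 ≤ w.length + 1) :
    P.Step w (cf q p (g :: r)) (cf q' (p + 1) (γ ++ r)) :=
  ⟨fun _ => 1, g, r, γ, rfl, rfl, h, fun _ => by simp [cf], fun _ => hp⟩

lemma step_left {w : List Sym} {q q' : St} {p : ℕ} {g : Bool} {r γ : List Bool}
    (h : tr q (cell w (p + 1)) g = some (q', -1, γ)) (hp : p ≤ w.length + 1) :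
    P.Step w (cf q (p + 1) (g :: r)) (cf q' p (γ ++ r)) :=
  ⟨fun _ => -1, g, r, γ, rfl, rfl, h, fun _ => by simp [cf], fun _ => hp⟩

lemma step_stay {w : List Sym} {q q' : St} {p : ℕ} {g : Bool} {r γ : List Bool}
    (h : tr q (cell w p) g = some (q', 0, γ)) (hp : p ≤ w.length + 1) :
    P.Step w (cf q p (g :: r)) (cf q' p (γ ++ r)) :=
  ⟨fun _ => 0, g, r, γ, rfl, rfl, h, fun _ => by simp [cf], fun _ => hp⟩

lemma mvR0 {w : List Sym} {q q' : St} {p : ℕ}
    (h : tr q (cell w p) false = some (q', 1, [false])) (hp : p + 1 ≤ w.length + 1) :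
    P.Step w (cf q p [false]) (cf q' (p + 1) [false]) :=
  step_right (r := []) (γ := [false]) h hp

lemma mvL {w : List Sym} {q q' : St} {p : ℕ} {g : Bool} {r : List Bool}
    (h : tr q (cell w (p + 1)) g = some (q', -1, [g])) (hp : p ≤ w.length + 1) :
    P.Step w (cf q (p + 1) (g :: r)) (cf q' p (g :: r)) :=
  step_left (γ := [g]) h hp

lemma mvL0 {w : List Sym} {q q' : St} {p : ℕ}
    (h : tr q (cell w (p + 1)) false = some (q', -1, [false])) (hp : p ≤ w.length + 1) :
    P.Step w (cf q (p + 1) [false]) (cf q' p [false]) :=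
  step_left (r := []) (γ := [false]) h hp

lemma mvS0 {w : List Sym} {q q' : St} {p : ℕ}
    (h : tr q (cell w p) false = some (q', 0, [false])) (hp : p ≤ w.length + 1) :
    P.Step w (cf q p [false]) (cf q' p [false]) :=
  step_stay (r := []) (γ := [false]) h hp

/-- The pushdown store with `j` counting symbols. -/
def stk : ℕ → List Bool
  | 0 => [false]
  | j + 1 => true :: stk j

lemma stk_cons (j : ℕ) : ∃ g r, stk j = g :: r := by
  cases j with
  | zero => exact ⟨_, _, rfl⟩
  | succ j => exact ⟨_, _, rfl⟩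

lemma sweepR_keep {w : List Sym} {q : St} {p n j : ℕ}
    (h : ∀ i < n, ∀ g, tr q (cell w (p + i)) g = some (q, 1, [g]))
    (hp : p + n ≤ w.length + 1) : Re w (cf q p (stk j)) (cf q (p + n) (stk j)) := by
  induction n with
  | zero => exact Relation.ReflTransGen.refl
  | succ n ih =>
    refine (ih (fun i hi => h i (by omega)) (by omega)).tail ?_
    obtain ⟨g, r, hg⟩ := stk_cons j
    rw [hg]
    exact step_right (r := r) (h n (by omega) g) (by omega)

lemma sweepR_keep0 {w : List Sym} {q : St} {p n : ℕ}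
    (h : ∀ i < n, tr q (cell w (p + i)) false = some (q, 1, [false]))
    (hp : p + n ≤ w.length + 1) : Re w (cf q p (stk 0)) (cf q (p + n) (stk 0)) := by
  induction n with
  | zero => exact Relation.ReflTransGen.refl
  | succ n ih =>
    refine (ih (fun i hi => h i (by omega)) (by omega)).tail ?_
    exact mvR0 (h n (by omega)) (by omega)

lemma sweepL_keep {w : List Sym} {q : St} {p n j : ℕ}
    (h : ∀ i < n, ∀ g, tr q (cell w (p + i + 1)) g = some (q, -1, [g]))
    (hp : p + n ≤ w.length + 1) : Re w (cf q (p + n) (stk j)) (cf q p (stk j)) := by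
  induction n with
  | zero => exact Relation.ReflTransGen.refl
  | succ n ih =>
    refine Relation.ReflTransGen.head ?_ (ih (fun i hi => h i (by omega)) (by omega))
    obtain ⟨g, r, hg⟩ := stk_cons j
    rw [hg]
    exact step_left (r := r) (h n (by omega) g) (by omega)

lemma sweepR_push {w : List Sym} {q : St} {p n j : ℕ}
    (h : ∀ i < n, ∀ g, tr q (cell w (p + i)) g = some (q, 1, [true, g]))
    (hp : p + n ≤ w.length + 1) : Re w (cf q p (stk j)) (cf q (p + n) (stk (j + n))) := by
  induction n with
  | zero => exact Relation.ReflTransGen.refl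
  | succ n ih =>
    refine (ih (fun i hi => h i (by omega)) (by omega)).tail ?_
    obtain ⟨g, r, hg⟩ := stk_cons (j + n)
    have := step_right (r := r) (h n (by omega) g) (by omega)
    rw [← add_assoc, ← add_assoc, stk, hg]
    exact this

lemma sweepL_pop {w : List Sym} {q : St} {p n : ℕ}
    (h : ∀ i < n, tr q (cell w (p + i + 1)) true = some (q, -1, []))
    (hp : p + n ≤ w.length + 1) : Re w (cf q (p + n) (stk n)) (cf q p (stk 0)) := by
  induction n with
  | zero => exact Relation.ReflTransGen.refl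
  | succ n ih =>
    refine Relation.ReflTransGen.head ?_ (ih (fun i hi => h i (by omega)) (by omega))
    exact step_left (r := stk n) (h n (by omega)) (by omega)

variable {l : ℕ}

lemma cell_x' (x y z : Fin l → Bool) {p : ℕ} (h1 : 0 < p) (h2 : p ≤ l) :
    ∃ b, cell (W x y z) p = Cell.sym (Sym.x b) := by
  have e : p = ((⟨p - 1, by omega⟩ : Fin l) : ℕ) + 1 := by simp; omega
  rw [e, cell_x]; exact ⟨_, rfl⟩

lemma cell_y' (x y z : Fin l → Bool) {p : ℕ} (h1 : 2 * l < p) (h2 : p ≤ 3 * l) :
    ∃ b, cell (W x y z) p = Cell.sym (Sym.y b) := by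
  have e : p = 2 * l + ((⟨p - 1 - 2 * l, by omega⟩ : Fin l) : ℕ) + 1 := by simp; omega
  rw [e, cell_y]; exact ⟨_, rfl⟩

lemma cell_z' (x y z : Fin l → Bool) {p : ℕ} (h1 : 4 * l < p) (h2 : p ≤ 5 * l) :
    ∃ b, cell (W x y z) p = Cell.sym (Sym.z b) := by
  have e : p = 4 * l + ((⟨p - 1 - 4 * l, by omega⟩ : Fin l) : ℕ) + 1 := by simp; omega
  rw [e, cell_z]; exact ⟨_, rfl⟩

/-- One round of the automaton. -/
lemma round (x y z : Fin l → Bool) (p : Bool) (t : Fin l) :
    Re (W x y z) (cf (.A p) (t + 1) (stk 0))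
      (cf (.A (xor p ((x t && y t) && z t))) t (stk 0)) := by
  have ht := t.2
  have hl := W_length x y z
  set w := W x y z with hw
  -- 1
  have s1 : Re w (cf (.A p) (t + 1) (stk 0)) (cf (.B p (x t)) (t + 2) (stk 0)) :=
    Relation.ReflTransGen.single (mvR0
      (by rw [hw, cell_x]; rfl) (by omega))
  -- 2
  have s2 : Re w (cf (.B p (x t)) (t + 2) (stk 0)) (cf (.B p (x t)) (l + 1) (stk (l - t - 1))) := by
    have := sweepR_push (w := w) (q := .B p (x t)) (p := t + 2) (n := l - t - 1) (j := 0)
      (by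
        intro i hi g
        obtain ⟨b, hb⟩ := cell_x' x y z (p := t + 2 + i) (by omega) (by omega)
        rw [hw, hb]; rfl) (by omega)
    rw [zero_add, show (t : ℕ) + 2 + (l - t - 1) = l + 1 by omega] at this
    exact this
  -- 3
  have s3 : Re w (cf (.B p (x t)) (l + 1) (stk (l - t - 1)))
      (cf (.B p (x t)) (3 * l + 1) (stk (l - t - 1))) := by
    have := sweepR_keep (w := w) (q := .B p (x t)) (p := l + 1) (n := 2 * l) (j := l - t - 1)
      (by
        intro i hi g
        rcases Nat.lt_or_ge (2 * l) (l + 1 + i) with h | h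
        · obtain ⟨b, hb⟩ := cell_y' x y z (p := l + 1 + i) (by omega) (by omega)
          rw [hw, hb]; rfl
        · rw [hw, cell_a _ _ _ (by omega) h]; rfl) (by omega)
    rw [show l + 1 + 2 * l = 3 * l + 1 by omega] at this
    exact this
  -- 4
  have s4 : Re w (cf (.B p (x t)) (3 * l + 1) (stk (l - t - 1)))
      (cf (.C p (x t)) (3 * l) (stk (l - t - 1))) := by
    obtain ⟨g, r, hg⟩ := stk_cons (l - t - 1)
    rw [hg]
    exact Relation.ReflTransGen.single (mvL
      (by rw [hw, cell_b _ _ _ (by omega) (by omega)]; rfl) (by omega))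
  -- 5
  have s5 : Re w (cf (.C p (x t)) (3 * l) (stk (l - t - 1)))
      (cf (.C p (x t)) (2 * l + t + 1) (stk 0)) := by
    have := sweepL_pop (w := w) (q := .C p (x t)) (p := 2 * l + t + 1) (n := l - t - 1)
      (by
        intro i hi
        obtain ⟨b, hb⟩ := cell_y' x y z (p := 2 * l + t + 1 + i + 1) (by omega) (by omega)
        rw [hw, hb]; rfl) (by omega)
    rw [show 2 * l + (t : ℕ) + 1 + (l - t - 1) = 3 * l by omega] at this
    exact this
  -- 6
  have s6 : Re w (cf (.C p (x t)) (2 * l + t + 1) (stk 0))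
      (cf (.D p (x t && y t)) (2 * l + t + 2) (stk 0)) :=
    Relation.ReflTransGen.single (mvR0
      (by rw [hw, cell_y]; rfl) (by omega))
  -- 7
  have s7 : Re w (cf (.D p (x t && y t)) (2 * l + t + 2) (stk 0))
      (cf (.D p (x t && y t)) (3 * l + 1) (stk (l - t - 1))) := by
    have := sweepR_push (w := w) (q := .D p (x t && y t)) (p := 2 * l + t + 2)
      (n := l - t - 1) (j := 0)
      (by
        intro i hi g
        obtain ⟨b, hb⟩ := cell_y' x y z (p := 2 * l + t + 2 + i) (by omega) (by omega)
        rw [hw, hb]; rfl) (by omega)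
    rw [zero_add, show 2 * l + (t : ℕ) + 2 + (l - t - 1) = 3 * l + 1 by omega] at this
    exact this
  -- 8
  have s8 : Re w (cf (.D p (x t && y t)) (3 * l + 1) (stk (l - t - 1)))
      (cf (.D p (x t && y t)) (5 * l + 1) (stk (l - t - 1))) := by
    have := sweepR_keep (w := w) (q := .D p (x t && y t)) (p := 3 * l + 1) (n := 2 * l)
      (j := l - t - 1)
      (by
        intro i hi g
        rcases Nat.lt_or_ge (4 * l) (3 * l + 1 + i) with h | h
        · obtain ⟨b, hb⟩ := cell_z' x y z (p := 3 * l + 1 + i) (by omega) (by omega)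
          rw [hw, hb]; rfl
        · rw [hw, cell_b _ _ _ (by omega) h]; rfl) (by omega)
    rw [show 3 * l + 1 + 2 * l = 5 * l + 1 by omega] at this
    exact this
  -- 9
  have s9 : Re w (cf (.D p (x t && y t)) (5 * l + 1) (stk (l - t - 1)))
      (cf (.E p (x t && y t)) (5 * l) (stk (l - t - 1))) := by
    obtain ⟨g, r, hg⟩ := stk_cons (l - t - 1)
    rw [hg]
    exact Relation.ReflTransGen.single (mvL
      (by rw [hw, cell_right _ _ _ (by omega)]; rfl) (by omega))
  -- 10
  have s10 : Re w (cf (.E p (x t && y t)) (5 * l) (stk (l - t - 1)))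
      (cf (.E p (x t && y t)) (4 * l + t + 1) (stk 0)) := by
    have := sweepL_pop (w := w) (q := .E p (x t && y t)) (p := 4 * l + t + 1) (n := l - t - 1)
      (by
        intro i hi
        obtain ⟨b, hb⟩ := cell_z' x y z (p := 4 * l + t + 1 + i + 1) (by omega) (by omega)
        rw [hw, hb]; rfl) (by omega)
    rw [show 4 * l + (t : ℕ) + 1 + (l - t - 1) = 5 * l by omega] at this
    exact this
  -- 11
  have s11 : Re w (cf (.E p (x t && y t)) (4 * l + t + 1) (stk 0))
      (cf (.F (xor p ((x t && y t) && z t))) (4 * l + t + 2) (stk 0)) :=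
    Relation.ReflTransGen.single (mvR0
      (by rw [hw, cell_z]; rfl) (by omega))
  set p' := xor p ((x t && y t) && z t) with hp'
  -- 12
  have s12 : Re w (cf (.F p') (4 * l + t + 2) (stk 0))
      (cf (.F p') (5 * l + 1) (stk (l - t - 1))) := by
    have := sweepR_push (w := w) (q := .F p') (p := 4 * l + t + 2)
      (n := l - t - 1) (j := 0)
      (by
        intro i hi g
        obtain ⟨b, hb⟩ := cell_z' x y z (p := 4 * l + t + 2 + i) (by omega) (by omega)
        rw [hw, hb]; rfl) (by omega)
    rw [zero_add, show 4 * l + (t : ℕ) + 2 + (l - t - 1) = 5 * l + 1 by omega] at this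
    exact this
  -- 13
  have s13 : Re w (cf (.F p') (5 * l + 1) (stk (l - t - 1)))
      (cf (.G p') (5 * l) (stk (l - t - 1))) := by
    obtain ⟨g, r, hg⟩ := stk_cons (l - t - 1)
    rw [hg]
    exact Relation.ReflTransGen.single (mvL
      (by rw [hw, cell_right _ _ _ (by omega)]; rfl) (by omega))
  -- 14
  have s14 : Re w (cf (.G p') (5 * l) (stk (l - t - 1)))
      (cf (.G p') l (stk (l - t - 1))) := by
    have := sweepL_keep (w := w) (q := .G p') (p := l) (n := 4 * l) (j := l - t - 1)
      (by
        intro i hi g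
        rcases Nat.lt_or_ge (2 * l) (l + i + 1) with h | h
        · rcases Nat.lt_or_ge (3 * l) (l + i + 1) with h' | h'
          · rcases Nat.lt_or_ge (4 * l) (l + i + 1) with h'' | h''
            · obtain ⟨b, hb⟩ := cell_z' x y z (p := l + i + 1) (by omega) (by omega)
              rw [hw, hb]; rfl
            · rw [hw, cell_b _ _ _ (by omega) h'']; rfl
          · obtain ⟨b, hb⟩ := cell_y' x y z (p := l + i + 1) (by omega) (by omega)
            rw [hw, hb]; rfl
        · rw [hw, cell_a _ _ _ (by omega) h]; rfl) (by omega)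
    rw [show l + 4 * l = 5 * l by omega] at this
    exact this
  -- 15
  have s15 : Re w (cf (.G p') l (stk (l - t - 1))) (cf (.G p') (t + 1) (stk 0)) := by
    have := sweepL_pop (w := w) (q := .G p') (p := t + 1) (n := l - t - 1)
      (by
        intro i hi
        obtain ⟨b, hb⟩ := cell_x' x y z (p := t + 1 + i + 1) (by omega) (by omega)
        rw [hw, hb]; rfl) (by omega)
    rw [show (t : ℕ) + 1 + (l - t - 1) = l by omega] at this
    exact this
  -- 16
  have s16 : Re w (cf (.G p') (t + 1) (stk 0)) (cf (.A p') t (stk 0)) :=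
    Relation.ReflTransGen.single (mvL0
      (by rw [hw, cell_x]; rfl) (by omega))
  exact s1.trans (s2.trans (s3.trans (s4.trans (s5.trans (s6.trans (s7.trans (s8.trans
    (s9.trans (s10.trans (s11.trans (s12.trans (s13.trans (s14.trans (s15.trans s16))))))))))))))

/-- The sign of the parity bit. -/
def sgn (p : Bool) : ℤ := if p then -1 else 1

lemma sgn_xor (p a b c : Bool) : sgn (xor p ((a && b) && c)) = sgn p * sb a b c := by
  cases p <;> cases a <;> cases b <;> cases c <;> rfl

lemma rounds (x y z : Fin l → Bool) : ∀ n ≤ l, ∀ p : Bool, ∃ p' : Bool,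
    Re (W x y z) (cf (.A p) n (stk 0)) (cf (.A p') 0 (stk 0)) ∧
    sgn p' = sgn p * ∏ t ∈ Finset.univ.filter (fun t : Fin l => (t : ℕ) < n),
      sb (x t) (y t) (z t) := by
  intro n
  induction n with
  | zero =>
    intro _ p
    exact ⟨p, Relation.ReflTransGen.refl, by simp⟩
  | succ n ih =>
    intro hn p
    have h1 := round x y z p ⟨n, by omega⟩
    obtain ⟨p', h2, h3⟩ := ih (by omega)
      (xor p ((x ⟨n, by omega⟩ && y ⟨n, by omega⟩) && z ⟨n, by omega⟩))
    refine ⟨p', h1.trans h2, ?_⟩
    rw [h3, sgn_xor]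
    have hs : Finset.univ.filter (fun t : Fin l => (t : ℕ) < n + 1) =
        insert (⟨n, by omega⟩ : Fin l) (Finset.univ.filter (fun t : Fin l => (t : ℕ) < n)) := by
      ext t
      simp only [Finset.mem_filter, Finset.mem_univ, true_and, Finset.mem_insert, Fin.ext_iff]
      omega
    rw [hs, Finset.prod_insert (by simp)]
    ring

/-- The whole computation up to the last configuration. -/
lemma run_P (x y z : Fin l → Bool) (hl : 1 ≤ l) : ∃ p' : Bool,
    Re (W x y z) P.init (cf (.A p') 0 (stk 0)) ∧ sgn p' = sg x y z := by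
  have hlen := W_length x y z
  obtain ⟨p', h1, h2⟩ := rounds x y z l le_rfl false
  refine ⟨p', ?_, ?_⟩
  · have s1 : Re (W x y z) P.init (cf .S 1 (stk 0)) :=
      Relation.ReflTransGen.single (mvR0 (q := .S) (p := 0) (by rw [cell_zero]; rfl) (by omega))
    have s2 : Re (W x y z) (cf .S 1 (stk 0)) (cf .S (l + 1) (stk 0)) := by
      have := sweepR_keep0 (w := W x y z) (q := .S) (p := 1) (n := l)
        (by
          intro i hi
          obtain ⟨b, hb⟩ := cell_x' x y z (p := 1 + i) (by omega) (by omega)
          rw [hb]; rfl) (by omega)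
      rw [show 1 + l = l + 1 by omega] at this
      exact this
    have s3 : Re (W x y z) (cf .S (l + 1) (stk 0)) (cf (.A false) l (stk 0)) :=
      Relation.ReflTransGen.single (mvL0
        (by rw [cell_a _ _ _ (by omega) (by omega)]; rfl) (by omega))
    exact s1.trans (s2.trans (s3.trans h1))
  · rw [h2]
    have : Finset.univ.filter (fun t : Fin l => (t : ℕ) < l) = Finset.univ := by
      ext t; simp
    rw [this]
    simp [sgn, sg]

lemma no_step_acc (w : List Sym) (c d : P.Cfg) (h : c.1 ∈ P.acc) : ¬ P.Step w c d := by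
  rintro ⟨m, g, r, γ, _, _, h3, _⟩
  have hc : c.1 = St.Acc := h
  have h3' : tr c.1 (cell w (c.2.1 0)) g = some (d.1, m 0, γ) := h3
  rw [hc] at h3'
  cases h3'

/-- The automaton accepts `x a^l y b^l z` if and only if `Σ x_t y_t z_t` is odd. -/
theorem W_mem_lang (x y z : Fin l → Bool) (hl : 1 ≤ l) :
    W x y z ∈ P.lang ↔ sg x y z = -1 := by
  obtain ⟨p', h1, h2⟩ := run_P x y z hl
  constructor
  · rintro ⟨c, hc, hacc⟩
    by_contra hne
    have hp : p' = false := by
      cases p' with
      | false => rfl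
      | true => exact absurd h2.symm hne
    subst hp
    have hhalt : ∀ d, ¬ P.Step (W x y z) (cf (.A false) 0 (stk 0)) d := by
      rintro d ⟨m, g, r, γ, e1, _, h3, _⟩
      have e1' : [false] = g :: r := e1
      obtain ⟨e2, _⟩ := List.cons.inj e1'
      subst e2
      have h3' : tr (.A false) (cell (W x y z) 0) false = some (d.1, m 0, γ) := h3
      rw [cell_zero] at h3'
      cases h3'
    have htot := Relation.ReflTransGen.total_of_right_unique
      (fun a b c hb hc => P_det (W x y z) a b c hb hc) h1 hc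
    rcases htot with h | h
    · rcases Relation.ReflTransGen.cases_head h with h | ⟨d, hd, _⟩
      · rw [← h] at hacc
        cases hacc
      · exact hhalt d hd
    · rcases Relation.ReflTransGen.cases_head h with h | ⟨d, hd, _⟩
      · rw [h] at hacc
        cases hacc
      · exact no_step_acc _ _ _ hacc hd
  · intro h
    have hp : p' = true := by
      cases p' with
      | true => rfl
      | false => rw [h] at h2; cases h2
    subst hp
    refine ⟨cf .Acc 0 (stk 0), h1.tail ?_, rfl⟩
    exact mvS0 (by rw [cell_zero]; rfl) (by omega)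

end Pool.Agent.L0h32.HA
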