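import Pool.Agent.L0h32.HA.Main

/-!
# Tables for short visits of the first head

While the second head stays in a window, the first head makes a visit to a zone `Z` of the
tape. The effect of such a visit depends only on the contents of the zone and of the window.
-/

namespace Pool.Agent.L0h32.HA

variable {A : Type} (M : HeadAut 2 A)

/-- The window of radius `D` around the position `h` of the second head; positions outside the
region `Reg` are blank. -/
def window (w : List A) (Reg : ℕ → Prop) [DecidablePred Reg] (D h : ℕ) (r : ℕ) :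
    Option (Cell A) :=
  if D ≤ h + r ∧ Reg (h + r - D) ∧ h + r - D ≤ w.length + 1 then some (cell w (h + r - D))
  else none

/-- The window as an element of a finite type. -/
def cutw {D : ℕ} (g : ℕ → Option (Cell A)) : Fin (2 * D + 1) → Option (Cell A) := fun r => g r

/-- The extension of a finite window. -/
def ext {D : ℕ} (g : Fin (2 * D + 1) → Option (Cell A)) (r : ℕ) : Option (Cell A) :=
  if h : r < 2 * D + 1 then g ⟨r, h⟩ else none

/-- A step of the automaton with the second head in a window `g`. -/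
def VStep (w : List A) (g : ℕ → Option (Cell A)) (s t : M.Q × ℕ × ℕ) : Prop :=
  ∃ (m : Fin 2 → SignType) (b : Cell A), g s.2.2 = some b ∧
    M.δ s.1 ![cell w s.2.1, b] t.1 m ∧ ((t.2.1 : ℕ) : ℤ) = (s.2.1 : ℤ) + (m 0 : ℤ) ∧
    ((t.2.2 : ℕ) : ℤ) = (s.2.2 : ℤ) + (m 1 : ℤ) ∧ t.2.1 ≤ w.length + 1 ∧ (g t.2.2).isSome

/-- A visit of the first head to the zone `Z`, starting and ending in the cell `a`, the second
head staying in the window `g`. -/
def Visit (w : List A) (Z : ℕ → Prop) (a : ℕ) (g : ℕ → Option (Cell A)) (D : ℕ) (q q' : M.Q)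
    (r : ℕ) : Prop :=
  ∃ s t : M.Q × ℕ × ℕ, VStep M w g (q, a, D) s ∧ Z s.2.1 ∧
    Relation.ReflTransGen (fun u v => VStep M w g u v ∧ Z u.2.1 ∧ Z v.2.1) s t ∧
    VStep M w g t (q', a, r)

/-- The real configuration of a virtual one. -/
def real (D h : ℕ) (s : M.Q × ℕ × ℕ) : M.Cfg := (s.1, ![s.2.1, h + s.2.2 - D])

variable {M}

lemma real_step {w : List A} {Reg : ℕ → Prop} [DecidablePred Reg] {D h : ℕ}
    {s t : M.Q × ℕ × ℕ} (hst : VStep M w (window w Reg D h) s t) :
    M.Step w (real M D h s) (real M D h t) := by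
  obtain ⟨m, b, h1, h2, h3, h4, h5, h6⟩ := hst
  unfold window at h1 h6
  split_ifs at h1 with h7
  split_ifs at h6 with h8
  · simp only [Option.some.injEq] at h1
    refine ⟨m, ?_, ?_, ?_⟩
    · have : (fun i => cell w ((real M D h s).2 i)) = ![cell w s.2.1, b] := by
        funext i
        fin_cases i
        · rfl
        · exact h1
      rw [this]
      exact h2
    · rw [Fin.forall_fin_two]
      refine ⟨h3, ?_⟩
      show (((h + t.2.2 - D : ℕ)) : ℤ) = ((h + s.2.2 - D : ℕ) : ℤ) + _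
      rw [Nat.cast_sub h8.1, Nat.cast_sub h7.1]
      push_cast
      linarith
    · rw [Fin.forall_fin_two]
      exact ⟨h5, h8.2.2⟩
  · simp at h6

/-- **Soundness of the tables.** -/
theorem visit_sound {w : List A} {Z : ℕ → Prop} {a : ℕ} {Reg : ℕ → Prop} [DecidablePred Reg]
    {D h : ℕ} {q q' : M.Q} {r : ℕ} (hv : Visit M w Z a (window w Reg D h) D q q' r) :
    Relation.ReflTransGen (M.Step w) (q, ![a, h]) (q', ![a, h + r - D]) := by
  obtain ⟨s, t, h1, _, h3, h4⟩ := hv
  have e1 : real M D h (q, a, D) = (q, ![a, h]) := by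
    simp [real]
  have e2 : real M D h (q', a, r) = (q', ![a, h + r - D]) := rfl
  rw [← e1, ← e2]
  have p1 := real_step h1
  have p3 := real_step h4
  have p2 : Relation.ReflTransGen (M.Step w) (real M D h s) (real M D h t) := by
    clear p3 h4 e2
    induction h3 with
    | refl => exact Relation.ReflTransGen.refl
    | tail _ hb ih => exact ih.tail (real_step hb.1)
  exact ((Relation.ReflTransGen.single p1).trans p2).tail p3

/-- The virtual configuration. -/
def virt (c : ℕ → M.Cfg) (D e t : ℕ) : M.Q × ℕ × ℕ :=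
  ((c t).1, (c t).2 0, (c t).2 1 + D - (c e).2 1)

lemma window_virt {w : List A} {Reg : ℕ → Prop} [DecidablePred Reg] {D : ℕ} {c : ℕ → M.Cfg}
    {e t : ℕ} (h1 : (c e).2 1 ≤ (c t).2 1 + D) (h2 : Reg ((c t).2 1))
    (h3 : (c t).2 1 ≤ w.length + 1) :
    window w Reg D ((c e).2 1) (virt c D e t).2.2 = some (cell w ((c t).2 1)) := by
  have e1 : (c e).2 1 + (virt c D e t).2.2 - D = (c t).2 1 := by
    simp only [virt]; omega
  unfold window
  rw [e1, if_pos ⟨by simp only [virt]; omega, h2, h3⟩]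

lemma virt_step {w : List A} {Reg : ℕ → Prop} [DecidablePred Reg] {D : ℕ} {c : ℕ → M.Cfg}
    {e t : ℕ} (hs : M.Step w (c t) (c (t + 1))) (hlt : (c t).2 1 ≤ w.length + 1)
    (h1 : (c e).2 1 ≤ (c t).2 1 + D) (h2 : Reg ((c t).2 1))
    (h3 : (c e).2 1 ≤ (c (t + 1)).2 1 + D) (h4 : Reg ((c (t + 1)).2 1)) :
    VStep M w (window w Reg D ((c e).2 1)) (virt c D e t) (virt c D e (t + 1)) := by
  obtain ⟨m, hm1, hm2, hm3⟩ := hs
  refine ⟨m, cell w ((c t).2 1), window_virt h1 h2 hlt, ?_, ?_, ?_, ?_, ?_⟩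
  · have : ![cell w (virt c D e t).2.1, cell w ((c t).2 1)] =
        (fun i => cell w ((c t).2 i)) := by
      funext i
      fin_cases i <;> rfl
    rw [this]
    exact hm1
  · exact hm2 0
  · have := hm2 1
    simp only [virt]
    omega
  · exact hm3 0
  · rw [window_virt h3 h4 (hm3 1)]
    rfl

/-- The table of a zone. -/
def table (M : HeadAut 2 A) (w : List A) (Z : ℕ → Prop) (a D : ℕ) :
    Set ((Fin (2 * D + 1) → Option (Cell A)) × M.Q × M.Q × Fin (2 * D + 1)) :=
  {v | Visit M w Z a (ext v.1) D v.2.1 v.2.2.1 v.2.2.2}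

lemma VStep.congr_g {w : List A} {g g' : ℕ → Option (Cell A)} {s t : M.Q × ℕ × ℕ}
    (h : VStep M w g s t) (hs : g s.2.2 = g' s.2.2) (ht : g t.2.2 = g' t.2.2) :
    VStep M w g' s t := by
  obtain ⟨m, b, h1, h2, h3, h4, h5, h6⟩ := h
  exact ⟨m, b, by rw [← hs]; exact h1, h2, h3, h4, h5, by rw [← ht]; exact h6⟩

lemma VStep.congr_w {w w' : List A} {g : ℕ → Option (Cell A)} {s t : M.Q × ℕ × ℕ}
    (h : VStep M w g s t) (hlen : w.length = w'.length)
    (hc : cell w s.2.1 = cell w' s.2.1) : VStep M w' g s t := by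
  obtain ⟨m, b, h1, h2, h3, h4, h5, h6⟩ := h
  exact ⟨m, b, h1, by rw [← hc]; exact h2, h3, h4, hlen ▸ h5, h6⟩

lemma Visit.congr_w {w w' : List A} {Z : ℕ → Prop} {a : ℕ} {g : ℕ → Option (Cell A)} {D : ℕ}
    {q q' : M.Q} {r : ℕ} (h : Visit M w Z a g D q q' r) (hlen : w.length = w'.length)
    (ha : cell w a = cell w' a) (hc : ∀ p, Z p → cell w p = cell w' p) :
    Visit M w' Z a g D q q' r := by
  obtain ⟨s, t, h1, h2, h3, h4⟩ := h
  have hZt : Z t.2.1 := by
    cases h3 with
    | refl => exact h2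
    | tail _ hb => exact hb.2.2
  refine ⟨s, t, h1.congr_w hlen ha, h2, ?_, h4.congr_w hlen (hc _ hZt)⟩
  clear h4 hZt
  induction h3 with
  | refl => exact Relation.ReflTransGen.refl
  | tail _ hb ih => exact ih.tail ⟨hb.1.congr_w hlen (hc _ hb.2.1), hb.2⟩

lemma table_congr {w w' : List A} {Z : ℕ → Prop} {a D : ℕ} (hlen : w.length = w'.length)
    (ha : cell w a = cell w' a) (hc : ∀ p, Z p → cell w p = cell w' p) :
    table M w Z a D = table M w' Z a D := by
  ext v
  exact ⟨fun h => Visit.congr_w h hlen ha hc,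
    fun h => Visit.congr_w h hlen.symm ha.symm fun p hp => (hc p hp).symm⟩

lemma ext_cutw {D : ℕ} (g : ℕ → Option (Cell A)) {r : ℕ} (h : r < 2 * D + 1) :
    ext (D := D) (cutw g) r = g r := by
  unfold ext cutw
  rw [dif_pos h]

lemma ext_none {D : ℕ} (g : Fin (2 * D + 1) → Option (Cell A)) {r : ℕ} (h : ¬ r < 2 * D + 1) :
    ext g r = none := by
  unfold ext
  rw [dif_neg h]

lemma VStep.of_ext {w : List A} {D : ℕ} {g : ℕ → Option (Cell A)} {s t : M.Q × ℕ × ℕ}
    (h : VStep M w (ext (D := D) (cutw g)) s t) : VStep M w g s t := by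
  have h1 : s.2.2 < 2 * D + 1 := by
    by_contra hcon
    obtain ⟨m, b, h1, _⟩ := h
    rw [ext_none _ hcon] at h1
    cases h1
  have h2 : t.2.2 < 2 * D + 1 := by
    by_contra hcon
    obtain ⟨m, b, _, _, _, _, _, h2⟩ := h
    rw [ext_none _ hcon] at h2
    cases h2
  exact h.congr_g (ext_cutw g h1) (ext_cutw g h2)

lemma Visit.congr_step {w w' : List A} {Z : ℕ → Prop} {a : ℕ} {g g' : ℕ → Option (Cell A)}
    {D : ℕ} {q q' : M.Q} {r : ℕ} (h : Visit M w Z a g D q q' r)
    (hst : ∀ s t, VStep M w g s t → VStep M w' g' s t) : Visit M w' Z a g' D q q' r := by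
  obtain ⟨s, t, h1, h2, h3, h4⟩ := h
  refine ⟨s, t, hst _ _ h1, h2, ?_, hst _ _ h4⟩
  clear h4
  induction h3 with
  | refl => exact Relation.ReflTransGen.refl
  | tail _ hb ih => exact ih.tail ⟨hst _ _ hb.1, hb.2⟩

lemma table_sound {w : List A} {Z : ℕ → Prop} {a : ℕ} {Reg : ℕ → Prop} [DecidablePred Reg]
    {D h : ℕ} {q q' : M.Q} {r : Fin (2 * D + 1)}
    (hv : (cutw (window w Reg D h), q, q', r) ∈ table M w Z a D) :
    Relation.ReflTransGen (M.Step w) (q, ![a, h]) (q', ![a, h + r - D]) :=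
  visit_sound (Visit.congr_step hv fun _ _ h => h.of_ext)

/-- **Completeness of the tables.** -/
theorem visit_complete_ext {w : List A} {Z : ℕ → Prop} {a : ℕ} {Reg : ℕ → Prop}
    [DecidablePred Reg] {D : ℕ} {c : ℕ → M.Cfg} {e t : ℕ} (het : e + 1 < t)
    (hs : ∀ u, e ≤ u → u < t → M.Step w (c u) (c (u + 1)))
    (hb : ∀ u, e ≤ u → u ≤ t → (c u).2 1 ≤ w.length + 1)
    (hD : ∀ u, e ≤ u → u ≤ t → (c e).2 1 ≤ (c u).2 1 + D)
    (hD' : ∀ u, e ≤ u → u ≤ t → (c u).2 1 ≤ (c e).2 1 + D)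
    (hR : ∀ u, e ≤ u → u ≤ t → Reg ((c u).2 1))
    (hZ : ∀ u, e < u → u < t → Z ((c u).2 0))
    (ha : (c e).2 0 = a) (ha' : (c t).2 0 = a) :
    Visit M w Z a (ext (D := D) (cutw (window w Reg D ((c e).2 1)))) D (c e).1 (c t).1
      ((c t).2 1 + D - (c e).2 1) := by
  have hst : ∀ u, e ≤ u → u < t → VStep M w (ext (D := D) (cutw (window w Reg D ((c e).2 1))))
      (virt c D e u) (virt c D e (u + 1)) := by
    intro u h1 h2
    have h3 := virt_step (D := D) (hs u h1 h2) (hb u h1 h2.le) (hD u h1 h2.le) (hR u h1 h2.le)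
      (hD (u + 1) (by omega) (by omega)) (hR (u + 1) (by omega) (by omega))
    have h4 := hD' u h1 h2.le
    have h5 := hD' (u + 1) (by omega) (by omega)
    exact h3.congr_g (ext_cutw _ (by simp only [virt]; omega)).symm
      (ext_cutw _ (by simp only [virt]; omega)).symm
  refine ⟨virt c D e (e + 1), virt c D e (t - 1), ?_, ?_, ?_, ?_⟩
  · have := hst e le_rfl (by omega)
    have e1 : virt c D e e = ((c e).1, a, D) := by
      simp only [virt, ha]
      congr 2
      omega
    rwa [e1] at this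
  · exact hZ _ (by omega) het
  · have key : ∀ n, e + 1 + n ≤ t - 1 →
        Relation.ReflTransGen (fun u v =>
          VStep M w (ext (D := D) (cutw (window w Reg D ((c e).2 1)))) u v ∧
          Z u.2.1 ∧ Z v.2.1) (virt c D e (e + 1)) (virt c D e (e + 1 + n)) := by
      intro n
      induction n with
      | zero => intro _; exact Relation.ReflTransGen.refl
      | succ n ih =>
        intro hn
        refine (ih (by omega)).tail ⟨hst _ (by omega) (by omega), ?_, ?_⟩
        · exact hZ _ (by omega) (by omega)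
        · exact hZ _ (by omega) (by omega)
    have := key (t - 1 - (e + 1)) (by omega)
    rwa [show e + 1 + (t - 1 - (e + 1)) = t - 1 by omega] at this
  · have := hst (t - 1) (by omega) (by omega)
    rw [show t - 1 + 1 = t by omega] at this
    have e1 : virt c D e t = ((c t).1, a, (c t).2 1 + D - (c e).2 1) := by
      simp only [virt, ha']
    rwa [e1] at this

/-- The shortcuts given by a table. -/
def Sc (M : HeadAut 2 A) (w : List A) (a : ℕ) (Reg : ℕ → Prop) [DecidablePred Reg] (D : ℕ)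
    (τ : Set ((Fin (2 * D + 1) → Option (Cell A)) × M.Q × M.Q × Fin (2 * D + 1)))
    (u v : M.Cfg) : Prop :=
  u.2 0 = a ∧ v.2 0 = a ∧ Reg (u.2 1) ∧ Reg (v.2 1) ∧ ∃ r : Fin (2 * D + 1),
    v.2 1 = u.2 1 + r - D ∧ (cutw (window w Reg D (u.2 1)), u.1, v.1, r) ∈ τ

lemma Sc.sound {w : List A} {Z : ℕ → Prop} {a : ℕ} {Reg : ℕ → Prop} [DecidablePred Reg]
    {D : ℕ} {u v : M.Cfg} (h : Sc M w a Reg D (table M w Z a D) u v) :
    Relation.ReflTransGen (M.Step w) u v := by
  obtain ⟨h1, h2, _, _, r, h5, h6⟩ := h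
  have h7 := table_sound h6
  have e1 : u = (u.1, ![a, u.2 1]) := by
    refine Prod.ext rfl ?_
    funext i
    fin_cases i
    · exact h1
    · rfl
  have e2 : v = (v.1, ![a, u.2 1 + r - D]) := by
    refine Prod.ext rfl ?_
    funext i
    fin_cases i
    · exact h2
    · exact h5
  rw [e1, e2]
  exact h7

lemma Sc.complete {w : List A} {Z : ℕ → Prop} {a : ℕ} {Reg : ℕ → Prop}
    [DecidablePred Reg] {D : ℕ} {c : ℕ → M.Cfg} {e t : ℕ} (het : e + 1 < t)
    (hs : ∀ u, e ≤ u → u < t → M.Step w (c u) (c (u + 1)))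
    (hb : ∀ u, e ≤ u → u ≤ t → (c u).2 1 ≤ w.length + 1)
    (hD : ∀ u, e ≤ u → u ≤ t → (c e).2 1 ≤ (c u).2 1 + D)
    (hD' : ∀ u, e ≤ u → u ≤ t → (c u).2 1 ≤ (c e).2 1 + D)
    (hR : ∀ u, e ≤ u → u ≤ t → Reg ((c u).2 1))
    (hZ : ∀ u, e < u → u < t → Z ((c u).2 0))
    (ha : (c e).2 0 = a) (ha' : (c t).2 0 = a) :
    Sc M w a Reg D (table M w Z a D) (c e) (c t) := by
  have h1 := hD t (by omega) le_rfl
  have h2 := hD' t (by omega) le_rfl
  refine ⟨ha, ha', hR e le_rfl (by omega), hR t (by omega) le_rfl,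
    ⟨(c t).2 1 + D - (c e).2 1, by omega⟩, ?_, ?_⟩
  · show (c t).2 1 = (c e).2 1 + ((c t).2 1 + D - (c e).2 1) - D
    omega
  · show Visit M w Z a _ D _ _ _
    exact visit_complete_ext het hs hb hD hD' hR hZ ha ha'

lemma window_congr {w w' : List A} {Reg : ℕ → Prop} [DecidablePred Reg] {D h : ℕ}
    (hlen : w.length = w'.length) (hc : ∀ p, Reg p → cell w p = cell w' p) :
    window w Reg D h = window w' Reg D h := by
  funext r
  unfold window
  rw [hlen]
  split_ifs with h1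
  · rw [hc _ h1.2.1]
  · rfl

lemma Sc.congr_w {w w' : List A} {a : ℕ} {Reg : ℕ → Prop} [DecidablePred Reg] {D : ℕ}
    {τ : Set ((Fin (2 * D + 1) → Option (Cell A)) × M.Q × M.Q × Fin (2 * D + 1))}
    {u v : M.Cfg} (h : Sc M w a Reg D τ u v)
    (hlen : w.length = w'.length) (hc : ∀ p, Reg p → cell w p = cell w' p) :
    Sc M w' a Reg D τ u v := by
  obtain ⟨h1, h2, h3, h4, r, h5, h6⟩ := h
  exact ⟨h1, h2, h3, h4, r, h5, by rw [← window_congr hlen hc]; exact h6⟩

end Pool.Agent.L0h32.HA
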