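import Pool.Agent.L0h32.HA.Defs

/-!
# The words `x a^l y b^l z`
-/

namespace Pool.Agent.L0h32.HA

/-- The alphabet: letters `x_0, x_1, a, y_0, y_1, b, z_0, z_1`. -/
inductive Sym : Type where
  | x : Bool → Sym
  | a : Sym
  | y : Bool → Sym
  | b : Sym
  | z : Bool → Sym
  deriving DecidableEq, Fintype

variable {l : ℕ}

/-- The word `x a^l y b^l z`. -/
def W (x y z : Fin l → Bool) : List Sym :=
  List.ofFn (fun t => Sym.x (x t)) ++ (List.replicate l Sym.a ++
    (List.ofFn (fun t => Sym.y (y t)) ++ (List.replicate l Sym.b ++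
      List.ofFn (fun t => Sym.z (z t)))))

lemma W_length (x y z : Fin l → Bool) : (W x y z).length = 5 * l := by
  simp [W]; omega

lemma cell_zero {A : Type} (w : List A) : cell w 0 = Cell.left := rfl

lemma cell_succ {A : Type} (w : List A) (j : ℕ) : cell w (j + 1) =
  match w[j]? with
    | some a => Cell.sym a
    | none => Cell.right := rfl

lemma cell_x (x y z : Fin l → Bool) (t : Fin l) :
    cell (W x y z) (t + 1) = Cell.sym (Sym.x (x t)) := by
  have ht := t.2
  rw [cell_succ, W, List.getElem?_append_left (by simp)]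
  simp

lemma cell_a (x y z : Fin l → Bool) {p : ℕ} (h1 : l < p) (h2 : p ≤ 2 * l) :
    cell (W x y z) p = Cell.sym Sym.a := by
  obtain ⟨q, rfl⟩ : ∃ q, p = q + 1 := ⟨p - 1, by omega⟩
  rw [cell_succ, W, List.getElem?_append_right (by simp; omega),
    List.getElem?_append_left (by simp; omega)]
  simp
  rw [List.getElem?_replicate, if_pos (by omega)]

lemma cell_y (x y z : Fin l → Bool) (t : Fin l) :
    cell (W x y z) (2 * l + t + 1) = Cell.sym (Sym.y (y t)) := by
  have ht := t.2
  rw [cell_succ, W, List.getElem?_append_right (by simp; omega),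
    List.getElem?_append_right (by simp; omega),
    List.getElem?_append_left (by simp; omega)]
  simp only [List.length_ofFn, List.length_replicate]
  rw [show 2 * l + (t : ℕ) - l - l = t by omega]
  simp

lemma cell_b (x y z : Fin l → Bool) {p : ℕ} (h1 : 3 * l < p) (h2 : p ≤ 4 * l) :
    cell (W x y z) p = Cell.sym Sym.b := by
  obtain ⟨q, rfl⟩ : ∃ q, p = q + 1 := ⟨p - 1, by omega⟩
  rw [cell_succ, W, List.getElem?_append_right (by simp; omega),
    List.getElem?_append_right (by simp; omega),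
    List.getElem?_append_right (by simp; omega),
    List.getElem?_append_left (by simp; omega)]
  simp only [List.length_ofFn, List.length_replicate]
  rw [List.getElem?_replicate, if_pos (by omega)]

lemma cell_z (x y z : Fin l → Bool) (t : Fin l) :
    cell (W x y z) (4 * l + t + 1) = Cell.sym (Sym.z (z t)) := by
  have ht := t.2
  rw [cell_succ, W, List.getElem?_append_right (by simp; omega),
    List.getElem?_append_right (by simp; omega),
    List.getElem?_append_right (by simp; omega),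
    List.getElem?_append_right (by simp; omega)]
  simp only [List.length_ofFn, List.length_replicate]
  rw [show 4 * l + (t : ℕ) - l - l - l - l = t by omega]
  simp

lemma cell_right (x y z : Fin l → Bool) {p : ℕ} (h1 : 5 * l < p) :
    cell (W x y z) p = Cell.right := by
  obtain ⟨q, rfl⟩ : ∃ q, p = q + 1 := ⟨p - 1, by omega⟩
  rw [cell_succ, List.getElem?_eq_none (by rw [W_length]; omega)]

/-- The left part of the word does not depend on `z`. -/
lemma cell_indep_z (x y z z' : Fin l → Bool) {p : ℕ} (h : p ≤ 4 * l) :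
    cell (W x y z) p = cell (W x y z') p := by
  rcases Nat.eq_zero_or_pos p with rfl | hp
  · rfl
  rcases Nat.lt_or_ge l p with h1 | h1
  swap
  · have e : p = ((⟨p - 1, by omega⟩ : Fin l) : ℕ) + 1 := by simp; omega
    rw [e, cell_x, cell_x]
  rcases Nat.lt_or_ge (2 * l) p with h2 | h2
  swap
  · rw [cell_a _ _ _ h1 h2, cell_a _ _ _ h1 h2]
  rcases Nat.lt_or_ge (3 * l) p with h3 | h3
  swap
  · have e : p = 2 * l + ((⟨p - 1 - 2 * l, by omega⟩ : Fin l) : ℕ) + 1 := by simp; omega
    rw [e, cell_y, cell_y]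
  rw [cell_b _ _ _ h3 h, cell_b _ _ _ h3 h]

/-- The right part of the word does not depend on `x`. -/
lemma cell_indep_x (x x' y z : Fin l → Bool) {p : ℕ} (h : l < p) :
    cell (W x y z) p = cell (W x' y z) p := by
  rcases Nat.lt_or_ge (2 * l) p with h2 | h2
  swap
  · rw [cell_a _ _ _ h h2, cell_a _ _ _ h h2]
  rcases Nat.lt_or_ge (3 * l) p with h3 | h3
  swap
  · have e : p = 2 * l + ((⟨p - 1 - 2 * l, by omega⟩ : Fin l) : ℕ) + 1 := by simp; omega
    rw [e, cell_y, cell_y]
  rcases Nat.lt_or_ge (4 * l) p with h4 | h4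
  swap
  · rw [cell_b _ _ _ h3 h4, cell_b _ _ _ h3 h4]
  rcases Nat.lt_or_ge (5 * l) p with h5 | h5
  swap
  · have e : p = 4 * l + ((⟨p - 1 - 4 * l, by omega⟩ : Fin l) : ℕ) + 1 := by simp; omega
    rw [e, cell_z, cell_z]
  rw [cell_right _ _ _ h5, cell_right _ _ _ h5]

/-- The outer parts of the word do not depend on `y`. -/
lemma cell_indep_y (x y y' z : Fin l → Bool) {p : ℕ} (h : p ≤ 2 * l ∨ 3 * l < p) :
    cell (W x y z) p = cell (W x y' z) p := by
  rcases h with h | h
  · rcases Nat.eq_zero_or_pos p with rfl | hp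
    · rfl
    rcases Nat.lt_or_ge l p with h1 | h1
    swap
    · have e : p = ((⟨p - 1, by omega⟩ : Fin l) : ℕ) + 1 := by simp; omega
      rw [e, cell_x, cell_x]
    rw [cell_a _ _ _ h1 h, cell_a _ _ _ h1 h]
  rcases Nat.lt_or_ge (4 * l) p with h4 | h4
  swap
  · rw [cell_b _ _ _ h h4, cell_b _ _ _ h h4]
  rcases Nat.lt_or_ge (5 * l) p with h5 | h5
  swap
  · have e : p = 4 * l + ((⟨p - 1 - 4 * l, by omega⟩ : Fin l) : ℕ) + 1 := by simp; omega
    rw [e, cell_z, cell_z]
  rw [cell_right _ _ _ h5, cell_right _ _ _ h5]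

/-- The owner of a pair of head positions, given the two cut lines. -/
def owner (c1 c2 : ℕ) (p q : ℕ) : Fin 3 :=
  if p ≤ c2 ∧ q ≤ c2 then 2 else if c1 < p ∧ c1 < q then 0 else 1

lemma owner_two {c1 c2 p q : ℕ} (h : owner c1 c2 p q = 2) : p ≤ c2 ∧ q ≤ c2 := by
  by_contra h1
  unfold owner at h
  rw [if_neg h1] at h
  split_ifs at h
  · exact absurd h (by decide)
  · exact absurd h (by decide)

lemma owner_zero {c1 c2 p q : ℕ} (h : owner c1 c2 p q = 0) : c1 < p ∧ c1 < q := by
  by_contra h1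
  unfold owner at h
  rw [if_neg h1] at h
  split_ifs at h
  · exact absurd h (by decide)
  · exact absurd h (by decide)

lemma owner_one {c1 c2 p q : ℕ} (hc : c1 ≤ c2) (h : owner c1 c2 p q = 1) :
    (p ≤ c1 ∧ c2 < q) ∨ (q ≤ c1 ∧ c2 < p) := by
  by_contra h1
  unfold owner at h
  split_ifs at h with h2 h3
  · exact absurd h (by decide)
  · exact absurd h (by decide)
  · omega

/-- The owner changes only if a head crosses a cut line. -/
lemma owner_change {c1 c2 p q p' q' : ℕ} (h : owner c1 c2 p q ≠ owner c1 c2 p' q') :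
    (p ≤ c1 ∧ c1 < p') ∨ (p' ≤ c1 ∧ c1 < p) ∨ (p ≤ c2 ∧ c2 < p') ∨ (p' ≤ c2 ∧ c2 < p) ∨
    (q ≤ c1 ∧ c1 < q') ∨ (q' ≤ c1 ∧ c1 < q) ∨ (q ≤ c2 ∧ c2 < q') ∨ (q' ≤ c2 ∧ c2 < q) := by
  by_contra hcon
  apply h
  unfold owner
  split_ifs <;> first | rfl | omega

end Pool.Agent.L0h32.HA
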